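import Pool.Agent.J4.H8.BF.Defs

set_option autoImplicit false

/-!
# Mean stiffness (task EH)
-/

open MeasureTheory ProbabilityTheory

namespace Pool.Agent.J4.H8.BF

open Pool.Agent.H320R2.LD Pool.Agent.R959.LD2

noncomputable section

namespace EH

theorem continuous_nrm {V : Type} [Fintype V] : Continuous (nrm : (V → ℝ) → ℝ) := by
  unfold nrm nsq
  fun_prop

theorem continuous_of_Lip {V : Type} [Fintype V] {L : ℝ} {f : (V → ℝ) → ℝ} (hf : Lip L f) :
    Continuous f := by
  rw [continuous_iff_continuousAt]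
  intro x
  rw [ContinuousAt, tendsto_iff_dist_tendsto_zero]
  have h1 : Filter.Tendsto (fun y : V → ℝ => L * nrm (y - x)) (nhds x) (nhds 0) := by
    have h2 : Continuous (fun y : V → ℝ => L * nrm (y - x)) :=
      continuous_const.mul (continuous_nrm.comp (continuous_id.sub continuous_const))
    have h3 := h2.tendsto x
    have h4 : L * nrm (x - x) = 0 := by
      simp [nrm, nsq]
    rw [h4] at h3
    exact h3
  refine squeeze_zero (fun _ => dist_nonneg) (fun y => ?_) h1
  rw [Real.dist_eq]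
  exact hf y x

theorem continuous_wf (K w0 : ℝ) : Continuous (wf K w0) := by
  unfold wf
  fun_prop

theorem wf_pos (K w0 : ℝ) (h : 0 < w0) (x : ℝ) : 0 < wf K w0 x :=
  lt_of_lt_of_le h (le_max_right _ _)

theorem wf_neg (K w0 x : ℝ) : wf K w0 (-x) = wf K w0 x := by
  unfold wf
  rw [abs_neg]

theorem continuous_hf (K w0 : ℝ) (h : 0 < w0) : Continuous (hf K w0) := by
  unfold hf
  exact ((continuous_wf K w0).inv₀ fun x => (wf_pos K w0 h x).ne').pow 4

theorem th_neg (K w0 x : ℝ) : th K w0 (-x) = - th K w0 x := by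
  unfold th
  have h := intervalIntegral.integral_comp_neg (a := 0) (b := x) (fun u => ((wf K w0 u)⁻¹) ^ 2)
  simp only [wf_neg, neg_zero] at h
  rw [h, intervalIntegral.integral_symm]
  
theorem nrm_smul {V : Type} [Fintype V] (M : ℝ) (hM : 0 < M) (x : V → ℝ) :
    nrm (M • x) = M * nrm x := by
  unfold nrm nsq
  have h : ∑ v, (M • x) v ^ 2 = M ^ 2 * ∑ v, x v ^ 2 := by
    rw [Finset.mul_sum]
    refine Finset.sum_congr rfl fun v _ => ?_
    simp only [Pi.smul_apply, smul_eq_mul]
    ring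
  rw [h, Real.sqrt_mul (by positivity), Real.sqrt_sq hM.le]

theorem eta_neg {V W : Type} [Fintype V] [Fintype W] (b : W → V → ℝ) (z : V → ℝ) (R : W) :
    eta b (-z) R = - eta b z R := by
  unfold eta
  simp

end EH

theorem prove_EH (h1 : Sr_SOL) (h2 : St_MOM) (h3 : St_POT2) : Sr_EH := by
  intro M hM
  obtain ⟨C8, hC8, hmom⟩ := h2
  refine ⟨16 * (1 + C8 * (2 * M) ^ 8 + 2 ^ 7 * (1 + C8 * (M / 2) ^ 8)), by positivity, ?_⟩
  intro V W _ _ b K w0 z hK hw0 hw1 hz R hR
  obtain ⟨hodd, -, -, heta, -, hth⟩ := h1 V W b K w0 z hK hw0 hw1 hz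
  obtain ⟨-, -, -, hpot⟩ := h3 (K R) w0 (hK R) hw0 hw1
  obtain ⟨f, hfd⟩ : ∃ f : (V → ℝ) → ℝ, f = fun g => eta b (z (M • g)) R := ⟨_, rfl⟩
  have hfapp : ∀ g, f g = eta b (z (M • g)) R := fun g => by rw [hfd]
  have hfL : Lip (2 * M) f := by
    intro x y
    rw [hfapp, hfapp]
    have := heta R hR (M • y) (M • x)
    rw [← smul_sub, EH.nrm_smul M hM] at this
    linarith
  have hfodd : ∀ x, f (-x) = - f x := by
    intro x
    rw [hfapp, hfapp, smul_neg, hodd, EH.eta_neg]
  obtain ⟨-, i1, e1, -, -⟩ := hmom V f (2 * M) (by positivity) hfL hfodd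
  have hgL : Lip (M / 2) (fun g => th (K R) w0 (f g)) := by
    intro x y
    have := hth R (M • y) (M • x)
    rw [← smul_sub, EH.nrm_smul M hM] at this
    simp only [hfapp]
    linarith
  have hgodd : ∀ x, (fun g => th (K R) w0 (f g)) (-x) = - (fun g => th (K R) w0 (f g)) x := by
    intro x
    simp only [hfodd, EH.th_neg]
  obtain ⟨-, i2, e2, -, -⟩ := hmom V _ (M / 2) (by positivity) hgL hgodd
  have hcont : Continuous f := EH.continuous_of_Lip hfL
  have hcont2 : Continuous (fun g => hf (K R) w0 (f g)) := (EH.continuous_hf (K R) w0 hw0).comp hcont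
  have hnn : ∀ x, 0 ≤ hf (K R) w0 x := fun x => by
    unfold hf
    have := EH.wf_pos (K R) w0 hw0 x
    positivity
  have hbd : ∀ x, hf (K R) w0 x ≤ (w0⁻¹) ^ 4 := by
    intro x
    unfold hf
    refine pow_le_pow_left₀ (inv_nonneg.2 (EH.wf_pos (K R) w0 hw0 x).le) ?_ 4
    exact inv_anti₀ hw0 (le_max_right _ _)
  have hint : Integrable (fun g => hf (K R) w0 (f g)) (gam V) := by
    refine Integrable.mono' (integrable_const ((w0⁻¹) ^ 4)) hcont2.aestronglyMeasurable ?_
    refine Filter.Eventually.of_forall fun g => ?_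
    rw [Real.norm_of_nonneg (hnn _)]
    exact hbd _
  have hKpos : 0 < K R := by linarith [hK R]
  have hpt : ∀ g, hf (K R) w0 (f g) ≤
      16 * ((K R)⁻¹) ^ 4 * (1 + f g ^ 8 + 2 ^ 7 * (1 + (th (K R) w0 (f g)) ^ 8)) := by
    intro g
    refine (hpot (f g)).trans (mul_le_mul_of_nonneg_left ?_ (by positivity))
    have h5 := add_pow_le (zero_le_one) (abs_nonneg (th (K R) w0 (f g))) 8
    have h6 : |th (K R) w0 (f g)| ^ 8 = (th (K R) w0 (f g)) ^ 8 := by
      have : Even 8 := by decide
      exact this.pow_abs _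
    rw [h6] at h5
    norm_num at h5
    linarith
  have hint2 : Integrable (fun g => 16 * ((K R)⁻¹) ^ 4 *
      (1 + f g ^ 8 + 2 ^ 7 * (1 + (th (K R) w0 (f g)) ^ 8))) (gam V) :=
    (((integrable_const 1).add i1).add (((integrable_const 1).add i2).const_mul _)).const_mul _
  have hfin : ∫ g, hf (K R) w0 (f g) ∂(gam V) ≤
      16 * ((K R)⁻¹) ^ 4 * (1 + C8 * (2 * M) ^ 8 + 2 ^ 7 * (1 + C8 * (M / 2) ^ 8)) := by
    refine (integral_mono hint hint2 hpt).trans ?_
    rw [integral_const_mul, integral_add, integral_add, integral_const_mul, integral_add]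
    · simp only [integral_const, smul_eq_mul, mul_one]
      have hu : (gam V).real Set.univ = 1 := probReal_univ
      rw [hu]
      refine mul_le_mul_of_nonneg_left ?_ (by positivity)
      linarith
    · exact integrable_const 1
    · exact i2
    · exact integrable_const 1
    · exact i1
    · exact (integrable_const 1).add i1
    · exact ((integrable_const 1).add i2).const_mul _
  rw [hfd] at hint hfin
  refine ⟨hint, hfin.trans (le_of_eq ?_)⟩
  ring

end

end Pool.Agent.J4.H8.BF
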