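import Pool.Agent.J4.H8.BF.Defs

set_option autoImplicit false

open MeasureTheory ProbabilityTheory

namespace Pool.Agent.J4.H8.BF

open Pool.Agent.H320R2.LD Pool.Agent.R959.LD2

namespace FAR

theorem nrm_smul {V : Type} [Fintype V] (M : ℝ) (hM : 0 < M) (x : V → ℝ) :
    nrm (M • x) = M * nrm x := by
  unfold nrm nsq
  have : ∑ v, (M • x) v ^ 2 = M ^ 2 * ∑ v, x v ^ 2 := by
    rw [Finset.mul_sum]
    refine Finset.sum_congr rfl fun v _ => ?_
    simp [mul_pow]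
  rw [this, Real.sqrt_mul (sq_nonneg _), Real.sqrt_sq hM.le]

theorem th_neg (K w0 x : ℝ) : th K w0 (-x) = - th K w0 x := by
  have h := intervalIntegral.integral_comp_neg (a := 0) (b := x)
    (fun u => ((wf K w0 u)⁻¹) ^ 2)
  have e : ∀ u, wf K w0 (-u) = wf K w0 u := fun u => by simp [wf]
  simp only [e, neg_zero] at h
  unfold th
  rw [h, intervalIntegral.integral_symm]

end FAR

open FAR in
theorem prove_FAR (hSOL : Sr_SOL) (hCONC : St_CONC) (hMOM : St_MOM) (hP2 : St_POT2) :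
    Sr_FAR := by
  intro V W _ _ b K w0 M z hK hw hw1 hz hM R
  obtain ⟨s1, s2, s3, s4, s5, s6⟩ := hSOL V W b K w0 z hK hw hw1 hz
  obtain ⟨hfar, _⟩ := hP2 (K R) w0 (hK R) hw hw1
  obtain ⟨C8, hC8, hmom⟩ := hMOM
  set f : (V → ℝ) → ℝ := fun g => th (K R) w0 (eta b (z (M • g)) R) with hf
  have hL : (0:ℝ) < M / 2 := by positivity
  have hfL : Lip (M / 2) f := by
    intro x y
    have h := s6 R (M • y) (M • x)
    rw [← smul_sub, nrm_smul M hM] at h
    calc |f x - f y| ≤ M * nrm (x - y) / 2 := h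
      _ = M / 2 * nrm (x - y) := by ring
  have hfo : ∀ x, f (-x) = - f x := by
    intro x
    have e1 : z (M • (-x)) = - z (M • x) := by rw [smul_neg, s1]
    have e2 : eta b (-(z (M • x))) R = - eta b (z (M • x)) R := by
      simp [eta]
    simp only [hf]
    rw [e1, e2, th_neg]
  have hf0 : ∫ x, f x ∂(gam V) = 0 := (hmom V f (M / 2) hL hfL hfo).1
  have hgL : Lip (M / 2) (fun x => - f x) := by
    intro x y
    have := hfL x y
    rw [abs_sub_comm] at this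
    calc |(- f x) - (- f y)| = |f y - f x| := by congr 1; ring
      _ ≤ _ := this
  have hg0 : ∫ x, (- f x) ∂(gam V) = 0 := by rw [integral_neg, hf0, neg_zero]
  have hu : (0:ℝ) ≤ (w0⁻¹) ^ 2 := by positivity
  have c1 := hCONC V f (M / 2) hL hfL ((w0⁻¹) ^ 2) hu
  have c2 := hCONC V (fun x => - f x) (M / 2) hL hgL ((w0⁻¹) ^ 2) hu
  rw [hf0] at c1
  rw [hg0] at c2
  simp only [zero_add] at c1 c2
  have ee : -((w0⁻¹) ^ 2) ^ 2 / (4 * (M / 2) ^ 2) = -((w0⁻¹) ^ 4 / M ^ 2) := by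
    field_simp
    ring
  rw [ee] at c1 c2
  have hsub : {g : V → ℝ | K R + 2 ≤ |eta b (z (M • g)) R|} ⊆
      {x | (w0⁻¹) ^ 2 ≤ f x} ∪ {x | (w0⁻¹) ^ 2 ≤ - f x} := by
    intro g hg
    have h := hfar _ hg
    rcases le_abs.mp h with h | h
    · exact Or.inl h
    · exact Or.inr h
  calc (gam V).real {g | K R + 2 ≤ |eta b (z (M • g)) R|}
      ≤ (gam V).real ({x | (w0⁻¹) ^ 2 ≤ f x} ∪ {x | (w0⁻¹) ^ 2 ≤ - f x}) :=
        measureReal_mono hsub
    _ ≤ (gam V).real {x | (w0⁻¹) ^ 2 ≤ f x} + (gam V).real {x | (w0⁻¹) ^ 2 ≤ - f x} :=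
        measureReal_union_le _ _
    _ ≤ Real.exp (-((w0⁻¹) ^ 4 / M ^ 2)) + Real.exp (-((w0⁻¹) ^ 4 / M ^ 2)) :=
        add_le_add c1 c2
    _ = 2 * Real.exp (-((w0⁻¹) ^ 4 / M ^ 2)) := by ring

end Pool.Agent.J4.H8.BF
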