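import Pool.Agent.J4.H8.BF.Defs

set_option autoImplicit false

/-!
# ITER: iteration of the phases, and MAIN: the signs
-/

open MeasureTheory ProbabilityTheory Filter

namespace Pool.Agent.J4.H8.BF

open Pool.Agent.H320R2.LD Pool.Agent.R959.LD2

/-- telescoping bound for the truncated geometric series -/
theorem tele (ρ y : ℝ) (h0 : 0 < ρ) (h1 : ρ < 1) (hy : 0 ≤ y) (n : ℕ) :
    ∑ k ∈ Finset.range n, min 1 (ρ ^ k * y) ≤
      (2 / (1 - ρ)) * (Real.log (1 + y) - Real.log (1 + ρ ^ n * y)) := by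
  have h1r : 0 < 1 - ρ := by linarith
  have step : ∀ z : ℝ, 0 ≤ z → min 1 z ≤
      (2 / (1 - ρ)) * (Real.log (1 + z) - Real.log (1 + ρ * z)) := by
    intro z hz
    have hz1 : 0 < 1 + z := by linarith
    have hz2 : 0 < 1 + ρ * z := by positivity
    have e1 : Real.log ((1 + ρ * z) / (1 + z)) ≤ (1 + ρ * z) / (1 + z) - 1 :=
      Real.log_le_sub_one_of_pos (by positivity)
    rw [Real.log_div hz2.ne' hz1.ne'] at e1
    have e2 : (1 + ρ * z) / (1 + z) - 1 = -((1 - ρ) * (z / (1 + z))) := by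
      field_simp
      ring
    rw [e2] at e1
    have e3 : min 1 z ≤ 2 * (z / (1 + z)) := by
      rw [mul_div_assoc', le_div_iff₀ hz1]
      rcases le_total 1 z with h | h
      · rw [min_eq_left h]; linarith
      · rw [min_eq_right h]; nlinarith
    have e4 : (1 - ρ) * (z / (1 + z)) ≤ Real.log (1 + z) - Real.log (1 + ρ * z) := by linarith
    calc min 1 z ≤ 2 * (z / (1 + z)) := e3
      _ = (2 / (1 - ρ)) * ((1 - ρ) * (z / (1 + z))) := by field_simp
      _ ≤ _ := mul_le_mul_of_nonneg_left e4 (by positivity)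
  induction n with
  | zero => simp
  | succ n ih =>
    rw [Finset.sum_range_succ]
    have h2 := step (ρ ^ n * y) (by positivity)
    have h3 : ρ * (ρ ^ n * y) = ρ ^ (n + 1) * y := by ring
    rw [h3] at h2
    nlinarith

/-- the norm of a row is bounded by the operator norm -/
theorem row_le (V W : Type) [Fintype V] [Fintype W] (A : W → V → ℝ) (N : ℝ)
    (hop : ∀ x : V → ℝ, ∑ R, (∑ v, |A R v| * |x v|) ^ 2 ≤ N * nsq x) (R : W) :
    ∑ v, A R v ^ 2 ≤ max N 0 := by
  have h1 := hop (A R)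
  have h2 : (∑ v, |A R v| * |A R v|) ^ 2 ≤ ∑ R', (∑ v, |A R' v| * |A R v|) ^ 2 :=
    Finset.single_le_sum (f := fun R' => (∑ v, |A R' v| * |A R v|) ^ 2)
      (fun R' _ => sq_nonneg _) (Finset.mem_univ R)
  have h3 : ∑ v, |A R v| * |A R v| = ∑ v, A R v ^ 2 :=
    Finset.sum_congr rfl fun v _ => by rw [← sq, sq_abs]
  rw [h3] at h2
  have h4 : nsq (A R) = ∑ v, A R v ^ 2 := rfl
  rw [h4] at h1
  set r := ∑ v, A R v ^ 2 with hr
  have hr0 : 0 ≤ r := Finset.sum_nonneg fun v _ => sq_nonneg _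
  rcases hr0.eq_or_lt with h0 | h0
  · rw [← h0]; exact le_max_right _ _
  · have h5 : r * r ≤ N * r := by nlinarith
    exact (le_of_mul_le_mul_right h5 h0).trans (le_max_left _ _)

theorem prove_ITER (ν κ σ : ℝ) (hν : 0 ≤ ν) (hσ : 0 < σ) (h1 : Sr_PHASE ν κ σ) :
    Sr_ITER ν κ σ := by
  obtain ⟨C, t0, hC, ht0, hph⟩ := h1
  set ρ : ℝ := (4/5 : ℝ) ^ (1/4 : ℝ) with hρ
  have hρ0 : 0 < ρ := Real.rpow_pos_of_pos (by norm_num) _
  have hρ1 : ρ < 1 := Real.rpow_lt_one (by norm_num) (by norm_num) (by norm_num)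
  have h1r : 0 < 1 - ρ := by linarith
  have hl54 : 0 < Real.log (5/4) := Real.log_pos (by norm_num)
  set c0 : ℝ := (ν + σ) / Real.log (5/4) with hc0
  have hc00 : 0 < c0 := by rw [hc0]; positivity
  -- large t
  have hev1 : ∀ᶠ t : ℝ in atTop, 2 ≤ t ^ (σ / 4) :=
    (tendsto_rpow_atTop (by linarith)).eventually_ge_atTop 2
  have hev2 : ∀ᶠ t : ℝ in atTop, ‖Real.log t‖ ≤ (1 / (2 * c0)) * ‖t ^ (σ / 4)‖ :=
    (isLittleO_log_rpow_atTop (by linarith : 0 < σ / 4)).def (by positivity)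
  obtain ⟨t1, ht1⟩ := Filter.eventually_atTop.mp (hev1.and hev2)
  refine ⟨C * (1 + 2 / (1 - ρ)), max t0 (max t1 2), by positivity,
    (le_max_right _ _).trans (le_max_right _ _), ?_⟩
  intro t ht V W _ _ A hA
  have htt0 : t0 ≤ t := (le_max_left _ _).trans ht
  have htt1 : t1 ≤ t := ((le_max_left _ _).trans (le_max_right _ _)).trans ht
  have ht2 : 2 ≤ t := by linarith
  have htp : 0 < t := by linarith
  obtain ⟨hb1, hb2⟩ := ht1 t htt1
  have hlog0 : 0 < Real.log t := Real.log_pos (by linarith)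
  have hp4 : 0 < t ^ (σ / 4) := Real.rpow_pos_of_pos htp _
  rw [Real.norm_of_nonneg hlog0.le, Real.norm_of_nonneg hp4.le] at hb2
  set s : ℝ := t ^ (-σ) with hs
  have hs0 : 0 < s := Real.rpow_pos_of_pos htp _
  have hs1 : s ≤ 1 := Real.rpow_le_one_of_one_le_of_nonpos (by linarith) (by linarith)
  have hs4 : s ^ (1/4 : ℝ) * t ^ (σ / 4) = 1 := by
    rw [hs, ← Real.rpow_mul htp.le, ← Real.rpow_add htp]
    have : -σ * (1/4 : ℝ) + σ / 4 = 0 := by ring
    rw [this, Real.rpow_zero]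
  have hs40 : 0 < s ^ (1/4 : ℝ) := Real.rpow_pos_of_pos hs0 _
  set n : ℕ := ⌈c0 * Real.log t⌉₊ with hn
  have hn1 : c0 * Real.log t ≤ n := Nat.le_ceil _
  have hn2 : (n : ℝ) < c0 * Real.log t + 1 := Nat.ceil_lt_add_one (by positivity)
  have hns : (n : ℝ) * s ^ (1/4 : ℝ) ≤ 1 := by
    have h2 : c0 * Real.log t ≤ t ^ (σ / 4) / 2 := by
      calc c0 * Real.log t ≤ c0 * ((1 / (2 * c0)) * t ^ (σ / 4)) :=
            mul_le_mul_of_nonneg_left hb2 hc00.le
        _ = t ^ (σ / 4) / 2 := by field_simp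
    have h3 : (n : ℝ) ≤ t ^ (σ / 4) := by linarith
    calc (n : ℝ) * s ^ (1/4 : ℝ) ≤ t ^ (σ / 4) * s ^ (1/4 : ℝ) :=
          mul_le_mul_of_nonneg_right h3 hs40.le
      _ = 1 := by rw [mul_comm]; exact hs4
  set r : W → ℝ := fun R => ∑ v, A R v ^ 2 with hr
  have hr0 : ∀ R, 0 ≤ r R := fun R => Finset.sum_nonneg fun v _ => sq_nonneg _
  have hrt : ∀ R, r R ≤ t ^ ν := by
    intro R
    have h2 := row_le V W A (t ^ ν) hA.2.2.1 R
    rwa [max_eq_left (Real.rpow_nonneg htp.le _)] at h2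
  have hend : ∀ R, (4/5 : ℝ) ^ n * r R ≤ s := by
    intro R
    have e1 : (4/5 : ℝ) ^ n = Real.exp (-(n * Real.log (5/4))) := by
      have : (4/5 : ℝ) = Real.exp (-(Real.log (5/4))) := by
        rw [Real.exp_neg, Real.exp_log (by norm_num)]; norm_num
      rw [this, ← Real.exp_nat_mul]
      congr 1
      ring
    have e2 : (4/5 : ℝ) ^ n ≤ Real.exp (-((ν + σ) * Real.log t)) := by
      rw [e1]
      apply Real.exp_le_exp.mpr
      have : c0 * Real.log t * Real.log (5/4) ≤ n * Real.log (5/4) :=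
        mul_le_mul_of_nonneg_right hn1 hl54.le
      have e3 : c0 * Real.log t * Real.log (5/4) = (ν + σ) * Real.log t := by
        rw [hc0]; field_simp
      linarith
    have e4 : Real.exp (-((ν + σ) * Real.log t)) = t ^ (-(ν + σ)) := by
      rw [Real.rpow_def_of_pos htp]
      congr 1
      ring
    rw [e4] at e2
    calc (4/5 : ℝ) ^ n * r R ≤ t ^ (-(ν + σ)) * t ^ ν :=
          mul_le_mul e2 (hrt R) (hr0 R) (Real.rpow_nonneg htp.le _)
      _ = s := by
          rw [← Real.rpow_add htp, hs]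
          congr 1
          ring
  classical
  have key : ∀ j : ℕ, ∃ a : V → ℝ, (∀ v, |a v| ≤ 1) ∧
      (∀ R, Phi A a R ≤ max s ((4/5 : ℝ) ^ j * r R)) ∧
      ∀ R, |∑ v, A R v * a v| ≤
        C * ∑ i ∈ Finset.range j, (min 1 (max s ((4/5 : ℝ) ^ i * r R))) ^ (1/4 : ℝ) := by
    intro j
    induction j with
    | zero =>
      refine ⟨fun _ => 0, fun v => by simp, fun R => ?_, fun R => by simp⟩
      unfold Phi
      refine le_trans ?_ (le_max_right _ _)
      simp [hr]
    | succ j ih =>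
      obtain ⟨a, ha1, ha2, ha3⟩ := ih
      obtain ⟨a', ha1', ha2', ha3'⟩ := hph t htt0 V W A
        (fun R => max s ((4/5 : ℝ) ^ j * r R)) a hA (fun R => le_max_left _ _) ha1 ha2
      refine ⟨a', ha1', fun R => ?_, fun R => ?_⟩
      · refine (ha2' R).trans ?_
        rw [pow_succ]
        rcases le_total s ((4/5 : ℝ) ^ j * r R) with h | h
        · rw [max_eq_right h]
          refine le_trans (le_of_eq ?_) (le_max_right _ _)
          ring
        · rw [max_eq_left h]
          refine le_trans ?_ (le_max_left _ _)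
          linarith
      · have h1 := ha3 R
        have h2 := ha3' R
        have h3 : ∑ v, A R v * a' v = ∑ v, A R v * a v + ∑ v, A R v * (a' v - a v) := by
          rw [← Finset.sum_add_distrib]
          exact Finset.sum_congr rfl fun v _ => by ring
        rw [h3, Finset.sum_range_succ, mul_add]
        exact (abs_add_le _ _).trans (add_le_add h1 h2)
  obtain ⟨a, ha1, ha2, ha3⟩ := key n
  refine ⟨a, ha1, fun R => (ha2 R).trans (max_le le_rfl (hend R)), fun R => (ha3 R).trans ?_⟩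
  -- the sum of the errors
  set y : ℝ := (r R) ^ (1/4 : ℝ) with hy
  have hy0 : 0 ≤ y := Real.rpow_nonneg (hr0 R) _
  have hterm : ∀ i : ℕ, (min 1 (max s ((4/5 : ℝ) ^ i * r R))) ^ (1/4 : ℝ) ≤
      s ^ (1/4 : ℝ) + min 1 (ρ ^ i * y) := by
    intro i
    have e1 : ((4/5 : ℝ) ^ i * r R) ^ (1/4 : ℝ) = ρ ^ i * y := by
      rw [Real.mul_rpow (by positivity) (hr0 R), hρ, hy]
      congr 1
      rw [← Real.rpow_natCast, ← Real.rpow_natCast, ← Real.rpow_mul (by norm_num),
        ← Real.rpow_mul (by norm_num), mul_comm]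
    have hz0 : 0 ≤ (4/5 : ℝ) ^ i * r R := mul_nonneg (by positivity) (hr0 R)
    rcases le_total s ((4/5 : ℝ) ^ i * r R) with h | h
    · rw [max_eq_right h]
      refine le_trans ?_ (le_add_of_nonneg_left hs40.le)
      rcases le_total 1 ((4/5 : ℝ) ^ i * r R) with h' | h'
      · rw [min_eq_left h', Real.one_rpow]
        refine le_min le_rfl ?_
        rw [← e1]
        exact Real.one_le_rpow h' (by norm_num)
      · rw [min_eq_right h', e1]
        refine le_min ?_ le_rfl
        rw [← e1]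
        exact Real.rpow_le_one hz0 h' (by norm_num)
    · rw [max_eq_left h, min_eq_right hs1]
      refine le_add_of_nonneg_right (le_min (by norm_num) (by positivity))
  have hsum : ∑ i ∈ Finset.range n, (min 1 (max s ((4/5 : ℝ) ^ i * r R))) ^ (1/4 : ℝ) ≤
      1 + (2 / (1 - ρ)) * Real.log (1 + y) := by
    refine (Finset.sum_le_sum fun i _ => hterm i).trans ?_
    rw [Finset.sum_add_distrib, Finset.sum_const, Finset.card_range, nsmul_eq_mul]
    have e1 := tele ρ y hρ0 hρ1 hy0 n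
    have e2 : 0 ≤ Real.log (1 + ρ ^ n * y) := Real.log_nonneg (by
      have : 0 ≤ ρ ^ n * y := by positivity
      linarith)
    have e3 : (2 / (1 - ρ)) * (Real.log (1 + y) - Real.log (1 + ρ ^ n * y)) ≤
        (2 / (1 - ρ)) * Real.log (1 + y) :=
      mul_le_mul_of_nonneg_left (by linarith) (by positivity)
    linarith
  have hlogy : Real.log (1 + y) ≤ 1 + Real.log (1 + r R) := by
    have e1 : y ≤ 1 + r R := by
      rcases le_total (r R) 1 with h | h
      · have : y ≤ 1 := Real.rpow_le_one (hr0 R) h (by norm_num)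
        linarith [hr0 R]
      · have : y ≤ (r R) ^ (1 : ℝ) := Real.rpow_le_rpow_of_exponent_le h (by norm_num)
        rw [Real.rpow_one] at this
        linarith
    have e2 : Real.log (1 + y) ≤ Real.log (2 * (1 + r R)) :=
      Real.log_le_log (by positivity) (by linarith [hr0 R])
    rw [Real.log_mul (by norm_num) (by linarith [hr0 R])] at e2
    have e3 : Real.log 2 ≤ 1 := by
      have := Real.log_two_lt_d9
      linarith
    linarith
  have hlr : 0 ≤ Real.log (1 + r R) := Real.log_nonneg (by linarith [hr0 R])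
  calc C * ∑ i ∈ Finset.range n, (min 1 (max s ((4/5 : ℝ) ^ i * r R))) ^ (1/4 : ℝ)
      ≤ C * (1 + (2 / (1 - ρ)) * (1 + Real.log (1 + r R))) := by
        refine mul_le_mul_of_nonneg_left (hsum.trans ?_) hC.le
        have := mul_le_mul_of_nonneg_left hlogy (by positivity : 0 ≤ 2 / (1 - ρ))
        linarith
    _ ≤ C * (1 + 2 / (1 - ρ)) * (1 + Real.log (1 + r R)) := by
        have h2 : 0 ≤ 2 / (1 - ρ) := by positivity
        nlinarith

theorem prove_MAIN (ν κ σ : ℝ) (hκ : 0 < κ) (h1 : Sr_ITER ν κ σ) (h2 : Sr_ROUND ν κ σ) :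
    Sr_MAIN ν κ := by
  obtain ⟨C, t0, hC, ht0, hI⟩ := h1
  obtain ⟨t1, ht1, hR⟩ := h2
  have hmax : 0 ≤ max t0 t1 := le_trans (by linarith) (le_max_left t0 t1)
  refine ⟨C + 10 + Real.exp ((max t0 t1) ^ κ), by positivity, ?_⟩
  intro t ht V W _ _ A hA
  classical
  have hexp := Real.exp_pos ((max t0 t1) ^ κ)
  have hlr : ∀ R, 0 ≤ Real.log (1 + ∑ v, A R v ^ 2) := fun R => Real.log_nonneg (by
    have : 0 ≤ ∑ v, A R v ^ 2 := Finset.sum_nonneg fun v _ => sq_nonneg _
    linarith)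
  by_cases hbig : max t0 t1 ≤ t
  · obtain ⟨a, ha1, ha2, ha3⟩ := hI t ((le_max_left _ _).trans hbig) V W A hA
    have hsq : ∀ R, ∑ v, A R v ^ 2 * (1 - |a v|) ≤ t ^ (-σ) := by
      intro R
      refine le_trans (Finset.sum_le_sum fun v _ => ?_) (ha2 R)
      apply mul_le_mul_of_nonneg_left _ (sq_nonneg _)
      have h0 : 0 ≤ 1 - |a v| := by linarith [ha1 v]
      have h1 : 1 - |a v| ≤ 1 := by linarith [abs_nonneg (a v)]
      calc 1 - |a v| = Real.sqrt ((1 - |a v|) ^ 2) := (Real.sqrt_sq h0).symm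
        _ ≤ Real.sqrt (1 - |a v|) := Real.sqrt_le_sqrt (by nlinarith)
    obtain ⟨x, hx1, hx2⟩ := hR t ((le_max_right _ _).trans hbig) V W A a hA ha1 hsq
    refine ⟨x, hx1, fun R => ?_⟩
    have h3 : ∑ v, A R v * x v = ∑ v, A R v * (x v - a v) + ∑ v, A R v * a v := by
      rw [← Finset.sum_add_distrib]
      exact Finset.sum_congr rfl fun v _ => by ring
    rw [h3]
    refine (abs_add_le _ _).trans ?_
    have h4 := hlr R
    have h5 := hx2 R
    have h6 := ha3 R
    nlinarith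
  · push Not at hbig
    refine ⟨fun _ => 1, fun _ => Or.inl rfl, fun R => ?_⟩
    obtain ⟨hA1, _, _, hA4, _⟩ := hA
    have h1 : ∀ v, |A R v| ≤ 1 := by
      intro v
      have h2 := hA1 R v
      have h3 : A R v ^ 2 ≤ 1 := by nlinarith [sq_nonneg (A R v)]
      exact abs_le_one_iff_mul_self_le_one.2 (by nlinarith)
    have h2 : |∑ v, A R v * 1| ≤ ∑ v ∈ supp (A R), (1 : ℝ) := by
      calc |∑ v, A R v * 1| ≤ ∑ v, |A R v * 1| := Finset.abs_sum_le_sum_abs _ _
        _ = ∑ v ∈ supp (A R), |A R v * 1| := by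
            symm
            refine Finset.sum_subset (Finset.subset_univ _) fun v _ hv => ?_
            have : A R v = 0 := by
              by_contra h0
              exact hv ((mem_supp _ _).mpr h0)
            rw [this]; simp
        _ ≤ _ := Finset.sum_le_sum fun v _ => by rw [mul_one]; exact h1 v
    rw [Finset.sum_const, nsmul_eq_mul, mul_one] at h2
    have h4 : Real.exp (t ^ κ) ≤ Real.exp ((max t0 t1) ^ κ) :=
      Real.exp_le_exp.mpr (Real.rpow_le_rpow (by linarith) hbig.le hκ.le)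
    have h5 := hlr R
    have h6 := hA4 R
    have h7 : |∑ v, A R v * 1| ≤ C + 10 + Real.exp ((max t0 t1) ^ κ) := by linarith
    refine h7.trans ?_
    exact le_mul_of_one_le_right (by positivity) (by linarith)

end Pool.Agent.J4.H8.BF
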