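import Pool.Agent.J4.H8.BF.Defs

set_option autoImplicit false

open MeasureTheory ProbabilityTheory

namespace Pool.Agent.J4.H8.BF

open Pool.Agent.H320R2.LD Pool.Agent.R959.LD2

namespace MEAN

lemma wf_pos {K w0 : ℝ} (h : 0 < w0) (x : ℝ) : 0 < wf K w0 x :=
  lt_of_lt_of_le h (le_max_right _ _)

lemma wf_cont (K w0 : ℝ) : Continuous (wf K w0) := by
  unfold wf; fun_prop

lemma hf_cont {K w0 : ℝ} (h : 0 < w0) : Continuous (hf K w0) := by
  unfold hf
  exact ((wf_cont K w0).inv₀ fun x => (wf_pos h x).ne').pow 4

lemma hf_nonneg {K w0 : ℝ} (x : ℝ) : 0 ≤ hf K w0 x := by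
  unfold hf; positivity

lemma pf_mono {K w0 : ℝ} (h : 0 < w0) : Monotone (pf K w0) := by
  intro x y hxy
  have hi : ∀ a b : ℝ, IntervalIntegrable (hf K w0) volume a b := fun a b =>
    (hf_cont h).intervalIntegrable a b
  have : pf K w0 y - pf K w0 x = ∫ u in x..y, hf K w0 u := by
    unfold pf
    exact intervalIntegral.integral_interval_sub_left (hi 0 y) (hi 0 x)
  have h2 : 0 ≤ ∫ u in x..y, hf K w0 u :=
    intervalIntegral.integral_nonneg hxy fun u _ => hf_nonneg u
  linarith

variable {V : Type} [Fintype V]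

lemma nsq_nonneg (x : V → ℝ) : 0 ≤ nsq x := Finset.sum_nonneg fun _ _ => sq_nonneg _

lemma nrm_cont : Continuous (nrm : (V → ℝ) → ℝ) := by
  unfold nrm nsq
  fun_prop

lemma nrm_zero : nrm (0 : V → ℝ) = 0 := by
  simp [nrm, nsq]

lemma nrm_smul (M : ℝ) (hM : 0 ≤ M) (x : V → ℝ) : nrm (M • x) = M * nrm x := by
  unfold nrm nsq
  have : ∑ v, (M • x) v ^ 2 = M ^ 2 * ∑ v, x v ^ 2 := by
    rw [Finset.mul_sum]
    refine Finset.sum_congr rfl fun v _ => ?_
    simp [mul_pow]
  rw [this, Real.sqrt_mul (by positivity), Real.sqrt_sq hM]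

lemma cont_of_lip {f : (V → ℝ) → ℝ} {L : ℝ} (h : ∀ x y, |f x - f y| ≤ L * nrm (x - y)) :
    Continuous f := by
  rw [continuous_iff_continuousAt]
  intro y
  rw [ContinuousAt, tendsto_iff_norm_sub_tendsto_zero]
  have h1 : Filter.Tendsto (fun x => L * nrm (x - y)) (nhds y) (nhds 0) := by
    have : Continuous fun x : V → ℝ => L * nrm (x - y) :=
      continuous_const.mul (nrm_cont.comp (continuous_id.sub continuous_const))
    have h2 := this.tendsto y
    simpa [nrm_zero] using h2
  exact squeeze_zero (fun x => norm_nonneg _) (fun x => by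
    rw [Real.norm_eq_abs]; exact h x y) h1

lemma bdd_integrable {f : (V → ℝ) → ℝ} (hf : Continuous f) {B : ℝ} (hB : ∀ x, |f x| ≤ B) :
    Integrable f (gam V) :=
  Integrable.of_bound hf.aestronglyMeasurable B (Filter.Eventually.of_forall fun x => by
    rw [Real.norm_eq_abs]; exact hB x)

end MEAN

open MEAN in
theorem prove_MEAN (hSHIFT : Sr_SHIFT) (hSH : St_SH) (hTWO : Sr_TWO) (hSOL : Sr_SOL) :
    Sr_MEAN := by
  intro V W _ _ b K w0 M δ z hK hw0 hw1 hrow hz hM hδ hδw hint v
  classical
  obtain ⟨-, -, hLip, -, -, -⟩ := hSOL V W b K w0 z hK hw0 hw1 hz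
  set f : (V → ℝ) → ℝ := fun g => z (M • g) v with hfdef
  have hsm : ∀ x : V → ℝ, ∀ a : ℝ, M • (fun u => x u + if u = v then a else 0)
      = fun u => (M • x) u + if u = v then M * a else 0 := by
    intro x a
    funext u
    by_cases h : u = v <;> simp [h, mul_add]
  have hfL : ∀ x y, |f x - f y| ≤ M * nrm (x - y) := by
    intro x y
    have := hLip v (M • y) (M • x)
    rw [← smul_sub, nrm_smul M hM.le] at this
    exact this
  have hfc : Continuous f := cont_of_lip hfL
  have hf1 : ∀ x, |f x| ≤ 1 := fun x => (hz (M • x)).1 v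
  have hmono : ∀ x : V → ℝ, ∀ a : ℝ, 0 ≤ a →
      f x ≤ f (fun u => x u + if u = v then a else 0) := by
    intro x a ha
    rcases ha.eq_or_lt with h0 | hpos
    · subst h0; simp [hfdef]
    · have h2 := (hTWO V W b (pK K w0) (fun R => pf_mono hw0) (M • x)
        (M • (fun u => x u + if u = v then a else 0)) _ _ (hz _) (hz _)).2.1
      have h3 : ∑ u, ((M • (fun u => x u + if u = v then a else 0)) u - (M • x) u)
          * (z (M • (fun u => x u + if u = v then a else 0)) u - z (M • x) u)
          = M * a * (f (fun u => x u + if u = v then a else 0) - f x) := by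
        rw [hsm]
        rw [Finset.sum_eq_single v]
        · simp [hfdef, hsm]
        · intro u _ hu; simp [hu]
        · intro h; exact absurd (Finset.mem_univ v) h
      rw [h3] at h2
      have h4 : 0 ≤ ∑ R, (pf (K R) w0 (eta b (z (M • (fun u => x u + if u = v then a else 0))) R)
          - pf (K R) w0 (eta b (z (M • x)) R))
          * (eta b (z (M • (fun u => x u + if u = v then a else 0))) R
            - eta b (z (M • x)) R) := by
        refine Finset.sum_nonneg fun R _ => ?_
        rcases le_total (eta b (z (M • (fun u => x u + if u = v then a else 0))) R)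
          (eta b (z (M • x)) R) with h | h
        · have := pf_mono (K := K R) hw0 h
          nlinarith
        · have := pf_mono (K := K R) hw0 h
          nlinarith
      have h5 := nsq_nonneg (z (M • (fun u => x u + if u = v then a else 0)) - z (M • x))
      have h6 : 0 ≤ M * a * (f (fun u => x u + if u = v then a else 0) - f x) := by linarith
      have h7 : 0 < M * a := by positivity
      have := nonneg_of_mul_nonneg_right h6 h7
      linarith
  have hsh := hSH V f v (δ / M) (by positivity) hfc hf1 hmono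
  -- pointwise lower bound
  have hpt : ∀ x, δ * (1 - |f x| - 16 * (∑ R, b R v ^ 2 * hf (K R) w0 (eta b (z (M • x)) R)) - δ)
      ≤ f (fun u => x u + if u = v then δ / M else 0) - f x := by
    intro x
    have h1 := hz (M • (fun u => x u + if u = v then δ / M else 0))
    rw [hsm] at h1
    have h2 : M * (δ / M) = δ := by field_simp
    rw [h2] at h1
    have h3 := hSHIFT V W b K w0 hK hw0 hw1 hrow δ hδ hδw v (M • x) (z (M • x)) _ (hz _) h1
    have h4 : f (fun u => x u + if u = v then δ / M else 0)
        = z (fun u => (M • x) u + if u = v then δ else 0) v := by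
      simp only [hfdef]
      rw [hsm, h2]
    rw [h4]
    exact h3
  have hI1 : Integrable (fun x => 1 - |f x|) (gam V) :=
    bdd_integrable (by fun_prop) (B := 1) fun x => by
      have := hf1 x
      have h0 := abs_nonneg (f x)
      rw [abs_le]; constructor <;> linarith
  have hI2 : Integrable (fun x => ∑ R, b R v ^ 2 * hf (K R) w0 (eta b (z (M • x)) R)) (gam V) :=
    integrable_finsetSum _ fun R _ => (hint R).const_mul _
  have hI3 : Integrable (fun x => f (fun u => x u + if u = v then δ / M else 0) - f x)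
      (gam V) := by
    refine bdd_integrable (B := 2) ?_ ?_
    · refine Continuous.sub (hfc.comp ?_) hfc
      refine continuous_pi fun u => ?_
      exact (continuous_apply u).add continuous_const
    · intro x
      have h1 := abs_le.1 (hf1 (fun u => x u + if u = v then δ / M else 0))
      have h2 := abs_le.1 (hf1 x)
      rw [abs_le]; constructor <;> linarith [h1.1, h1.2, h2.1, h2.2]
  have hI4 : Integrable (fun x => δ * (1 - |f x|
      - 16 * (∑ R, b R v ^ 2 * hf (K R) w0 (eta b (z (M • x)) R)) - δ)) (gam V) :=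
    ((hI1.sub (hI2.const_mul 16)).sub (integrable_const δ)).const_mul δ
  have hle := integral_mono hI4 hI3 hpt
  have heq : ∫ x, δ * (1 - |f x|
      - 16 * (∑ R, b R v ^ 2 * hf (K R) w0 (eta b (z (M • x)) R)) - δ) ∂(gam V)
      = δ * ((∫ x, (1 - |f x|) ∂(gam V))
        - 16 * (∑ R, b R v ^ 2 * ∫ x, hf (K R) w0 (eta b (z (M • x)) R) ∂(gam V)) - δ) := by
    rw [integral_const_mul]
    congr 1
    have hI2' : Integrable (fun x => 16 * ∑ R, b R v ^ 2 * hf (K R) w0 (eta b (z (M • x)) R))
        (gam V) := hI2.const_mul 16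
    have hI5 : Integrable (fun x => 1 - |f x|
        - 16 * ∑ R, b R v ^ 2 * hf (K R) w0 (eta b (z (M • x)) R)) (gam V) := hI1.sub hI2'
    rw [integral_sub hI5 (integrable_const δ), integral_sub hI1 hI2', integral_const_mul,
      integral_finsetSum _ fun R _ => (hint R).const_mul _]
    simp only [integral_const_mul, integral_const, probReal_univ, smul_eq_mul, one_mul]
  rw [heq] at hle
  have hfin := hle.trans hsh
  have h8 : (∫ x, (1 - |f x|) ∂(gam V))
        - 16 * (∑ R, b R v ^ 2 * ∫ x, hf (K R) w0 (eta b (z (M • x)) R) ∂(gam V)) - δ ≤ 1 / M := by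
    have : δ / M = δ * (1 / M) := by ring
    rw [this] at hfin
    exact le_of_mul_le_mul_left hfin hδ
  simp only [hfdef] at h8
  linarith

end Pool.Agent.J4.H8.BF
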