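import Pool.Agent.J4.H8.BF.Defs
import Pool.Agent.R959.LD2.CORE

set_option autoImplicit false
set_option linter.unusedSectionVars false
set_option linter.unusedVariables false
set_option maxHeartbeats 4000000

/-!
# One phase, with explicit parameters (adapted from `Pool.Agent.R959.LD3.PHASE3`)
-/

open MeasureTheory ProbabilityTheory

namespace Pool.Agent.J4.H8.BF

open Pool.Agent.H320R2.LD Pool.Agent.H320R2.LD.PHASE Pool.Agent.R959.LD2

noncomputable section

open Classical in
/-- The assembly with explicit parameters. -/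
theorem core_phase (hSOL : Sr_SOL) (hLOC : Sr_LOC)
    (hDEP : St_DEP) (hLLL : St_LLL) (hFAR : Sr_FAR) (hMEAN : Sr_MEAN) (hGEX : St_GEX)
    (hCONC : St_CONC)
    {V W : Type} [Fintype V] [Fintype W] (A : W → V → ℝ) (a : V → ℝ) (ν κ t s : ℝ)
    (μ S K : W → ℝ)
    (hA : Admr ν κ t A) (ha : ∀ v, |a v| ≤ 1) (hPhi : ∀ R, Phi A a R ≤ μ R)
    (hμ : ∀ R, s ≤ μ R) (hS : ∀ R, s ≤ S R) (hrow : ∀ R, Phi A a R ≤ S R ∨ K R ≤ 1)
    (ht : 1000 ≤ t) (hs : 0 < s) (M w0 α q qb ε c Ch : ℝ) (D m : ℕ)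
    (hM : M = 400) (hK : ∀ R, 1 ≤ K R) (hw0 : 0 < w0) (hw1 : w0 ≤ 1) (hw2 : w0 ≤ 1/1000)
    (hc : c = 1 / 10 ^ 12)
    (hq : 2 * (1 + 2 * M) ≤ q) (hqw : w0 ≤ q⁻¹) (hα : 0 < α) (hα1 : α ≤ 1) (hm : 1 ≤ m)
    (hD : (D : ℕ) = ⌊Real.exp (t ^ κ)⌋₊)
    (hCT : 8 * α ^ 2 * q ^ 4 * (t ^ ν / s) ≤ 1)
    (hqb : 0 < qb) (hqb1 : qb ≤ 1) (hε : 0 < ε)
    (hpath : (2 * (D : ℝ) ^ 2) ^ (4 * m) * Real.exp (-(m : ℝ) * q ^ 2 / (4 * M ^ 2)) ≤ qb ^ 2)
    (e0 : ℝ) (he0 : e0 = 1 / (1000 * Real.exp (t ^ κ))) (hεq : ε + 2 * qb ≤ e0)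
    (hCh : 0 < Ch) (hEH : ∀ (z : (V → ℝ) → (V → ℝ)),
      (∀ y, VIr (fun R => bb A a (S R) R) (pK K w0) y (z y)) → ∀ R,
      Integrable (fun g => hf (K R) w0 (eta (fun R => bb A a (S R) R) (z (M • g)) R)) (gam V) ∧
      ∫ g, hf (K R) w0 (eta (fun R => bb A a (S R) R) (z (M • g)) R) ∂(gam V)
        ≤ Ch * ((K R)⁻¹) ^ 4)
    (hKs : ∀ R, 16 * ((1 / S R) * (Ch * ((K R)⁻¹) ^ 4)) ≤ 1 / 1000)
    (hfin : 4 * (Real.exp (-(c * (s * t))) + 2 * Real.exp (-((w0⁻¹) ^ 4 / M ^ 2))
      + D * (2 * qb + 2 * Real.exp (-(ε ^ 2 * Real.exp (4 * α * m) / (16 * M ^ 2)))))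
      * (((D ^ 2 + 1) ^ (2 * (4 * m) + 1) : ℕ) : ℝ) ≤ 1)
    (z : (V → ℝ) → (V → ℝ)) (hz : ∀ y, VIr (fun R => bb A a (S R) R) (pK K w0) y (z y)) :
    ∃ a' : V → ℝ, (∀ v, |a' v| ≤ 1) ∧ (∀ R, Phi A a' R ≤ 77/100 * μ R) ∧
      ∀ R, |∑ v, A R v * (a' v - a v)| ≤ (K R + 3) * Real.sqrt (S R) := by
  have hM0 : 0 < M := by rw [hM]; norm_num
  have ht0 : 0 < t := by linarith
  obtain ⟨hA1, hA3, hAop, hA4, hA5⟩ := hA
  have hS0 : ∀ R, 0 < S R := fun R => lt_of_lt_of_le hs (hS R)
  have hμ0 : ∀ R, 0 < μ R := fun R => lt_of_lt_of_le hs (hμ R)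
  set b : W → V → ℝ := fun R => bb A a (S R) R with hb
  have hbrow : ∀ R, ∑ v, b R v ^ 2 ≤ 1 ∨ K R ≤ 1 := by
    intro R
    rcases hrow R with h | h
    · exact Or.inl (bb_row ha (hS0 R) R h)
    · exact Or.inr h
  have hbA : ∀ R v, b R v ^ 2 ≤ A R v ^ 2 * (1 / S R) := by
    intro R v
    have h1 := rho_nonneg ha v
    have h2 := rho_le_one (a := a) v
    have h3 : b R v ^ 2 = (A R v ^ 2 * (1 / S R)) * rho a v ^ 2 := by
      simp only [hb]
      unfold bb
      rw [div_pow, Real.sq_sqrt (hS0 R).le, mul_pow]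
      ring
    rw [h3]
    have h4 : 0 ≤ A R v ^ 2 * (1 / S R) :=
      mul_nonneg (sq_nonneg _) (one_div_nonneg.2 (hS0 R).le)
    exact mul_le_of_le_one_right h4 (by nlinarith)
  obtain ⟨hodd, hlip, hlipv, hlipR, -, -⟩ := hSOL V W b K w0 z hK hw0 hw1 hz
  have hzb : ∀ y v, |z y v| ≤ 1 := fun y v => (hz y).1 v
  -- supports
  obtain ⟨I, hI⟩ : ∃ I : W → V → Prop, ∀ R v, I R v ↔ A R v ≠ 0 := ⟨_, fun _ _ => Iff.rfl⟩
  have hbI : ∀ R v, b R v ≠ 0 → I R v := fun R v h => (hI R v).2 (bb_supp (s := S R) R v h)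
  have hAI : ∀ R v, ¬ I R v → A R v = 0 := fun R v h => by
    by_contra h0
    exact h ((hI R v).2 h0)
  have hcardR : ∀ R, (Finset.univ.filter (fun v => I R v)).card ≤ D := by
    intro R
    rw [hD]
    refine Nat.le_floor ?_
    have : (Finset.univ.filter (fun v => I R v)) = supp (A R) := by
      ext v
      rw [Finset.mem_filter, mem_supp, hI]
      simp
    rw [this]
    exact hA4 R
  have hcardV : ∀ v, (Finset.univ.filter (fun R => I R v)).card ≤ D := by
    intro v
    rw [hD]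
    refine Nat.le_floor ?_
    have : (Finset.univ.filter (fun R => I R v)) = supp (fun R => A R v) := by
      ext R
      rw [Finset.mem_filter, mem_supp, hI]
      simp
    rw [this]
    exact hA5 v
  have hncR : ∀ R, {v | I R v}.ncard ≤ D := by
    intro R
    rw [Set.ncard_eq_toFinset_card']
    convert hcardR R using 2
    ext v; simp
  have hncV : ∀ v, {R | I R v}.ncard ≤ D := by
    intro v
    rw [Set.ncard_eq_toFinset_card']
    convert hcardV v using 2
    ext R; simp
  have hexp1 : 1 ≤ Real.exp (t ^ κ) := Real.one_le_exp (Real.rpow_nonneg ht0.le _)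
  have hDe : (D : ℝ) ≤ Real.exp (t ^ κ) := by
    rw [hD]; exact Nat.floor_le (Real.exp_pos _).le
  have he0p : 0 < e0 := by rw [he0]; positivity
  have he01 : e0 ≤ 1 / 1000 := by
    rw [he0]
    refine one_div_le_one_div_of_le (by norm_num) ?_
    linarith
  have hss : 0 < Real.sqrt s := Real.sqrt_pos.2 hs
  have hOPb : ∀ x : V → ℝ, ∑ R, (∑ v, |b R v| * |x v|) ^ 2 ≤ (t ^ ν / s) * nsq x := by
    intro x
    have h1 : ∀ R, (∑ v, |b R v| * |x v|) ^ 2 ≤ (∑ v, |A R v| * |x v|) ^ 2 / s := by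
      intro R
      have h2 : ∑ v, |b R v| * |x v| ≤ (∑ v, |A R v| * |x v|) / Real.sqrt (S R) := by
        rw [Finset.sum_div]
        refine Finset.sum_le_sum fun v _ => ?_
        have h3 := bb_l1 A a (S R) (hS0 R) ha R v
        calc |b R v| * |x v| ≤ (|A R v| / Real.sqrt (S R)) * |x v| :=
              mul_le_mul_of_nonneg_right h3 (abs_nonneg _)
          _ = |A R v| * |x v| / Real.sqrt (S R) := by ring
      have h4 : 0 ≤ ∑ v, |b R v| * |x v| :=
        Finset.sum_nonneg fun v _ => mul_nonneg (abs_nonneg _) (abs_nonneg _)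
      calc (∑ v, |b R v| * |x v|) ^ 2 ≤ ((∑ v, |A R v| * |x v|) / Real.sqrt (S R)) ^ 2 :=
            pow_le_pow_left₀ h4 h2 2
        _ = (∑ v, |A R v| * |x v|) ^ 2 / S R := by rw [div_pow, Real.sq_sqrt (hS0 R).le]
        _ ≤ (∑ v, |A R v| * |x v|) ^ 2 / s :=
            div_le_div_of_nonneg_left (sq_nonneg _) hs (hS R)
    calc ∑ R, (∑ v, |b R v| * |x v|) ^ 2 ≤ ∑ R, (∑ v, |A R v| * |x v|) ^ 2 / s :=
          Finset.sum_le_sum fun R _ => h1 R
      _ = (∑ R, (∑ v, |A R v| * |x v|) ^ 2) / s := by rw [Finset.sum_div]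
      _ ≤ (t ^ ν * nsq x) / s := div_le_div_of_nonneg_right (hAop x) hs.le
      _ = (t ^ ν / s) * nsq x := by ring
  -- locality
  set X : V → (V → ℝ) → ℝ := fun v => XX z M (ball I (4 * m) v) v with hX
  set δ1 : ℝ := 2 * qb + 2 * Real.exp (-(ε ^ 2 * Real.exp (4 * α * m) / (16 * M ^ 2))) with hδ1
  have hloc : ∀ v, (gam V).real {g | ε + 2 * qb < |X v g - z (M • g) v|} ≤ δ1 := by
    intro v
    exact hLOC V W b K w0 M α q qb ε (t ^ ν / s) D m z I hK hw0 hw1 hz hbI
      hncR hncV hM0 hα hα1 hq hqw (by positivity) hOPb hCT hqb hqb1 hε hm hpath v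
  -- expected free mass
  have hfree : ∀ v, ∫ g, (1 - |z (M • g) v|) ∂(gam V) ≤ 6 / 1000 := by
    intro v
    have h1 := hMEAN V W b K w0 M (w0 / 4) z hK hw0 hw1 hbrow hz hM0 (by positivity) le_rfl
      (fun R => (hEH z hz R).1) v
    have h2 : 16 * ∑ R, b R v ^ 2 * ∫ g, hf (K R) w0 (eta b (z (M • g)) R) ∂(gam V) ≤
        1 / 1000 := by
      calc 16 * ∑ R, b R v ^ 2 * ∫ g, hf (K R) w0 (eta b (z (M • g)) R) ∂(gam V)
          ≤ 16 * ∑ R, (A R v ^ 2 * (1 / S R)) * (Ch * ((K R)⁻¹) ^ 4) := by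
            refine mul_le_mul_of_nonneg_left (Finset.sum_le_sum fun R _ => ?_) (by norm_num)
            refine (mul_le_mul_of_nonneg_left (hEH z hz R).2 (sq_nonneg _)).trans ?_
            exact mul_le_mul_of_nonneg_right (hbA R v) (by positivity)
        _ = ∑ R, A R v ^ 2 * (16 * ((1 / S R) * (Ch * ((K R)⁻¹) ^ 4))) := by
            rw [Finset.mul_sum]
            exact Finset.sum_congr rfl fun R _ => by ring
        _ ≤ ∑ R, A R v ^ 2 * (1 / 1000) :=
            Finset.sum_le_sum fun R _ => mul_le_mul_of_nonneg_left (hKs R) (sq_nonneg _)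
        _ = (∑ R, A R v ^ 2) * (1 / 1000) := by rw [Finset.sum_mul]
        _ ≤ 1 / 1000 := by nlinarith [hA3 v]
    have h3 : (1 : ℝ) / M = 1 / 400 := by rw [hM]
    rw [h3] at h1
    linarith
  have hzc : ∀ v, Continuous (fun g => z (M • g) v) := fun v =>
    lip_continuous (zM_lip hM0 hlipv v)
  have hG : ∀ v, ∫ g, Gp (sg a v * z (M • g) v) ∂(gam V) ≤ 3 / 4 := by
    intro v
    refine hGEX V (fun g => z (M • g) v) (hzc v) (fun g => hzb _ _) ?_ (hfree v) (sg a v)
      (sg_cases a v)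
    intro g
    have h1 : M • (-g) = -(M • g) := smul_neg _ _
    show z (M • (-g)) v = - z (M • g) v
    rw [h1, hodd]; rfl
  -- progress
  set F : W → (V → ℝ) → ℝ := fun R g => FF A a R (z (M • g)) with hF
  have hEF : ∀ R, ∫ g, F R g ∂(gam V) ≤ 3 / 4 * μ R := by
    intro R
    have h1 : ∫ g, F R g ∂(gam V) = ∑ v, A R v ^ 2 * Real.sqrt (rho a v) *
        ∫ g, Gp (sg a v * z (M • g) v) ∂(gam V) := by
      rw [hF]
      unfold FF
      rw [integral_finsetSum]
      · refine Finset.sum_congr rfl fun v _ => ?_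
        rw [integral_const_mul]
      · intro v _
        refine Integrable.const_mul ?_ _
        refine Integrable.of_bound (C := 2) ?_ ?_
        · exact (Gp_continuous.comp (continuous_const.mul (hzc v))).aestronglyMeasurable
        · refine Filter.Eventually.of_forall fun g => ?_
          rw [Real.norm_eq_abs]
          refine Gp_bdd _ ?_
          rw [abs_mul, sg_abs, one_mul]; exact hzb _ _
    rw [h1]
    have h2 : ∑ v, A R v ^ 2 * Real.sqrt (rho a v) *
        ∫ g, Gp (sg a v * z (M • g) v) ∂(gam V) ≤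
        ∑ v, A R v ^ 2 * Real.sqrt (rho a v) * (3 / 4) :=
      Finset.sum_le_sum fun v _ => mul_le_mul_of_nonneg_left (hG v) (by positivity)
    refine h2.trans ?_
    rw [← Finset.sum_mul]
    have h3 : ∑ v, A R v ^ 2 * Real.sqrt (rho a v) ≤ μ R := hPhi R
    linarith
  have hFlip : ∀ R, Lip (10 * Real.sqrt (μ R / t) * M) (F R) := by
    intro R x y
    refine (FF_lip t ht0 ha (hμ0 R) hA1 R (hPhi R) (z (M • x)) (z (M • y))).trans ?_
    rw [mul_assoc (10 * Real.sqrt (μ R / t))]
    refine mul_le_mul_of_nonneg_left ?_ (by positivity)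
    refine (hlip (M • y) (M • x)).trans ?_
    rw [← smul_sub, nrm_smul, abs_of_pos hM0]
  have hFP : ∀ R, (gam V).real {g | (∫ y, F R y ∂(gam V)) + μ R / 100 ≤ F R g}
      ≤ Real.exp (-(c * (s * t))) := by
    intro R
    have hr := hμ0 R
    have hL : 0 < 10 * Real.sqrt (μ R / t) * M := by positivity
    refine (hCONC V (F R) _ hL (hFlip R) (μ R / 100) (by positivity)).trans ?_
    rw [Real.exp_le_exp]
    have h1 : (10 * Real.sqrt (μ R / t) * M) ^ 2 = 100 * (μ R / t) * 160000 := by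
      rw [mul_pow, mul_pow, Real.sq_sqrt (by positivity), hM]; norm_num
    rw [h1, hc, neg_div, neg_le_neg_iff, le_div_iff₀ (by positivity)]
    have h2 : (1 / 10 ^ 12 * (s * t)) * (4 * (100 * (μ R / t) * 160000)) =
        64 / 10 ^ 6 * (s * μ R) := by
      field_simp
      ring
    rw [h2]
    nlinarith [hμ R, mul_le_mul_of_nonneg_right (hμ R) hr.le]
  -- the events
  have hfar := fun R => hFAR V W b K w0 M z hK hw0 hw1 hz hM0 R
  set E : W → Set (V → ℝ) := fun R => {g | 77/100 * μ R < FF A a R (fun v => X v g) ∨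
    K R + 3 < |eta b (fun v => X v g) R|} with hE
  have hXc : ∀ v, Continuous (X v) := fun v => lip_continuous (XX_lip hM0 hlipv hzb _ v)
  have hXb : ∀ v g, |X v g| ≤ 1 := fun v g => XX_abs hzb _ v g
  have hEm : ∀ R, MeasurableSet (E R) := by
    intro R
    have hER : E R = {g | 77/100 * μ R < FF A a R (fun v => X v g)} ∪
      {g | K R + 3 < |eta b (fun v => X v g) R|} := rfl
    rw [hER]
    refine MeasurableSet.union ?_ ?_
    · refine measurableSet_lt measurable_const (Continuous.measurable ?_)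
      unfold FF
      refine continuous_finsetSum _ fun v _ => ?_
      exact continuous_const.mul (Gp_continuous.comp (continuous_const.mul (hXc v)))
    · refine measurableSet_lt measurable_const (Continuous.measurable ?_)
      refine Continuous.abs ?_
      unfold eta
      exact continuous_finsetSum _ fun v _ => continuous_const.mul (hXc v)
  have hball : ∀ R v, I R v → ball I (4 * m) v ⊆ rball I (4 * m) R := by
    intro R v hv u hu
    unfold rball
    rw [Finset.mem_filter]
    exact ⟨Finset.mem_univ _, v, hv, hu⟩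
  have hXdep : ∀ R v, I R v → ∀ x y : V → ℝ, (∀ u ∈ rball I (4 * m) R, x u = y u) →
      X v x = X v y := by
    intro R v hv x y hxy
    exact XX_dep _ v x y fun u hu => hxy u (hball R v hv hu)
  have hEdep : ∀ R, ∀ x y : V → ℝ, (∀ u ∈ rball I (4 * m) R, x u = y u) →
      (x ∈ E R → y ∈ E R) := by
    intro R x y hxy hx
    have h1 : FF A a R (fun v => X v x) = FF A a R (fun v => X v y) := by
      unfold FF
      refine Finset.sum_congr rfl fun v _ => ?_
      by_cases hv : I R v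
      · show A R v ^ 2 * Real.sqrt (rho a v) * Gp (sg a v * X v x)
          = A R v ^ 2 * Real.sqrt (rho a v) * Gp (sg a v * X v y)
        rw [hXdep R v hv x y hxy]
      · have : A R v = 0 := hAI R v hv
        rw [this]; simp
    have h2 : eta b (fun v => X v x) R = eta b (fun v => X v y) R := by
      unfold eta
      refine Finset.sum_congr rfl fun v _ => ?_
      by_cases hv : I R v
      · show b R v * X v x = b R v * X v y
        rw [hXdep R v hv x y hxy]
      · have : b R v = 0 := by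
          by_contra h0
          exact hv (hbI R v h0)
        rw [this]; simp
    show 77/100 * μ R < FF A a R (fun v => X v y) ∨ K R + 3 < |eta b (fun v => X v y) R|
    rw [← h1, ← h2]
    exact hx
  have hst : 1 ≤ s * t := by
    by_contra hcon
    push Not at hcon
    have h1 : 4 * Real.exp (-(c * (s * t))) ≤ 1 := by
      refine le_trans ?_ hfin
      have h2 : (1 : ℝ) ≤ (((D ^ 2 + 1) ^ (2 * (4 * m) + 1) : ℕ) : ℝ) := by
        exact_mod_cast Nat.one_le_pow _ _ (by positivity)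
      have h3 : Real.exp (-(c * (s * t))) ≤ Real.exp (-(c * (s * t)))
          + 2 * Real.exp (-((w0⁻¹) ^ 4 / M ^ 2))
          + D * (2 * qb + 2 * Real.exp (-(ε ^ 2 * Real.exp (4 * α * m) / (16 * M ^ 2)))) := by
        have : 0 ≤ 2 * Real.exp (-((w0⁻¹) ^ 4 / M ^ 2)) := by positivity
        have : 0 ≤ D * (2 * qb + 2 * Real.exp (-(ε ^ 2 * Real.exp (4 * α * m) / (16 * M ^ 2)))) := by
          positivity
        linarith
      have h4 : 0 ≤ Real.exp (-(c * (s * t))) := (Real.exp_pos _).le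
      have h5 := h4.trans h3
      calc 4 * Real.exp (-(c * (s * t))) ≤ 4 * (Real.exp (-(c * (s * t)))
          + 2 * Real.exp (-((w0⁻¹) ^ 4 / M ^ 2))
          + D * (2 * qb + 2 * Real.exp (-(ε ^ 2 * Real.exp (4 * α * m) / (16 * M ^ 2))))) * 1 := by
            linarith
        _ ≤ _ := mul_le_mul_of_nonneg_left h2 (by linarith)
    have h6 := Real.add_one_le_exp (-(c * (s * t)))
    have h7 : c * (s * t) ≤ 1 / 10 ^ 12 := by
      rw [hc]
      nlinarith
    norm_num at h7
    linarith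
  have hEp : ∀ R, (gam V).real (E R) ≤ Real.exp (-(c * (s * t)))
      + 2 * Real.exp (-((w0⁻¹) ^ 4 / M ^ 2)) + D * δ1 := by
    intro R
    set Sv := Finset.univ.filter (fun v => I R v) with hSv
    have hsub : E R ⊆ ({g | (∫ y, F R y ∂(gam V)) + μ R / 100 ≤ F R g} ∪
        {g | K R + 2 ≤ |eta b (z (M • g)) R|}) ∪
        ⋃ v ∈ Sv, {g | ε + 2 * qb < |X v g - z (M • g) v|} := by
      intro g hg
      by_contra hng
      rw [Set.mem_union, Set.mem_union, not_or, not_or] at hng
      obtain ⟨⟨h1, h2⟩, h3⟩ := hng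
      have h1' : F R g < (∫ y, F R y ∂(gam V)) + μ R / 100 := not_le.1 h1
      have h2' : |eta b (z (M • g)) R| < K R + 2 := not_le.1 h2
      have h3' : ∀ v, I R v → |X v g - z (M • g) v| ≤ e0 := by
        intro v hv
        by_contra h4
        apply h3
        rw [Set.mem_iUnion₂]
        refine ⟨v, by rw [hSv, Finset.mem_filter]; exact ⟨Finset.mem_univ _, hv⟩, ?_⟩
        show ε + 2 * qb < |X v g - z (M • g) v|
        exact lt_of_le_of_lt hεq (not_le.1 h4)
      -- first alternative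
      have h5 : FF A a R (fun v => X v g) ≤ F R g + μ R / 100 := by
        have h6 : FF A a R (fun v => X v g) - F R g ≤
            ∑ v, A R v ^ 2 * Real.sqrt (rho a v) * (1 / 100) := by
          rw [hF]
          unfold FF
          rw [← Finset.sum_sub_distrib]
          refine Finset.sum_le_sum fun v _ => ?_
          rw [← mul_sub]
          by_cases hv : I R v
          · refine mul_le_mul_of_nonneg_left ?_ (by positivity)
            have h7 := (le_abs_self _).trans
              (Gp_lip (sg a v * X v g) (sg a v * z (M • g) v))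
            rw [← mul_sub, abs_mul, sg_abs, one_mul] at h7
            refine h7.trans ?_
            have h8 := h3' v hv
            have h9 : e0 ≤ 1 / 1000 := he01
            linarith
          · have : A R v = 0 := hAI R v hv
            rw [this]; simp
        rw [← Finset.sum_mul] at h6
        have h10 : ∑ v, A R v ^ 2 * Real.sqrt (rho a v) ≤ μ R := hPhi R
        linarith
      have h11 : |eta b (fun v => X v g) R| ≤ |eta b (z (M • g)) R| + 1 := by
        have h12 : |eta b (fun v => X v g) R - eta b (z (M • g)) R| ≤ 1 := by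
          unfold eta
          rw [← Finset.sum_sub_distrib]
          have h13 : |∑ v, (b R v * X v g - b R v * z (M • g) v)| ≤
              ∑ v, (if I R v then e0 else 0) := by
            refine (Finset.abs_sum_le_sum_abs _ _).trans (Finset.sum_le_sum fun v _ => ?_)
            split_ifs with hv
            · rw [← mul_sub, abs_mul]
              have hb1 : |b R v| ≤ 1 := by
                have h20 : b R v ^ 2 ≤ 1 := by
                  refine (hbA R v).trans ?_
                  rw [mul_one_div, div_le_one (hS0 R)]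
                  refine le_trans ?_ (hS R)
                  have h21 := hA1 R v
                  have h22 := sq_nonneg (A R v)
                  have h23 : A R v ^ 2 * t ≤ s * t := h21.trans hst
                  exact le_of_mul_le_mul_right h23 ht0
                exact (sq_le_one_iff_abs_le_one _).1 h20
              calc |b R v| * |X v g - z (M • g) v| ≤ 1 * e0 :=
                    mul_le_mul hb1 (h3' v hv) (abs_nonneg _) (by norm_num)
                _ = e0 := one_mul _
            · have : b R v = 0 := by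
                by_contra h0
                exact hv (hbI R v h0)
              rw [this]; simp
          refine h13.trans ?_
          have h14 : ∑ v, (if I R v then e0 else 0) = (Sv.card : ℝ) * e0 := by
            rw [hSv, Finset.sum_ite, Finset.sum_const_zero, add_zero, Finset.sum_const,
              nsmul_eq_mul]
          rw [h14]
          have h15 : (Sv.card : ℝ) ≤ Real.exp (t ^ κ) := by
            refine le_trans ?_ hDe
            exact_mod_cast hcardR R
          calc (Sv.card : ℝ) * e0 ≤ Real.exp (t ^ κ) * e0 :=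
                mul_le_mul_of_nonneg_right h15 he0p.le
            _ = 1 / 1000 := by
                rw [he0]
                field_simp
            _ ≤ 1 := by norm_num
        have h18 := abs_sub_abs_le_abs_sub (eta b (fun v => X v g) R) (eta b (z (M • g)) R)
        linarith
      rcases hg with hg | hg
      · have := hEF R
        have hg' : 77/100 * μ R < FF A a R (fun v => X v g) := hg
        linarith
      · have hg' : K R + 3 < |eta b (fun v => X v g) R| := hg
        linarith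
    calc (gam V).real (E R) ≤ (gam V).real (({g | (∫ y, F R y ∂(gam V)) + μ R / 100 ≤ F R g} ∪
        {g | K R + 2 ≤ |eta b (z (M • g)) R|}) ∪
        ⋃ v ∈ Sv, {g | ε + 2 * qb < |X v g - z (M • g) v|}) := measureReal_mono hsub
      _ ≤ (gam V).real ({g | (∫ y, F R y ∂(gam V)) + μ R / 100 ≤ F R g} ∪
        {g | K R + 2 ≤ |eta b (z (M • g)) R|}) +
        (gam V).real (⋃ v ∈ Sv, {g | ε + 2 * qb < |X v g - z (M • g) v|}) :=
          measureReal_union_le _ _
      _ ≤ (Real.exp (-(c * (s * t))) + 2 * Real.exp (-((w0⁻¹) ^ 4 / M ^ 2))) + D * δ1 := by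
          refine add_le_add ?_ ?_
          · refine (measureReal_union_le _ _).trans ?_
            exact add_le_add (hFP R) (hfar R)
          · refine (measureReal_biUnion_finset_le _ _).trans ?_
            calc ∑ v ∈ Sv, (gam V).real {g | ε + 2 * qb < |X v g - z (M • g) v|}
                ≤ ∑ v ∈ Sv, δ1 := Finset.sum_le_sum fun v _ => hloc v
              _ = Sv.card * δ1 := by rw [Finset.sum_const, nsmul_eq_mul]
              _ ≤ D * δ1 := by
                  refine mul_le_mul_of_nonneg_right ?_ (by positivity)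
                  exact_mod_cast hcardR R
  -- local lemma
  have hδ0 : 0 ≤ δ1 := by positivity
  obtain ⟨g, hg⟩ := hLLL V W (fun _ => gaussianReal 0 1) E (fun R => rball I (4 * m) R) hEm
    hEdep (Real.exp (-(c * (s * t))) + 2 * Real.exp (-((w0⁻¹) ^ 4 / M ^ 2)) + D * δ1)
    ((D ^ 2 + 1) ^ (2 * (4 * m) + 1)) (by positivity) (Nat.one_le_pow _ _ (by positivity))
    hEp (fun R => hDEP V W I D hcardR hcardV (4 * m) R) hfin
  -- the new state
  refine ⟨nw a (fun v => X v g), nw_abs ha _ (fun v => hXb v g), fun R => ?_, fun R => ?_⟩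
  · refine (nw_Phi ha _ (fun v => hXb v g) R).trans ?_
    by_contra h1
    exact hg R (Or.inl (not_le.1 h1))
  · have h0 := nw_disc (A := A) (a := a) (hS0 R) (fun v => X v g) R
    have h00 : eta (bb A a (S R)) (fun v => X v g) R = eta b (fun v => X v g) R := rfl
    rw [h0, h00, abs_mul, abs_of_nonneg (Real.sqrt_nonneg (S R)), mul_comm]
    refine mul_le_mul_of_nonneg_right ?_ (Real.sqrt_nonneg (S R))
    by_contra h1
    exact hg R (Or.inr (not_le.1 h1))

end

/-- The phase lemma. -/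
theorem prove_PHASE (ν κ σ : ℝ) (hEX : Sr_EX) (hSOL : Sr_SOL) (hLOC : Sr_LOC)
    (hDEP : St_DEP) (hLLL : St_LLL) (hFAR : Sr_FAR) (hEH : Sr_EH) (hMEAN : Sr_MEAN)
    (hGEX : St_GEX) (hCONC : St_CONC) (hPOT1 : St_POT1) (hσ : 0 ≤ σ)
    (hPARAM : Pool.Agent.R959.LD3.St_PARAM3 ν κ σ) :
    Sr_PHASE ν κ σ := by
  classical
  obtain ⟨Ch, hCh, hEH'⟩ := hEH 400 (by norm_num)
  obtain ⟨t0, ht02, hpar⟩ := hPARAM 400 (1 / 10 ^ 12) (by norm_num) (by norm_num)
  set CK : ℝ := 1 + 16000 * Ch with hCK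
  have hCK1 : 1 ≤ CK := by linarith
  refine ⟨4 * CK, t0, by positivity, ht02, ?_⟩
  intro t ht V W _ _ A μ a hA hμ ha hPhi
  have ht2 : 1 ≤ t := by linarith
  set s : ℝ := t ^ (-σ) with hsdef
  have hs1 : s ≤ 1 := Real.rpow_le_one_of_one_le_of_nonpos ht2 (by linarith)
  obtain ⟨w0, α, q, qb, ε, m, p1, p2, p3, p4, p5, p6, p7, p8, p9, p10, p11, p12, p13, p14, p15⟩ :=
    hpar t ht s le_rfl hs1 ⌊Real.exp (t ^ κ)⌋₊ rfl
  have ht0 : 0 < t := by linarith
  have hs : 0 < s := Real.rpow_pos_of_pos ht0 _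
  have hμ0 : ∀ R, 0 < μ R := fun R => lt_of_lt_of_le hs (hμ R)
  set S : W → ℝ := fun R => if μ R ≤ 1 then μ R else CK with hS
  set K : W → ℝ := fun R => if μ R ≤ 1 then CK * (μ R) ^ (-(1/4) : ℝ) else 1 with hK
  have hK1 : ∀ R, 1 ≤ K R := by
    intro R
    simp only [hK]
    split_ifs with h
    · have hsK : 1 ≤ (μ R) ^ (-(1/4) : ℝ) :=
        Real.one_le_rpow_of_pos_of_le_one_of_nonpos (hμ0 R) h (by norm_num)
      nlinarith
    · exact le_rfl
  have hSs : ∀ R, s ≤ S R := by
    intro R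
    simp only [hS]
    split_ifs with h
    · exact hμ R
    · linarith
  have hrow : ∀ R, Phi A a R ≤ S R ∨ K R ≤ 1 := by
    intro R
    simp only [hS, hK]
    split_ifs with h
    · exact Or.inl (hPhi R)
    · exact Or.inr le_rfl
  have hKs : ∀ R, 16 * ((1 / S R) * (Ch * ((K R)⁻¹) ^ 4)) ≤ 1 / 1000 := by
    intro R
    have hr := hμ0 R
    simp only [hS, hK]
    split_ifs with h
    · have hs4 : ((μ R) ^ (-(1/4) : ℝ)) ^ 4 = 1 / μ R := by
        rw [← Real.rpow_natCast, ← Real.rpow_mul hr.le]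
        norm_num
        rw [Real.rpow_neg_one]
      rw [inv_pow, mul_pow, hs4]
      have h1 : (1 / μ R) * (Ch * (CK ^ 4 * (1 / μ R))⁻¹) = Ch / CK ^ 4 := by
        field_simp
      rw [h1, mul_div_assoc', div_le_div_iff₀ (by positivity) (by norm_num)]
      have h2 : CK ≤ CK ^ 4 := by
        calc CK = CK ^ 1 := (pow_one _).symm
          _ ≤ CK ^ 4 := pow_le_pow_right₀ hCK1 (by norm_num)
      linarith
    · rw [inv_one, one_pow, mul_one, one_div, inv_mul_eq_div, mul_div_assoc',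
        div_le_div_iff₀ (by positivity) (by norm_num)]
      linarith
  have hcont : ∀ R, Continuous (pK K w0 R) := fun R =>
    (hPOT1 (K R) w0 (hK1 R) p3 (by linarith)).1
  choose z hz using fun y => hEX V W (fun R => bb A a (S R) R) (pK K w0) hcont y
  have he : ε + 2 * qb ≤ 1 / (1000 * Real.exp (t ^ κ)) := by
    rw [le_div_iff₀ (by positivity)]
    exact p14
  have hbrow : ∀ R, ∑ v, bb A a (S R) R v ^ 2 ≤ 1 ∨ K R ≤ 1 := by
    intro R
    rcases hrow R with h | h
    · exact Or.inl (bb_row ha (lt_of_lt_of_le hs (hSs R)) R h)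
    · exact Or.inr h
  obtain ⟨a', h1, h2, h3⟩ := core_phase hSOL hLOC hDEP hLLL hFAR hMEAN hGEX hCONC A a ν κ t s
    μ S K hA ha hPhi hμ hSs hrow p1 hs 400 w0 α q qb ε (1 / 10 ^ 12) Ch ⌊Real.exp (t ^ κ)⌋₊ m
    rfl hK1 p3 (by linarith) p4 rfl p5 p6 p7 p8 p2 rfl p9 p10 p11 p12 p13
    (1 / (1000 * Real.exp (t ^ κ))) rfl he hCh
    (fun z hz R => hEH' V W (fun R => bb A a (S R) R) K w0 z hK1 p3 (by linarith) hz R
      (hbrow R)) hKs p15 z hz
  refine ⟨a', h1, fun R => (h2 R).trans ?_, fun R => (h3 R).trans ?_⟩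
  · have := hμ0 R
    nlinarith
  · have hr := hμ0 R
    simp only [hS, hK]
    split_ifs with h
    · rw [min_eq_right h]
      have hs14 : 0 < (μ R) ^ (1/4 : ℝ) := Real.rpow_pos_of_pos hr _
      have e1 : Real.sqrt (μ R) = (μ R) ^ (1/4 : ℝ) * (μ R) ^ (1/4 : ℝ) := by
        rw [← Real.rpow_add hr, Real.sqrt_eq_rpow]; norm_num
      have e2 : (μ R) ^ (-(1/4) : ℝ) * (μ R) ^ (1/4 : ℝ) = 1 := by
        rw [← Real.rpow_add hr]; norm_num
      have e3 : (μ R) ^ (1/4 : ℝ) ≤ 1 := Real.rpow_le_one hr.le h (by norm_num)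
      rw [e1]
      calc (CK * (μ R) ^ (-(1/4) : ℝ) + 3) * ((μ R) ^ (1/4 : ℝ) * (μ R) ^ (1/4 : ℝ))
          = CK * ((μ R) ^ (-(1/4) : ℝ) * (μ R) ^ (1/4 : ℝ)) * (μ R) ^ (1/4 : ℝ)
            + 3 * ((μ R) ^ (1/4 : ℝ)) * (μ R) ^ (1/4 : ℝ) := by ring
        _ = CK * (μ R) ^ (1/4 : ℝ) + 3 * ((μ R) ^ (1/4 : ℝ)) * (μ R) ^ (1/4 : ℝ) := by
            rw [e2]; ring
        _ ≤ 4 * CK * (μ R) ^ (1/4 : ℝ) := by nlinarith
    · rw [min_eq_left (not_le.1 h).le, Real.one_rpow]
      have h4 : Real.sqrt CK ≤ CK := by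
        rw [Real.sqrt_le_left (by linarith)]
        nlinarith
      linarith

end Pool.Agent.J4.H8.BF
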