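import Pool.Agent.J4.H8.BF.Defs
import Pool.Agent.H320R2.LD.POT1

set_option autoImplicit false

namespace Pool.Agent.J4.H8.BF

open Pool.Agent.H320R2.LD Pool.Agent.R959.LD2

namespace SOL

variable {V W : Type} [Fintype V] [Fintype W]

theorem nsq_nonneg (x : V → ℝ) : 0 ≤ nsq x := Finset.sum_nonneg fun _ _ => sq_nonneg _

theorem nrm_sq (x : V → ℝ) : nrm x ^ 2 = nsq x := Real.sq_sqrt (nsq_nonneg x)

theorem nrm_nonneg (x : V → ℝ) : 0 ≤ nrm x := Real.sqrt_nonneg _

theorem nrm_zero : nrm (0 : V → ℝ) = 0 := by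
  unfold nrm nsq; simp

theorem eq_zero_of_nrm {x : V → ℝ} (h : nrm x ≤ 0) : x = 0 := by
  have h1 : nsq x = 0 := by
    have := nrm_sq x
    have h2 : nrm x = 0 := le_antisymm h (nrm_nonneg x)
    rw [h2] at this
    linarith
  funext v
  have h3 := (Finset.sum_eq_zero_iff_of_nonneg (fun v _ => sq_nonneg (x v))).mp h1 v
    (Finset.mem_univ v)
  exact pow_eq_zero_iff (two_ne_zero) |>.mp h3

theorem abs_le_nrm (x : V → ℝ) (v : V) : |x v| ≤ nrm x := by
  unfold nrm
  refine Real.abs_le_sqrt ?_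
  exact Finset.single_le_sum (f := fun v => x v ^ 2) (fun v _ => sq_nonneg _) (Finset.mem_univ v)

/-- triangle inequality for the l2 norm on a finset -/
theorem sqrt_tri (N : Finset W) (f g : W → ℝ) :
    Real.sqrt (∑ R ∈ N, f R ^ 2) ≤ Real.sqrt (∑ R ∈ N, g R ^ 2) +
      Real.sqrt (∑ R ∈ N, (f R - g R) ^ 2) := by
  set a := Real.sqrt (∑ R ∈ N, g R ^ 2) with ha
  set c := Real.sqrt (∑ R ∈ N, (f R - g R) ^ 2) with hc
  have ha0 : 0 ≤ a := Real.sqrt_nonneg _
  have hc0 : 0 ≤ c := Real.sqrt_nonneg _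
  have ha2 : a ^ 2 = ∑ R ∈ N, g R ^ 2 := Real.sq_sqrt (Finset.sum_nonneg fun _ _ => sq_nonneg _)
  have hc2 : c ^ 2 = ∑ R ∈ N, (f R - g R) ^ 2 :=
    Real.sq_sqrt (Finset.sum_nonneg fun _ _ => sq_nonneg _)
  have hcs : ∑ R ∈ N, g R * (f R - g R) ≤ a * c := Real.sum_mul_le_sqrt_mul_sqrt _ _ _
  rw [Real.sqrt_le_left (by positivity)]
  have h1 : ∑ R ∈ N, f R ^ 2 = ∑ R ∈ N, g R ^ 2 + 2 * ∑ R ∈ N, g R * (f R - g R) +
      ∑ R ∈ N, (f R - g R) ^ 2 := by
    rw [Finset.mul_sum, ← Finset.sum_add_distrib, ← Finset.sum_add_distrib]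
    exact Finset.sum_congr rfl fun R _ => by ring
  rw [h1, ← ha2, ← hc2]
  nlinarith

/-- strong convexity of the potential for `K = 1` -/
theorem pf_strong (K w0 : ℝ) (h0 : 0 < w0) (h1 : w0 ≤ 1) (hK1 : 1 ≤ K) (hK : K ≤ 1) (x y : ℝ) :
    (y - x) ^ 2 / 16 ≤ (pf K w0 y - pf K w0 x) * (y - x) := by
  have hhf : ∀ u, 1 / 16 ≤ hf K w0 u := by
    intro u
    unfold hf
    have hw2 : wf K w0 u ≤ 2 := by
      unfold wf
      exact max_le (by linarith [abs_nonneg u]) (by linarith)
    have hw0 : 0 < wf K w0 u := POT1.wf_pos h0 u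
    have h3 : (2 : ℝ)⁻¹ ≤ (wf K w0 u)⁻¹ := inv_anti₀ hw0 hw2
    calc (1 / 16 : ℝ) = (2⁻¹) ^ 4 := by norm_num
      _ ≤ ((wf K w0 u)⁻¹) ^ 4 := pow_le_pow_left₀ (by norm_num) h3 4
  have key : ∀ x y : ℝ, x ≤ y → (y - x) / 16 ≤ pf K w0 y - pf K w0 x := by
    intro x y hxy
    rw [POT1.pf_sub h0 x y]
    have h3 : ∫ u in x..y, (1 / 16 : ℝ) ≤ ∫ u in x..y, hf K w0 u := by
      refine intervalIntegral.integral_mono_on hxy (by simp)
        ((POT1.hf_cont h0).intervalIntegrable _ _) fun u _ => hhf u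
    rw [intervalIntegral.integral_const, smul_eq_mul] at h3
    linarith
  rcases le_total x y with h | h
  · have := key x y h
    have h2 : 0 ≤ y - x := sub_nonneg.2 h
    nlinarith
  · have := key y x h
    have h2 : 0 ≤ x - y := sub_nonneg.2 h
    nlinarith

end SOL

open SOL in
theorem prove_SOL (hP : St_POT1) (hT : Sr_TWO) : Sr_SOL := by
  intro V W _ _ b K w0 z hK hw0 hw1 hz
  have hpm : ∀ R, Monotone (pK K w0 R) := fun R => (hP (K R) w0 (hK R) hw0 hw1).2.2.1
  have hpodd : ∀ R x, pf (K R) w0 (-x) = - pf (K R) w0 x := fun R =>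
    (hP (K R) w0 (hK R) hw0 hw1).2.2.2.2.1
  have hth : ∀ R x y, (th (K R) w0 y - th (K R) w0 x) ^ 2 ≤
      (y - x) * (pf (K R) w0 y - pf (K R) w0 x) := fun R =>
    (hP (K R) w0 (hK R) hw0 hw1).2.2.2.2.2.2.2
  have hlip : ∀ y y', nrm (z y' - z y) ≤ nrm (y' - y) := fun y y' =>
    (hT V W b (pK K w0) hpm y y' (z y) (z y') (hz y) (hz y')).2.2.1
  have hfour : ∀ y y', ∑ R, (pf (K R) w0 (eta b (z y') R) - pf (K R) w0 (eta b (z y) R)) *
      (eta b (z y') R - eta b (z y) R) ≤ nsq (y' - y) / 4 := fun y y' =>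
    (hT V W b (pK K w0) hpm y y' (z y) (z y') (hz y) (hz y')).2.2.2
  have hterm : ∀ R, ∀ a c : ℝ, 0 ≤ (pf (K R) w0 c - pf (K R) w0 a) * (c - a) := by
    intro R a c
    rcases le_total a c with hac | hac
    · exact mul_nonneg (sub_nonneg.mpr (hpm R hac)) (sub_nonneg.mpr hac)
    · exact mul_nonneg_of_nonpos_of_nonpos (sub_nonpos.mpr (hpm R hac)) (sub_nonpos.mpr hac)
  have hthsum : ∀ (N : Finset W) y y', ∑ R ∈ N, (th (K R) w0 (eta b (z y') R) -
      th (K R) w0 (eta b (z y) R)) ^ 2 ≤ nsq (y' - y) / 4 := by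
    intro N y y'
    refine le_trans ?_ (hfour y y')
    refine le_trans (Finset.sum_le_sum (g := fun R => (pf (K R) w0 (eta b (z y') R) -
      pf (K R) w0 (eta b (z y) R)) * (eta b (z y') R - eta b (z y) R)) ?_)
      (Finset.sum_le_sum_of_subset_of_nonneg (Finset.subset_univ N) fun R _ _ => hterm R _ _)
    intro R _
    have := hth R (eta b (z y) R) (eta b (z y') R)
    linarith
  have hfive : ∀ N : Finset W, ∀ y y',
      |Real.sqrt (∑ R ∈ N, th (K R) w0 (eta b (z y') R) ^ 2)
        - Real.sqrt (∑ R ∈ N, th (K R) w0 (eta b (z y) R) ^ 2)| ≤ nrm (y' - y) / 2 := by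
    intro N y y'
    have hs : ∀ y y', Real.sqrt (∑ R ∈ N, (th (K R) w0 (eta b (z y') R) -
        th (K R) w0 (eta b (z y) R)) ^ 2) ≤ nrm (y' - y) / 2 := by
      intro y y'
      rw [Real.sqrt_le_left (by have := nrm_nonneg (y' - y); positivity)]
      have h1 := hthsum N y y'
      have h2 := nrm_sq (y' - y)
      nlinarith
    have hsym : nrm (y - y') = nrm (y' - y) := by
      unfold nrm nsq
      congr 1
      exact Finset.sum_congr rfl fun v _ => by simp only [Pi.sub_apply]; ring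
    rw [abs_le]
    constructor
    · have h1 := sqrt_tri N (fun R => th (K R) w0 (eta b (z y) R)) (fun R => th (K R) w0 (eta b (z y') R))
      have h2 := hs y' y
      rw [hsym] at h2
      linarith
    · have h1 := sqrt_tri N (fun R => th (K R) w0 (eta b (z y') R)) (fun R => th (K R) w0 (eta b (z y) R))
      have h2 := hs y y'
      linarith
  refine ⟨?_, hlip, ?_, ?_, hfive, ?_⟩
  · intro y
    have hVI : VIr b (pK K w0) (-y) (-(z y)) := by
      refine ⟨fun v => ?_, fun v c hc => ?_⟩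
      · simp only [Pi.neg_apply, abs_neg]; exact (hz y).1 v
      · have h1 := (hz y).2 v (-c) (by rwa [abs_neg])
        have h2 : ∀ R, eta b (-(z y)) R = - eta b (z y) R := by
          intro R
          unfold eta
          rw [← Finset.sum_neg_distrib]
          exact Finset.sum_congr rfl fun v _ => by simp
        have h3 : ∑ R, b R v * pK K w0 R (eta b (-(z y)) R) =
            - ∑ R, b R v * pK K w0 R (eta b (z y) R) := by
          rw [← Finset.sum_neg_distrib]
          exact Finset.sum_congr rfl fun R _ => by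
            show b R v * pf (K R) w0 (eta b (-(z y)) R) = -(b R v * pf (K R) w0 (eta b (z y) R))
            rw [h2, hpodd]; ring
        rw [h3]
        simp only [Pi.neg_apply]
        linarith
    have h1 := (hT V W b (pK K w0) hpm (-y) (-y) (-(z y)) (z (-y)) hVI (hz (-y))).2.2.1
    rw [sub_self, nrm_zero] at h1
    have h2 := eq_zero_of_nrm h1
    exact sub_eq_zero.mp h2
  · intro v y y'
    exact (abs_le_nrm (z y' - z y) v).trans (hlip y y')
  · intro R hR y y'
    rcases hR with hR | hR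
    · have h1 : eta b (z y') R - eta b (z y) R = ∑ v, b R v * (z y' - z y) v := by
        unfold eta
        rw [← Finset.sum_sub_distrib]
        exact Finset.sum_congr rfl fun v _ => by simp only [Pi.sub_apply]; ring
      have h0 : nrm (y' - y) ≤ 2 * nrm (y' - y) := by
        have := nrm_nonneg (y' - y)
        linarith
      refine le_trans ?_ ((hlip y y').trans h0)
      rw [h1]
      have h2 := Finset.sum_mul_sq_le_sq_mul_sq Finset.univ (fun v => b R v)
        (fun v => (z y' - z y) v)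
      refine abs_le_of_sq_le_sq ?_ (nrm_nonneg _)
      rw [nrm_sq]
      refine h2.trans ?_
      unfold nsq
      exact mul_le_of_le_one_left (Finset.sum_nonneg fun _ _ => sq_nonneg _) hR
    · have h1 := hfour y y'
      have h2 : (pf (K R) w0 (eta b (z y') R) - pf (K R) w0 (eta b (z y) R)) *
          (eta b (z y') R - eta b (z y) R) ≤ nsq (y' - y) / 4 := by
        refine le_trans ?_ h1
        exact Finset.single_le_sum (f := fun R => (pf (K R) w0 (eta b (z y') R) -
          pf (K R) w0 (eta b (z y) R)) * (eta b (z y') R - eta b (z y) R))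
          (fun R _ => hterm R _ _) (Finset.mem_univ R)
      have h3 := pf_strong (K R) w0 hw0 hw1 (hK R) hR (eta b (z y) R) (eta b (z y') R)
      refine abs_le_of_sq_le_sq ?_ (by have := nrm_nonneg (y' - y); positivity)
      rw [mul_pow, nrm_sq]
      linarith
  · intro R y y'
    have h1 := hthsum {R} y y'
    rw [Finset.sum_singleton] at h1
    refine abs_le_of_sq_le_sq ?_ (by have := nrm_nonneg (y' - y); positivity)
    have h2 := nrm_sq (y' - y)
    nlinarith

end Pool.Agent.J4.H8.BF
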