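import Pool.Agent.H320R2.LD.MGF
import Pool.Agent.H320R2.LD.CONC
import Pool.Agent.H320R2.LD.MOM
import Pool.Agent.H320R2.LD.POT1
import Pool.Agent.H320R2.LD.POT2
import Pool.Agent.H320R2.LD.MIX
import Pool.Agent.H320R2.LD.LLL
import Pool.Agent.H320R2.LD.COND
import Pool.Agent.H320R2.LD.CH
import Pool.Agent.H320R2.LD.DEP
import Pool.Agent.H320R2.LD.PATH
import Pool.Agent.H320R2.LD.SH
import Pool.Agent.H320R2.LD.GEX
import Pool.Agent.R959.LD3.PARAM3
import Pool.Agent.J4.H8.BF.EX
import Pool.Agent.J4.H8.BF.TWO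
import Pool.Agent.J4.H8.BF.SOL
import Pool.Agent.J4.H8.BF.SHIFT
import Pool.Agent.J4.H8.BF.CT
import Pool.Agent.J4.H8.BF.EH
import Pool.Agent.J4.H8.BF.MEAN
import Pool.Agent.J4.H8.BF.FAR
import Pool.Agent.J4.H8.BF.HOTP
import Pool.Agent.J4.H8.BF.LOC
import Pool.Agent.J4.H8.BF.PHASE
import Pool.Agent.J4.H8.BF.ROUND
import Pool.Agent.J4.H8.BF.ITER

set_option autoImplicit false

namespace Pool.Agent.J4.H8.BF

open Pool.Agent.H320R2.LD

/-- The discrepancy of admissible matrices is at most `C (1 + log (1 + row mass))`, for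
`9 κ + ν < 2`. -/
theorem main (ν κ : ℝ) (hν : 0 ≤ ν) (hκ : 0 < κ) (h : 9 * κ + ν < 2) : Sr_MAIN ν κ := by
  have mgf := prove_MGF
  have conc := prove_CONC mgf
  have mom := prove_MOM mgf
  have pot1 := prove_POT1
  have pot2 := prove_POT2
  have two := prove_TWO
  have sol := prove_SOL pot1 two
  have mix := prove_MIX
  have lll := prove_LLL mix
  have cond := prove_COND conc mix
  have shift := prove_SHIFT two pot1 pot2
  have sh := prove_SH mix
  have mean := prove_MEAN shift sh two sol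
  have far := prove_FAR sol conc mom pot2
  have eh := prove_EH sol mom pot2
  have hotp := prove_HOTP sol conc mgf mom pot2
  have ct := prove_CT two pot1
  have loc := prove_LOC hotp prove_PATH prove_CH ct sol cond
  have h1 : κ < (κ + (2 - 6 * κ - ν) / 3) / 2 := by linarith
  have phase := prove_PHASE ν κ ((κ + (2 - 6 * κ - ν) / 3) / 2) prove_EX sol loc prove_DEP lll
    far eh mean prove_GEX conc pot1 (by linarith)
    (Pool.Agent.R959.LD3.prove_PARAM3 ν κ _ hν hκ h1 (by linarith))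
  exact prove_MAIN ν κ _ hκ (prove_ITER ν κ _ hν (by linarith) phase)
    (prove_ROUND lll ν κ _ hκ h1 (by linarith))

end Pool.Agent.J4.H8.BF
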