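import Pool.Agent.J4.H8.BF.Defs
import Pool.Agent.R959.LD3.Cor5

set_option autoImplicit false

/-!
# Matrices with entries of absolute value at most one and sparse columns
-/

open Finset

namespace Pool.Agent.J4.H8.BF

open Pool.Agent.H320R2.LD Pool.Agent.R959.LD2
open Pool.Agent.R959.LD3 (piece piece_card piece_small rk rk_lt_card schur3)

/-- the main theorem with the exponent `γ` for the logarithm -/
def Sr_MAINg (ν κ γ : ℝ) : Prop := ∃ C : ℝ, 0 < C ∧ ∀ (t : ℝ), 1 ≤ t →
  ∀ (V W : Type) [Fintype V] [Fintype W] (A : W → V → ℝ), Admr ν κ t A →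
  ∃ x : V → ℝ, (∀ v, x v = 1 ∨ x v = -1) ∧
    ∀ R, |∑ v, A R v * x v| ≤ C * (1 + Real.log (1 + ∑ v, A R v ^ 2)) ^ γ

/-- the bound for the discrepancy of a row with `s` nonzero entries -/
noncomputable def bd (c κ γ t s : ℝ) : ℝ :=
  (Real.sqrt t + Real.sqrt s * t ^ (-(c / 2))) *
      (1 + Real.log (1 + min (s / t) (t ^ c))) ^ γ + s * Real.exp (-(t ^ κ))

theorem sum_pieceR {n : ℕ} (S : Finset (Fin n)) (k : ℕ) (f : Fin n → ℝ) :
    ∑ i ∈ S, f i = ∑ p ∈ Finset.range (S.card / k + 1), ∑ i ∈ piece S k p, f i := by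
  have := Finset.sum_fiberwise_of_maps_to (s := S) (t := Finset.range (S.card / k + 1))
    (g := fun i => rk S i / k) (by
      intro i hi
      rw [Finset.mem_range]
      have := Nat.div_le_div_right (c := k) (rk_lt_card S i hi).le
      omega) f
  rw [← this]
  rfl

theorem log_scale (a x : ℝ) (ha : 1 ≤ a) (hx : 0 ≤ x) :
    1 + Real.log (1 + a * x) ≤ (1 + Real.log a) * (1 + Real.log (1 + x)) := by
  have h1 : Real.log (1 + a * x) ≤ Real.log (a * (1 + x)) :=
    Real.log_le_log (by positivity) (by nlinarith)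
  rw [Real.log_mul (by linarith) (by linarith)] at h1
  have h2 : 0 ≤ Real.log a := Real.log_nonneg ha
  have h3 : 0 ≤ Real.log (1 + x) := Real.log_nonneg (by linarith)
  nlinarith

theorem cor_real (c κ γ : ℝ) (hc : 0 ≤ c) (hκ : 0 < κ) (hγ0 : 0 ≤ γ) (hγ1 : γ ≤ 1)
    (h : Sr_MAINg (1 + c) κ γ) :
    ∃ C : ℝ, 0 < C ∧ ∀ (n m t : ℕ) (A : Fin m → Fin n → ℝ), 1 ≤ t → (∀ j i, |A j i| ≤ 1) →
      (∀ i, (univ.filter (fun j => A j i ≠ 0)).card ≤ t) →
      ∃ x : Fin n → ℝ, (∀ i, x i = 1 ∨ x i = -1) ∧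
        ∀ j, |∑ i, A j i * x i| ≤
          C * bd c κ γ t ((univ.filter (fun i => A j i ≠ 0)).card : ℝ) := by
  classical
  obtain ⟨C, hC, hmain⟩ := h
  set c2 : ℝ := (3 + 1 / κ) ^ (1 / κ) with hc2
  have hc21 : 1 ≤ c2 := by
    have : 0 < 1 / κ := by positivity
    exact Real.one_le_rpow (by linarith) (by positivity)
  have hc20 : 0 < c2 := by linarith
  have hcc1 : 1 ≤ c2 ^ c := Real.one_le_rpow hc21 hc
  set la : ℝ := (1 + Real.log (c2 ^ c)) ^ γ with hla
  have hlogcc : 0 ≤ Real.log (c2 ^ c) := Real.log_nonneg hcc1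
  have hla1 : 1 ≤ la := Real.one_le_rpow (by linarith) hγ0
  -- constants
  set C1 : ℝ := C * (Real.sqrt c2 * la) with hC1
  set C3 : ℝ := 1 + Real.log 2 + 2 * (1 + c) * Real.sqrt c2 with hC3
  have hlog2 : 0 ≤ Real.log 2 := Real.log_nonneg (by norm_num)
  have hC30 : 0 < C3 := by positivity
  set C2 : ℝ := 2 * C * Real.sqrt (2 * c2) * C3 with hC2
  have hC10 : 0 < C1 := by positivity
  have hC20 : 0 < C2 := by positivity
  refine ⟨C1 + C2, by positivity, fun n m t A ht hA hdeg => ?_⟩
  have htr : (1 : ℝ) ≤ t := by exact_mod_cast ht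
  have ht0 : (0 : ℝ) < t := by linarith
  set T : ℝ := (t : ℝ) ^ κ with hT
  have hT1 : 1 ≤ T := Real.one_le_rpow htr hκ.le
  have hT0 : 0 < T := by linarith
  set k : ℕ := ⌈(t : ℝ) * Real.exp (2 * T)⌉₊ with hk
  have hkge : (t : ℝ) * Real.exp (2 * T) ≤ k := Nat.le_ceil _
  have hexp1 : 1 ≤ Real.exp (2 * T) := Real.one_le_exp (by positivity)
  have hte : 1 ≤ (t : ℝ) * Real.exp (2 * T) := by nlinarith
  have hk2 : (k : ℝ) ≤ 2 * ((t : ℝ) * Real.exp (2 * T)) := by
    have : (k : ℝ) < (t : ℝ) * Real.exp (2 * T) + 1 := Nat.ceil_lt_add_one (by positivity)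
    linarith
  have hk1 : (1 : ℝ) ≤ k := hte.trans hkge
  have hk0 : 0 < k := by exact_mod_cast (lt_of_lt_of_le one_pos hk1)
  have hk0r : (0 : ℝ) < k := by linarith
  have htk : (t : ℝ) ≤ k := by nlinarith
  have hlogk : Real.log k ≤ (3 + 1 / κ) * T := by
    have h1 : Real.log k ≤ Real.log (2 * ((t : ℝ) * Real.exp (2 * T))) :=
      Real.log_le_log hk0r hk2
    rw [Real.log_mul (by norm_num) (by positivity), Real.log_mul (by positivity) (by positivity),
      Real.log_exp] at h1
    have h2 : Real.log 2 ≤ 1 := by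
      have := Real.log_le_sub_one_of_pos (show (0:ℝ) < 2 by norm_num)
      linarith
    have h3 : Real.log t ≤ T / κ := Real.log_le_rpow_div ht0.le hκ
    have h4 : (3 + 1 / κ) * T = 3 * T + T / κ := by ring
    rw [h4]
    linarith
  set τ : ℝ := c2 * t with hτ
  have hτt : (t : ℝ) ≤ τ := by rw [hτ]; nlinarith
  have hτ1 : 1 ≤ τ := htr.trans hτt
  have hτ0 : 0 < τ := by linarith
  have hτκ : τ ^ κ = (3 + 1 / κ) * T := by
    rw [hτ, Real.mul_rpow hc20.le ht0.le, hc2, ← Real.rpow_mul (by positivity),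
      one_div_mul_cancel hκ.ne', Real.rpow_one]
  have hkexp : (k : ℝ) ≤ Real.exp (τ ^ κ) := by
    rw [hτκ]
    calc (k : ℝ) = Real.exp (Real.log k) := (Real.exp_log hk0r).symm
      _ ≤ _ := Real.exp_le_exp.mpr hlogk
  have hτc0 : 0 < τ ^ c := Real.rpow_pos_of_pos hτ0 _
  have hτc1 : 1 ≤ τ ^ c := Real.one_le_rpow hτ1 hc
  -- supports
  set S : Fin m → Finset (Fin n) := fun j => univ.filter (fun i => A j i ≠ 0) with hS
  have hmemS : ∀ j i, i ∈ S j ↔ A j i ≠ 0 := fun j i => by simp [hS]
  set P : Fin m × Fin (n + 1) → Finset (Fin n) := fun w => piece (S w.1) k w.2 with hP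
  have hPS : ∀ w i, i ∈ P w → i ∈ S w.1 := fun w i hi => (Finset.mem_filter.mp hi).1
  have hPk : ∀ w, ((P w).card : ℝ) ≤ k := fun w => by exact_mod_cast piece_card _ _ _ hk0
  have hcol : ∀ i, ((univ.filter (fun w => i ∈ P w)).card : ℝ) ≤ t := by
    intro i
    have hinj : Set.InjOn (fun w : Fin m × Fin (n + 1) => w.1)
        (univ.filter (fun w => i ∈ P w) : Finset (Fin m × Fin (n + 1))) := by
      intro w hw w' hw' heq
      have h1 := (Finset.mem_filter.mp hw).2
      have h2 := (Finset.mem_filter.mp hw').2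
      simp only [hP, piece, Finset.mem_filter] at h1 h2
      simp only at heq
      have h3 : ((w.2 : ℕ)) = w'.2 := by
        rw [← h1.2, ← h2.2, heq]
      exact Prod.ext heq (Fin.ext h3)
    have h1 : (univ.filter (fun w => i ∈ P w)).card ≤ t := by
      refine le_trans ?_ (hdeg i)
      refine Finset.card_le_card_of_injOn _ ?_ hinj
      intro w hw
      have h1 := (Finset.mem_filter.mp hw).2
      exact Finset.mem_filter.mpr ⟨Finset.mem_univ _, (hmemS _ _).1 (hPS w i h1)⟩
    exact_mod_cast h1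
  set Dw : Fin m × Fin (n + 1) → ℝ := fun w => max τ (((P w).card : ℝ) / τ ^ c) with hDw
  have hDτ : ∀ w, τ ≤ Dw w := fun w => le_max_left _ _
  have hDp : ∀ w, ((P w).card : ℝ) / τ ^ c ≤ Dw w := fun w => le_max_right _ _
  have hD0 : ∀ w, 0 < Dw w := fun w => lt_of_lt_of_le hτ0 (hDτ w)
  have hDk : ∀ w, Dw w ≤ 2 * c2 * k := by
    intro w
    refine max_le ?_ ?_
    · rw [hτ]; nlinarith
    · refine (div_le_self (Nat.cast_nonneg _) hτc1).trans ((hPk w).trans ?_)
      nlinarith
  have hsD : ∀ w, 0 < Real.sqrt (Dw w) := fun w => Real.sqrt_pos.2 (hD0 w)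
  -- the scaled matrix
  set A' : Fin m × Fin (n + 1) → Fin n → ℝ := fun w i => if i ∈ P w then A w.1 i else 0 with hA'
  set B : Fin m × Fin (n + 1) → Fin n → ℝ := fun w i => A' w i / Real.sqrt (Dw w) with hB
  have hA'1 : ∀ w i, |A' w i| ≤ if i ∈ P w then 1 else 0 := by
    intro w i
    simp only [hA']
    split_ifs
    · exact hA _ _
    · simp
  have hA'2 : ∀ w i, A' w i ^ 2 ≤ if i ∈ P w then 1 else 0 := by
    intro w i
    have h1 := hA'1 w i
    rw [← sq_abs]
    split_ifs at h1 ⊢
    · exact pow_le_one₀ (abs_nonneg _) h1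
    · have : |A' w i| = 0 := le_antisymm h1 (abs_nonneg _)
      rw [this]; simp
  have hrowsum : ∀ w, ∑ i, (if i ∈ P w then (1 : ℝ) else 0) = ((P w).card : ℝ) := by
    intro w
    rw [Finset.sum_ite_mem, Finset.univ_inter, Finset.sum_const, nsmul_eq_mul, mul_one]
  have hcolsum : ∀ i, ∑ w, (if i ∈ P w then (1 : ℝ) else 0) ≤ t := by
    intro i
    rw [Finset.sum_boole]
    exact hcol i
  have hBsq : ∀ w i, B w i ^ 2 = A' w i ^ 2 / Dw w := by
    intro w i
    simp only [hB]
    rw [div_pow, Real.sq_sqrt (hD0 w).le]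
  have hBmass : ∀ w, ∑ i, B w i ^ 2 ≤ ((P w).card : ℝ) / Dw w := by
    intro w
    simp only [hBsq]
    rw [← Finset.sum_div]
    refine div_le_div_of_nonneg_right ?_ (hD0 w).le
    rw [← hrowsum w]
    exact Finset.sum_le_sum fun i _ => hA'2 w i
  have hsuppB : ∀ w i, B w i ≠ 0 → i ∈ P w := by
    intro w i h1
    by_contra h2
    apply h1
    simp only [hB, hA', if_neg h2, zero_div]
  have hadm : Admr (1 + c) κ τ B := by
    refine ⟨fun w i => ?_, fun i => ?_, fun x => ?_, fun w => ?_, fun i => ?_⟩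
    · rw [hBsq, div_mul_eq_mul_div, div_le_one (hD0 w)]
      have h1 : A' w i ^ 2 ≤ 1 := (hA'2 w i).trans (by split_ifs <;> norm_num)
      have := mul_le_mul_of_nonneg_right h1 hτ0.le
      linarith [hDτ w]
    · simp only [hBsq]
      calc ∑ w, A' w i ^ 2 / Dw w ≤ ∑ w, (if i ∈ P w then (1 : ℝ) else 0) / τ := by
            refine Finset.sum_le_sum fun w _ => ?_
            exact div_le_div₀ (by split_ifs <;> norm_num) (hA'2 w i) hτ0 (hDτ w)
        _ = (∑ w, (if i ∈ P w then (1 : ℝ) else 0)) / τ := by rw [Finset.sum_div]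
        _ ≤ 1 := by
            rw [div_le_one hτ0]
            exact (hcolsum i).trans hτt
    · have hw0 : ∀ w, 0 < Dw w * τ ^ c := fun w => mul_pos (hD0 w) hτc0
      have h1 := schur3 A' (fun w => Dw w * τ ^ c) t hw0 (by
        intro w
        refine le_trans (Finset.sum_le_sum fun i _ => hA'1 w i) ?_
        rw [hrowsum w]
        have := hDp w
        rwa [div_le_iff₀ hτc0] at this) (by
        intro i
        exact (Finset.sum_le_sum fun w _ => hA'1 w i).trans (hcolsum i)) x
      have hx0 : 0 ≤ nsq x := Finset.sum_nonneg fun _ _ => sq_nonneg _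
      calc ∑ w, (∑ i, |B w i| * |x i|) ^ 2
          = τ ^ c * ∑ w, (∑ i, |A' w i| * |x i|) ^ 2 / (Dw w * τ ^ c) := by
            rw [Finset.mul_sum]
            refine Finset.sum_congr rfl fun w _ => ?_
            have e1 : ∑ i, |B w i| * |x i| = (∑ i, |A' w i| * |x i|) / Real.sqrt (Dw w) := by
              rw [Finset.sum_div]
              refine Finset.sum_congr rfl fun i _ => ?_
              simp only [hB]
              rw [abs_div, abs_of_pos (hsD w)]
              ring
            rw [e1, div_pow, Real.sq_sqrt (hD0 w).le]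
            have := hD0 w
            field_simp
        _ ≤ τ ^ c * (t * nsq x) := mul_le_mul_of_nonneg_left h1 hτc0.le
        _ ≤ τ ^ c * (τ * nsq x) := by
            refine mul_le_mul_of_nonneg_left ?_ hτc0.le
            exact mul_le_mul_of_nonneg_right hτt hx0
        _ = τ ^ (1 + c) * nsq x := by
            rw [Real.rpow_add hτ0, Real.rpow_one]; ring
    · refine le_trans ?_ hkexp
      refine le_trans ?_ (hPk w)
      have : supp (B w) ⊆ P w := fun i hi => hsuppB w i ((mem_supp _ _).1 hi)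
      exact_mod_cast Finset.card_le_card this
    · refine le_trans ?_ hkexp
      refine le_trans ?_ htk
      refine le_trans ?_ (hcol i)
      have : supp (fun w => B w i) ⊆ univ.filter (fun w => i ∈ P w) := by
        intro w hw
        exact Finset.mem_filter.2 ⟨Finset.mem_univ _, hsuppB w i ((mem_supp (fun w => B w i) w).1 hw)⟩
      exact_mod_cast Finset.card_le_card this
  obtain ⟨x, hx1, hx2⟩ := hmain τ hτ1 (Fin n) (Fin m × Fin (n + 1)) B hadm
  refine ⟨x, hx1, fun j => ?_⟩
  -- one piece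
  have hpiece : ∀ w, |∑ i ∈ P w, A w.1 i * x i| ≤
      C * Real.sqrt (Dw w) * (1 + Real.log (1 + ((P w).card : ℝ) / Dw w)) ^ γ := by
    intro w
    have h1 := hx2 w
    have e1 : ∑ i, B w i * x i = (∑ i ∈ P w, A w.1 i * x i) / Real.sqrt (Dw w) := by
      have e2 : ∑ i ∈ P w, A w.1 i * x i = ∑ i, A' w i * x i := by
        simp only [hA', ite_mul, zero_mul]
        rw [Finset.sum_ite_mem, Finset.univ_inter]
      rw [e2, Finset.sum_div]
      refine Finset.sum_congr rfl fun i _ => ?_
      simp only [hB]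
      ring
    rw [e1, abs_div, abs_of_pos (hsD w), div_le_iff₀ (hsD w)] at h1
    have hm0 : 0 ≤ ∑ i, B w i ^ 2 := Finset.sum_nonneg fun _ _ => sq_nonneg _
    have h2 : (1 + Real.log (1 + ∑ i, B w i ^ 2)) ^ γ ≤
        (1 + Real.log (1 + ((P w).card : ℝ) / Dw w)) ^ γ := by
      refine Real.rpow_le_rpow ?_ ?_ hγ0
      · have := Real.log_nonneg (show 1 ≤ 1 + ∑ i, B w i ^ 2 by linarith)
        linarith
      · have := Real.log_le_log (by linarith : 0 < 1 + ∑ i, B w i ^ 2)
          (by linarith [hBmass w] : 1 + ∑ i, B w i ^ 2 ≤ 1 + ((P w).card : ℝ) / Dw w)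
        linarith
    calc |∑ i ∈ P w, A w.1 i * x i|
        ≤ C * (1 + Real.log (1 + ∑ i, B w i ^ 2)) ^ γ * Real.sqrt (Dw w) := h1
      _ ≤ C * (1 + Real.log (1 + ((P w).card : ℝ) / Dw w)) ^ γ * Real.sqrt (Dw w) := by
          gcongr
      _ = _ := by ring
  have hsumS : ∑ i, A j i * x i = ∑ i ∈ S j, A j i * x i := by
    symm
    refine Finset.sum_subset (Finset.subset_univ _) fun i _ hi => ?_
    have : A j i = 0 := by
      by_contra h0
      exact hi ((hmemS j i).2 h0)
    rw [this, zero_mul]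
  have hcardn : (S j).card ≤ n := by
    simpa using Finset.card_le_univ (S j)
  set s : ℝ := ((S j).card : ℝ) with hs
  have hs0 : 0 ≤ s := Nat.cast_nonneg _
  have hsex : 0 ≤ s * Real.exp (-T) := by positivity
  have hmin0 : 0 ≤ min (s / t) ((t : ℝ) ^ c) := le_min (by positivity) (by positivity)
  have hL1 : 1 ≤ (1 + Real.log (1 + min (s / t) ((t : ℝ) ^ c))) ^ γ := by
    refine Real.one_le_rpow ?_ hγ0
    have := Real.log_nonneg (show 1 ≤ 1 + min (s / t) ((t : ℝ) ^ c) by linarith)
    linarith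
  have hG0 : 0 ≤ (Real.sqrt t + Real.sqrt s * (t : ℝ) ^ (-(c / 2))) *
      (1 + Real.log (1 + min (s / t) ((t : ℝ) ^ c))) ^ γ := by positivity
  show |∑ i, A j i * x i| ≤ (C1 + C2) * bd c κ γ t s
  rw [hsumS]
  unfold bd
  rcases le_or_gt (S j).card k with hcase | hcase
  · -- one piece
    have h1 := hpiece (j, ⟨0, Nat.succ_pos n⟩)
    have e0 : P (j, ⟨0, Nat.succ_pos n⟩) = S j := by
      simp only [hP]
      exact piece_small _ _ hcase
    rw [e0] at h1
    simp only at h1
    set D : ℝ := Dw (j, ⟨0, Nat.succ_pos n⟩) with hD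
    have eD : D = max τ (s / τ ^ c) := by
      simp only [hD, hDw]
      rw [e0]
    have hD00 : 0 < D := hD0 _
    -- the square root
    have h2 : Real.sqrt D ≤ Real.sqrt c2 * (Real.sqrt t + Real.sqrt s * (t : ℝ) ^ (-(c / 2))) := by
      have h3 : D ≤ c2 * t + s * (t : ℝ) ^ (-c) := by
        rw [eD]
        refine max_le ?_ ?_
        · have : 0 ≤ s * (t : ℝ) ^ (-c) := by positivity
          rw [hτ]; linarith
        · have h4 : s / τ ^ c ≤ s * (t : ℝ) ^ (-c) := by
            rw [Real.rpow_neg ht0.le, ← div_eq_mul_inv]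
            exact div_le_div_of_nonneg_left hs0 (Real.rpow_pos_of_pos ht0 _)
              (Real.rpow_le_rpow ht0.le hτt hc)
          have : 0 ≤ c2 * t := by positivity
          linarith
      calc Real.sqrt D ≤ Real.sqrt (c2 * t + s * (t : ℝ) ^ (-c)) := Real.sqrt_le_sqrt h3
        _ ≤ Real.sqrt (c2 * t) + Real.sqrt (s * (t : ℝ) ^ (-c)) :=
            Pool.Agent.R959.LD3.sqrt_add_le _ _ (by positivity) (by positivity)
        _ = Real.sqrt c2 * Real.sqrt t + Real.sqrt s * (t : ℝ) ^ (-(c / 2)) := by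
            rw [Real.sqrt_mul hc20.le, Real.sqrt_mul hs0]
            congr 2
            rw [Real.sqrt_eq_rpow, ← Real.rpow_mul ht0.le]
            congr 1
            ring
        _ ≤ Real.sqrt c2 * (Real.sqrt t + Real.sqrt s * (t : ℝ) ^ (-(c / 2))) := by
            have h5 : 1 ≤ Real.sqrt c2 := Real.one_le_sqrt.2 hc21
            have h6 : 0 ≤ Real.sqrt s * (t : ℝ) ^ (-(c / 2)) := by positivity
            nlinarith
    have h3 : (1 + Real.log (1 + s / D)) ^ γ ≤
        la * (1 + Real.log (1 + min (s / t) ((t : ℝ) ^ c))) ^ γ := by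
      have h4 : s / D ≤ c2 ^ c * min (s / t) ((t : ℝ) ^ c) := by
        rw [mul_min_of_nonneg _ _ (by positivity)]
        refine le_min ?_ ?_
        · have h5 : s / D ≤ s / t :=
            div_le_div_of_nonneg_left hs0 ht0 (hτt.trans (by rw [eD]; exact le_max_left _ _))
          have h6 : 0 ≤ s / t := by positivity
          nlinarith
        · rw [← Real.mul_rpow hc20.le ht0.le]
          show s / D ≤ τ ^ c
          rw [div_le_iff₀ hD00, ← div_le_iff₀' hτc0, eD]
          exact le_max_right _ _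
      have h5 : 0 ≤ s / D := by positivity
      have h6 : 1 + Real.log (1 + s / D) ≤
          (1 + Real.log (c2 ^ c)) * (1 + Real.log (1 + min (s / t) ((t : ℝ) ^ c))) := by
        refine le_trans ?_ (log_scale _ _ hcc1 hmin0)
        have := Real.log_le_log (by linarith : 0 < 1 + s / D)
          (by linarith : 1 + s / D ≤ 1 + c2 ^ c * min (s / t) ((t : ℝ) ^ c))
        linarith
      have h7 : 0 ≤ Real.log (1 + s / D) := Real.log_nonneg (by linarith)
      have h8 : 0 ≤ Real.log (1 + min (s / t) ((t : ℝ) ^ c)) := Real.log_nonneg (by linarith)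
      calc (1 + Real.log (1 + s / D)) ^ γ ≤
          ((1 + Real.log (c2 ^ c)) * (1 + Real.log (1 + min (s / t) ((t : ℝ) ^ c)))) ^ γ :=
            Real.rpow_le_rpow (by linarith) h6 hγ0
        _ = _ := by rw [Real.mul_rpow (by linarith) (by linarith)]
    calc |∑ i ∈ S j, A j i * x i| ≤ C * Real.sqrt D * (1 + Real.log (1 + s / D)) ^ γ := h1
      _ ≤ C * (Real.sqrt c2 * (Real.sqrt t + Real.sqrt s * (t : ℝ) ^ (-(c / 2)))) *
          (la * (1 + Real.log (1 + min (s / t) ((t : ℝ) ^ c))) ^ γ) := by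
          refine mul_le_mul (mul_le_mul_of_nonneg_left h2 hC.le) h3 ?_ (by positivity)
          refine Real.rpow_nonneg ?_ _
          have := Real.log_nonneg (show 1 ≤ 1 + s / D by
            have : 0 ≤ s / D := by positivity
            linarith)
          linarith
      _ = C1 * ((Real.sqrt t + Real.sqrt s * (t : ℝ) ^ (-(c / 2))) *
          (1 + Real.log (1 + min (s / t) ((t : ℝ) ^ c))) ^ γ) := by rw [hC1]; ring
      _ ≤ (C1 + C2) * ((Real.sqrt t + Real.sqrt s * (t : ℝ) ^ (-(c / 2))) *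
          (1 + Real.log (1 + min (s / t) ((t : ℝ) ^ c))) ^ γ + s * Real.exp (-T)) := by
          apply mul_le_mul (by linarith) (by linarith) hG0 (by positivity)
  · -- many pieces
    have hcr : (k : ℝ) ≤ s := by rw [hs]; exact_mod_cast hcase.le
    have h1 : |∑ i ∈ S j, A j i * x i| ≤
        ∑ p ∈ Finset.range ((S j).card / k + 1), |∑ i ∈ piece (S j) k p, A j i * x i| := by
      rw [sum_pieceR (S j) k (fun i => A j i * x i)]
      exact Finset.abs_sum_le_sum_abs _ _
    set Lt : ℝ := 1 + Real.log (1 + τ ^ c) with hLt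
    have hlτ : 0 ≤ Real.log (1 + τ ^ c) := Real.log_nonneg (by linarith)
    have hLt1 : 1 ≤ Lt := by rw [hLt]; linarith
    have h2 : ∀ p ∈ Finset.range ((S j).card / k + 1),
        |∑ i ∈ piece (S j) k p, A j i * x i| ≤ C * Real.sqrt (2 * c2 * k) * Lt := by
      intro p hp
      have hpn : p < n + 1 := by
        rw [Finset.mem_range] at hp
        have := Nat.div_le_self (S j).card k
        omega
      have h3 := hpiece (j, ⟨p, hpn⟩)
      have e0 : P (j, ⟨p, hpn⟩) = piece (S j) k p := rfl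
      rw [e0] at h3
      simp only at h3
      refine h3.trans ?_
      refine mul_le_mul (mul_le_mul_of_nonneg_left (Real.sqrt_le_sqrt (hDk _)) hC.le) ?_ ?_
        (by positivity)
      · have h5 : ((piece (S j) k p).card : ℝ) / Dw (j, ⟨p, hpn⟩) ≤ τ ^ c := by
          have h6 := hDp (j, ⟨p, hpn⟩)
          rw [e0] at h6
          rw [div_le_iff₀ (hD0 _), ← div_le_iff₀' hτc0]
          exact h6
        have h6 : 0 ≤ ((piece (S j) k p).card : ℝ) / Dw (j, ⟨p, hpn⟩) :=
          div_nonneg (Nat.cast_nonneg _) (hD0 _).le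
        have h7 : 0 ≤ Real.log (1 + ((piece (S j) k p).card : ℝ) / Dw (j, ⟨p, hpn⟩)) :=
          Real.log_nonneg (by linarith)
        calc (1 + Real.log (1 + ((piece (S j) k p).card : ℝ) / Dw (j, ⟨p, hpn⟩))) ^ γ
            ≤ (1 + Real.log (1 + ((piece (S j) k p).card : ℝ) / Dw (j, ⟨p, hpn⟩))) ^ (1 : ℝ) :=
              Real.rpow_le_rpow_of_exponent_le (by linarith) hγ1
          _ ≤ Lt := by
              rw [Real.rpow_one, hLt]
              have := Real.log_le_log (by linarith : 0 < 1 + ((piece (S j) k p).card : ℝ) /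
                Dw (j, ⟨p, hpn⟩)) (by linarith : 1 + ((piece (S j) k p).card : ℝ) /
                Dw (j, ⟨p, hpn⟩) ≤ 1 + τ ^ c)
              linarith
      · refine Real.rpow_nonneg ?_ _
        have h6 : 0 ≤ ((piece (S j) k p).card : ℝ) / Dw (j, ⟨p, hpn⟩) :=
          div_nonneg (Nat.cast_nonneg _) (hD0 _).le
        have := Real.log_nonneg (show 1 ≤ 1 + ((piece (S j) k p).card : ℝ) / Dw (j, ⟨p, hpn⟩) by
          linarith)
        linarith
    have h3 := Finset.sum_le_sum h2
    rw [Finset.sum_const, Finset.card_range, nsmul_eq_mul] at h3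
    have h4 : (((S j).card / k + 1 : ℕ) : ℝ) ≤ 2 * (s / k) := by
      push_cast
      have h5 : (((S j).card / k : ℕ) : ℝ) ≤ ((S j).card : ℝ) / k := Nat.cast_div_le
      have h6 : 1 ≤ ((S j).card : ℝ) / k := by rw [le_div_iff₀ hk0r]; linarith
      rw [hs]
      linarith
    have e2 : 0 < Real.sqrt k := Real.sqrt_pos.2 hk0r
    have hst1 : 1 ≤ Real.sqrt t := Real.one_le_sqrt.2 htr
    have hst0 : 0 < Real.sqrt t := by linarith
    -- the logarithm is at most a constant times the square root of `t`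
    have h6 : Lt ≤ C3 * Real.sqrt t := by
      have e3 : Real.log (1 + τ ^ c) ≤ Real.log (2 * τ ^ c) :=
        Real.log_le_log (by positivity) (by linarith)
      rw [Real.log_mul (by norm_num) hτc0.ne', Real.log_rpow hτ0] at e3
      have e4 : Real.log τ ≤ 2 * Real.sqrt τ := by
        have := Real.log_le_rpow_div hτ0.le (ε := 1/2) (by norm_num)
        rw [← Real.sqrt_eq_rpow] at this
        linarith
      have e5 : Real.sqrt τ = Real.sqrt c2 * Real.sqrt t := by
        rw [hτ, Real.sqrt_mul hc20.le]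
      rw [e5] at e4
      have e6 : 0 ≤ Real.sqrt c2 * Real.sqrt t := by positivity
      have e7 : c * Real.log τ ≤ c * (2 * (Real.sqrt c2 * Real.sqrt t)) :=
        mul_le_mul_of_nonneg_left e4 hc
      rw [hLt, hC3]
      nlinarith
    have h5 : Real.sqrt k * Real.sqrt t ≤ Real.exp (-T) * k := by
      have e1 : Real.sqrt k * Real.sqrt k = k := Real.mul_self_sqrt hk0r.le
      have e3 : Real.exp T * Real.sqrt t ≤ Real.sqrt k := by
        apply Real.le_sqrt_of_sq_le
        calc (Real.exp T * Real.sqrt t) ^ 2 = (t : ℝ) * Real.exp (2 * T) := by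
              rw [mul_pow, Real.sq_sqrt ht0.le, ← Real.exp_nat_mul]; push_cast; ring_nf
          _ ≤ k := hkge
      calc Real.sqrt k * Real.sqrt t
          = Real.exp (-T) * (Real.exp T * Real.sqrt t) * Real.sqrt k := by
            have : Real.exp (-T) * Real.exp T = 1 := by
              rw [← Real.exp_add, neg_add_cancel, Real.exp_zero]
            calc Real.sqrt k * Real.sqrt t = 1 * Real.sqrt t * Real.sqrt k := by ring
              _ = (Real.exp (-T) * Real.exp T) * Real.sqrt t * Real.sqrt k := by rw [this]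
              _ = _ := by ring
        _ ≤ Real.exp (-T) * Real.sqrt k * Real.sqrt k := by gcongr
        _ = Real.exp (-T) * k := by rw [mul_assoc, e1]
    have h7 : Real.sqrt (2 * c2 * k) = Real.sqrt (2 * c2) * Real.sqrt k :=
      Real.sqrt_mul (by positivity) _
    calc |∑ i ∈ S j, A j i * x i|
        ≤ (((S j).card / k + 1 : ℕ) : ℝ) * (C * Real.sqrt (2 * c2 * k) * Lt) := h1.trans h3
      _ ≤ 2 * (s / k) * (C * Real.sqrt (2 * c2 * k) * (C3 * Real.sqrt t)) := by
          refine mul_le_mul h4 (mul_le_mul_of_nonneg_left h6 (by positivity)) (by positivity)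
            (by positivity)
      _ = C2 * (s / k) * (Real.sqrt k * Real.sqrt t) := by rw [hC2, h7]; ring
      _ ≤ C2 * (s / k) * (Real.exp (-T) * k) := by gcongr
      _ = C2 * (s * Real.exp (-T)) := by
          field_simp
      _ ≤ (C1 + C2) * ((Real.sqrt t + Real.sqrt s * (t : ℝ) ^ (-(c / 2))) *
          (1 + Real.log (1 + min (s / t) ((t : ℝ) ^ c))) ^ γ + s * Real.exp (-T)) := by
          apply mul_le_mul (by linarith) (by linarith) hsex (by positivity)

end Pool.Agent.J4.H8.BF
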