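import Mathlib

set_option autoImplicit false

/-! # The stiffness function -/

namespace Pool.Agent.J4.H8.BF

noncomputable section

/-- stiffness of a row with normalised discrepancy `x` -/
def psi (x : ℝ) : ℝ := (((1 - x)⁻¹) ^ 2 + ((1 + x)⁻¹) ^ 2) / 2

theorem psi_zero : psi 0 = 1 := by
  unfold psi; norm_num

theorem psi_nonneg (x : ℝ) : 0 ≤ psi x := by
  unfold psi; positivity

theorem psi_lower (x : ℝ) : ((1 - |x|)⁻¹) ^ 2 / 2 ≤ psi x := by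
  unfold psi
  rcases le_total 0 x with h | h
  · rw [abs_of_nonneg h]
    have : 0 ≤ ((1 + x)⁻¹) ^ 2 := by positivity
    linarith
  · rw [abs_of_nonpos h, sub_neg_eq_add]
    have : 0 ≤ ((1 - x)⁻¹) ^ 2 := by positivity
    linarith

theorem psi_upper (x : ℝ) (hx : |x| < 1) : psi x ≤ ((1 - |x|)⁻¹) ^ 2 := by
  unfold psi
  have h1 : 0 < 1 - |x| := by linarith
  have h2 : 1 - |x| ≤ 1 - x := by linarith [le_abs_self x]
  have h3 : 1 - |x| ≤ 1 + x := by linarith [neg_abs_le x]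
  have h4 : ((1 - x)⁻¹) ^ 2 ≤ ((1 - |x|)⁻¹) ^ 2 :=
    pow_le_pow_left₀ (inv_nonneg.2 (by linarith)) (inv_anti₀ h1 h2) 2
  have h5 : ((1 + x)⁻¹) ^ 2 ≤ ((1 - |x|)⁻¹) ^ 2 :=
    pow_le_pow_left₀ (inv_nonneg.2 (by linarith)) (inv_anti₀ h1 h3) 2
  linarith

theorem inv_sq_pair (c h q : ℝ) (hc : 0 < c) (hq : q ≤ 1 / 4) (hq0 : 0 ≤ q)
    (hh : |h| ≤ q * c) :
    ((c - h)⁻¹) ^ 2 + ((c + h)⁻¹) ^ 2 ≤ 2 * ((1 + 4 * q ^ 2) * (c⁻¹) ^ 2) := by
  have h0 := abs_le.1 hh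
  have hqc : q * c ≤ c / 4 := by nlinarith
  have h1 : 0 < c - h := by linarith
  have h2 : 0 < c + h := by linarith
  have hH : h ^ 2 ≤ q ^ 2 * c ^ 2 := by
    rw [← mul_pow, ← sq_abs h]
    exact pow_le_pow_left₀ (abs_nonneg _) hh 2
  have hH2 : h ^ 2 ≤ c ^ 2 / 16 := by
    have : q ^ 2 ≤ 1 / 16 := by nlinarith
    have h3 : 0 ≤ c ^ 2 := sq_nonneg c
    nlinarith
  set H := h ^ 2 with hHd
  set Q := c ^ 2 with hQ
  have hH0 : 0 ≤ H := sq_nonneg _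
  have hQ0 : 0 < Q := by positivity
  have hQH : 0 < Q - H := by linarith
  have key : (Q + H) * Q ≤ (1 + 4 * q ^ 2) * (Q - H) ^ 2 := by
    have e1 : Q * (H * (3 * Q - H)) ≤ 4 * (q ^ 2 * Q) * (Q - H) ^ 2 := by
      have e2 : 4 * H * (Q - H) ^ 2 ≤ 4 * (q ^ 2 * Q) * (Q - H) ^ 2 :=
        mul_le_mul_of_nonneg_right (by linarith) (sq_nonneg _)
      have e3 : Q * (H * (3 * Q - H)) ≤ 4 * H * (Q - H) ^ 2 := by
        have e4 : 0 ≤ Q ^ 2 - 7 * Q * H + 4 * H ^ 2 := by nlinarith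
        have e5 : 4 * H * (Q - H) ^ 2 - Q * (H * (3 * Q - H)) =
            H * (Q ^ 2 - 7 * Q * H + 4 * H ^ 2) := by ring
        have e6 := mul_nonneg hH0 e4
        linarith
      linarith
    have e7 : Q * ((Q + H) * Q) ≤ Q * ((1 + 4 * q ^ 2) * (Q - H) ^ 2) := by
      have e8 : Q * ((1 + 4 * q ^ 2) * (Q - H) ^ 2) - Q * ((Q + H) * Q) =
        4 * (q ^ 2 * Q) * (Q - H) ^ 2 - Q * (H * (3 * Q - H)) := by ring
      linarith
    exact le_of_mul_le_mul_left e7 hQ0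
  have e9 : ((c - h)⁻¹) ^ 2 + ((c + h)⁻¹) ^ 2 = 2 * (Q + H) / (Q - H) ^ 2 := by
    have : Q - H = (c - h) * (c + h) := by rw [hQ, hHd]; ring
    rw [this, hQ, hHd]
    field_simp
    ring
  have e10 : 2 * ((1 + 4 * q ^ 2) * (c⁻¹) ^ 2) = 2 * (1 + 4 * q ^ 2) / Q := by
    rw [hQ]; field_simp
  rw [e9, e10, div_le_div_iff₀ (by positivity) hQ0]
  nlinarith

theorem psi_pair (x h q : ℝ) (hx : |x| < 1) (hq : q ≤ 1 / 4) (hq0 : 0 ≤ q)
    (hh : |h| ≤ q * (1 - |x|)) : psi (x + h) + psi (x - h) ≤ 2 * ((1 + 4 * q ^ 2) * psi x) := by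
  have h1 : 0 < 1 - x := by linarith [le_abs_self x]
  have h2 : 0 < 1 + x := by linarith [neg_abs_le x]
  have h3 : |h| ≤ q * (1 - x) := hh.trans (mul_le_mul_of_nonneg_left
    (by linarith [le_abs_self x]) hq0)
  have h4 : |h| ≤ q * (1 + x) := hh.trans (mul_le_mul_of_nonneg_left
    (by linarith [neg_abs_le x]) hq0)
  have e1 := inv_sq_pair (1 - x) h q h1 hq hq0 h3
  have e2 := inv_sq_pair (1 + x) h q h2 hq hq0 h4
  unfold psi
  have e3 : 1 - (x + h) = (1 - x) - h := by ring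
  have e4 : 1 - (x - h) = (1 - x) + h := by ring
  have e5 : 1 + (x + h) = (1 + x) + h := by ring
  have e6 : 1 + (x - h) = (1 + x) - h := by ring
  rw [e3, e4, e5, e6]
  linarith

theorem inv_sq_diff (p r m : ℝ) (hm : 0 < m) (hp : m ≤ p) (hr : m ≤ r) :
    |(p⁻¹) ^ 2 - (r⁻¹) ^ 2| ≤ 2 * |p - r| / m ^ 3 := by
  have hp0 : 0 < p := by linarith
  have hr0 : 0 < r := by linarith
  have e1 : (p⁻¹) ^ 2 - (r⁻¹) ^ 2 = (p⁻¹ - r⁻¹) * (p⁻¹ + r⁻¹) := by ring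
  have e2 : p⁻¹ - r⁻¹ = (r - p) / (p * r) := by field_simp
  have e3 : |p⁻¹ - r⁻¹| ≤ |p - r| / m ^ 2 := by
    rw [e2, abs_div, abs_of_pos (mul_pos hp0 hr0), abs_sub_comm]
    refine div_le_div_of_nonneg_left (abs_nonneg _) (by positivity) ?_
    rw [sq]
    exact mul_le_mul hp hr hm.le hp0.le
  have e4 : |p⁻¹ + r⁻¹| ≤ 2 / m := by
    rw [abs_of_pos (by positivity)]
    have h1 := inv_anti₀ hm hp
    have h2 := inv_anti₀ hm hr
    calc p⁻¹ + r⁻¹ ≤ m⁻¹ + m⁻¹ := add_le_add h1 h2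
      _ = 2 / m := by ring
  rw [e1, abs_mul]
  calc |p⁻¹ - r⁻¹| * |p⁻¹ + r⁻¹| ≤ (|p - r| / m ^ 2) * (2 / m) :=
        mul_le_mul e3 e4 (abs_nonneg _) (by positivity)
    _ = 2 * |p - r| / m ^ 3 := by field_simp

theorem psi_diff (u w m : ℝ) (hm : 0 < m) (hu : m ≤ 1 - |u|) (hw : m ≤ 1 - |w|) :
    |psi u - psi w| ≤ 2 * |u - w| / m ^ 3 := by
  have u1 := le_abs_self u
  have u2 := neg_abs_le u
  have w1 := le_abs_self w
  have w2 := neg_abs_le w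
  have e1 := inv_sq_diff (1 - u) (1 - w) m hm (by linarith) (by linarith)
  have e2 := inv_sq_diff (1 + u) (1 + w) m hm (by linarith) (by linarith)
  have e3 : |1 - u - (1 - w)| = |u - w| := by
    rw [← abs_neg]; congr 1; ring
  have e4 : |1 + u - (1 + w)| = |u - w| := by congr 1; ring
  rw [e3] at e1
  rw [e4] at e2
  unfold psi
  have e5 : (((1 - u)⁻¹) ^ 2 + ((1 + u)⁻¹) ^ 2) / 2 - (((1 - w)⁻¹) ^ 2 + ((1 + w)⁻¹) ^ 2) / 2 =
      (((1 - u)⁻¹) ^ 2 - ((1 - w)⁻¹) ^ 2) / 2 + (((1 + u)⁻¹) ^ 2 - ((1 + w)⁻¹) ^ 2) / 2 := by ring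
  rw [e5]
  refine (abs_add_le _ _).trans ?_
  rw [abs_div, abs_div, abs_of_pos (by norm_num : (0:ℝ) < 2)]
  linarith

/-- clipping -/
def clip4 (x : ℝ) : ℝ := max (-4) (min 4 x)

theorem clip4_abs (x : ℝ) : |clip4 x| ≤ 4 := by
  unfold clip4
  rw [abs_le]
  exact ⟨le_max_left _ _, max_le (by norm_num) (min_le_left _ _)⟩

theorem clip4_neg (x : ℝ) : clip4 (-x) = - clip4 x := by
  unfold clip4
  rcases le_total x 4 with h | h
  · rcases le_total x (-4) with h' | h'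
    · rw [min_eq_right (by linarith : x ≤ 4), max_eq_left h', min_eq_left (by linarith : (4:ℝ) ≤ -x),
        max_eq_right (by norm_num)]
      ring
    · rw [min_eq_right h, max_eq_right h', min_eq_right (by linarith : -x ≤ 4),
        max_eq_right (by linarith)]
  · rw [min_eq_left h, max_eq_right (by norm_num : (-4:ℝ) ≤ 4), min_eq_right (by linarith : -x ≤ 4),
      max_eq_left (by linarith)]

theorem clip4_lip (x y : ℝ) : |clip4 x - clip4 y| ≤ |x - y| := by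
  unfold clip4
  refine (abs_max_sub_max_le_max _ _ _ _).trans ?_
  rw [sub_self, abs_zero]
  refine max_le (abs_nonneg _) ?_
  refine (abs_min_sub_min_le_max _ _ _ _).trans ?_
  rw [sub_self, abs_zero]
  exact max_le (abs_nonneg _) le_rfl

theorem clip4_id (x : ℝ) (h : |x| ≤ 4) : clip4 x = x := by
  unfold clip4
  rw [abs_le] at h
  rw [min_eq_right h.2, max_eq_right h.1]

end

end Pool.Agent.J4.H8.BF
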