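import Pool.Agent.J4.H8.BF.PH2
import Pool.Agent.J4.H8.BF.Psi
import Pool.Agent.J4.H8.BF.ITER

set_option autoImplicit false

/-!
# Iteration of the phases, with the stiffness of the long rows adapted to their discrepancy
-/

open MeasureTheory ProbabilityTheory Filter

namespace Pool.Agent.J4.H8.BF

open Pool.Agent.H320R2.LD Pool.Agent.R959.LD2

/-- ITER2: iteration of the phases. -/
def Sr_ITER2 (ν κ σ : ℝ) : Prop := ∃ C t0 : ℝ, 0 < C ∧ 2 ≤ t0 ∧ ∀ (t : ℝ), t0 ≤ t →
  ∀ (V W : Type) [Fintype V] [Fintype W] (A : W → V → ℝ), Admr ν κ t A →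
  ∃ a : V → ℝ, (∀ v, |a v| ≤ 1) ∧ (∀ R, Phi A a R ≤ t ^ (-σ)) ∧
    ∀ R, |∑ v, A R v * a v| ≤ C * Real.sqrt (1 + Real.log (1 + ∑ v, A R v ^ 2))

/-- telescoping bound for the small terms of a geometric sequence -/
theorem tele2 (ρ y : ℝ) (h0 : 0 < ρ) (h1 : ρ < 1) (hy : 0 ≤ y) (n : ℕ) :
    ∑ k ∈ Finset.range n, (if 1 < ρ ^ k * y then 0 else ρ ^ k * y) ≤
      1 / (1 - ρ) - min 1 (ρ ^ n * y) / (1 - ρ) := by
  have h1r : 0 < 1 - ρ := by linarith
  induction n with
  | zero =>
    rw [Finset.sum_range_zero, ← sub_div]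
    exact div_nonneg (sub_nonneg.2 (min_le_left _ _)) h1r.le
  | succ n ih =>
    rw [Finset.sum_range_succ]
    have hz : 0 ≤ ρ ^ n * y := by positivity
    have h3 : ρ ^ (n + 1) * y = ρ * (ρ ^ n * y) := by ring
    rw [h3]
    set z := ρ ^ n * y with hzd
    have step : (if 1 < z then 0 else z) ≤ min 1 z / (1 - ρ) - min 1 (ρ * z) / (1 - ρ) := by
      rw [← sub_div, le_div_iff₀ h1r]
      split_ifs with h
      · rw [zero_mul, min_eq_left h.le]
        exact sub_nonneg.2 (min_le_left _ _)
      · push Not at h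
        rw [min_eq_right h, min_eq_right (by nlinarith : ρ * z ≤ 1)]
        linarith
    linarith

set_option maxHeartbeats 4000000 in
theorem prove_ITER2 (ν κ σ : ℝ) (hν : 0 ≤ ν) (hσ : 0 < σ) (h1 : Sr_PHASE2 ν κ σ) :
    Sr_ITER2 ν κ σ := by
  classical
  obtain ⟨C, θ, t0, hC, hθ0, ht0, hph⟩ := h1
  set ρ : ℝ := (4/5 : ℝ) ^ (1/4 : ℝ) with hρ
  have hρ0 : 0 < ρ := Real.rpow_pos_of_pos (by norm_num) _
  have hρ1 : ρ < 1 := Real.rpow_lt_one (by norm_num) (by norm_num) (by norm_num)
  have h1r : 0 < 1 - ρ := by linarith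
  have hl54 : 0 < Real.log (5/4) := Real.log_pos (by norm_num)
  have hl15 : 1 / 5 ≤ Real.log (5/4) := by
    have := Real.log_le_sub_one_of_pos (show (0:ℝ) < 4/5 by norm_num)
    rw [show (4/5 : ℝ) = (5/4)⁻¹ by norm_num, Real.log_inv] at this
    norm_num at this ⊢
    linarith
  set c0 : ℝ := (ν + σ) / Real.log (5/4) with hc0
  have hc00 : 0 < c0 := by rw [hc0]; positivity
  set B0 : ℝ := 2 / θ with hB0
  have hB00 : 0 < B0 := by rw [hB0]; positivity
  -- large t
  have hev1 : ∀ᶠ t : ℝ in atTop, 2 ≤ t ^ (σ / 8) :=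
    (tendsto_rpow_atTop (by linarith)).eventually_ge_atTop 2
  have hev2 : ∀ᶠ t : ℝ in atTop, ‖Real.log t‖ ≤ (1 / (8 * c0)) * ‖t ^ (σ / 8)‖ :=
    (isLittleO_log_rpow_atTop (by linarith : 0 < σ / 8)).def (by positivity)
  have hev3 : ∀ᶠ t : ℝ in atTop, 1 + (12.5 + 6.25 * ν) / (σ ^ 2 / 64) ≤ Real.log t :=
    Real.tendsto_log_atTop.eventually_ge_atTop _
  have hev4 : ∀ᶠ t : ℝ in atTop, 1 / B0 + 8 ≤ t ^ (σ / 8) :=
    (tendsto_rpow_atTop (by linarith)).eventually_ge_atTop _
  obtain ⟨t1, ht1⟩ := Filter.eventually_atTop.mp (((hev1.and hev2).and hev3).and hev4)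
  refine ⟨32 * Real.sqrt (2 * B0) + C * (1 + 1 / (1 - ρ)), max t0 (max t1 2), by positivity,
    (le_max_right _ _).trans (le_max_right _ _), ?_⟩
  intro t ht V W _ _ A hA
  have htt0 : t0 ≤ t := (le_max_left _ _).trans ht
  have htt1 : t1 ≤ t := ((le_max_left _ _).trans (le_max_right _ _)).trans ht
  have ht2 : 2 ≤ t := by linarith
  have htp : 0 < t := by linarith
  obtain ⟨⟨⟨hb1, hb2⟩, hb3⟩, hb4⟩ := ht1 t htt1
  have hlog0 : 0 < Real.log t := Real.log_pos (by linarith)
  have hp8 : 0 < t ^ (σ / 8) := Real.rpow_pos_of_pos htp _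
  rw [Real.norm_of_nonneg hlog0.le, Real.norm_of_nonneg hp8.le] at hb2
  set s : ℝ := t ^ (-σ) with hs
  set δ : ℝ := t ^ (-(σ / 8)) with hδ
  have hs0 : 0 < s := Real.rpow_pos_of_pos htp _
  have hδ0 : 0 < δ := Real.rpow_pos_of_pos htp _
  have hs1 : s ≤ 1 := Real.rpow_le_one_of_one_le_of_nonpos (by linarith) (by linarith)
  have hδp : δ * t ^ (σ / 8) = 1 := by
    rw [hδ, ← Real.rpow_add htp, neg_add_cancel, Real.rpow_zero]
  have hs4 : s ^ (1/4 : ℝ) = δ ^ 2 := by
    rw [hs, hδ, ← Real.rpow_mul htp.le, ← Real.rpow_natCast, ← Real.rpow_mul htp.le]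
    congr 1
    push_cast
    ring
  have hs40 : 0 < s ^ (1/4 : ℝ) := Real.rpow_pos_of_pos hs0 _
  have hsδ : s = δ * δ ^ 7 := by
    rw [hs, hδ, ← Real.rpow_natCast, ← Real.rpow_mul htp.le, ← Real.rpow_add htp]
    congr 1
    push_cast
    ring
  have hδ1 : δ ≤ 1 := Real.rpow_le_one_of_one_le_of_nonpos (by linarith) (by linarith)
  set n : ℕ := ⌈c0 * Real.log t⌉₊ with hn
  have hn1 : c0 * Real.log t ≤ n := Nat.le_ceil _
  have hn2 : (n : ℝ) < c0 * Real.log t + 1 := Nat.ceil_lt_add_one (by positivity)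
  have hnδ : (n : ℝ) * δ ≤ 1 / 4 := by
    have h2 : c0 * Real.log t ≤ t ^ (σ / 8) / 8 := by
      calc c0 * Real.log t ≤ c0 * ((1 / (8 * c0)) * t ^ (σ / 8)) :=
            mul_le_mul_of_nonneg_left hb2 hc00.le
        _ = t ^ (σ / 8) / 8 := by field_simp
    have h3 : (n : ℝ) ≤ t ^ (σ / 8) / 4 := by
      have : 0 ≤ 1 / B0 := by positivity
      linarith
    calc (n : ℝ) * δ ≤ t ^ (σ / 8) / 4 * δ :=
          mul_le_mul_of_nonneg_right h3 hδ0.le
      _ = 1 / 4 := by rw [div_mul_eq_mul_div, mul_comm, hδp]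
  set r : W → ℝ := fun R => ∑ v, A R v ^ 2 with hr
  have hr0 : ∀ R, 0 ≤ r R := fun R => Finset.sum_nonneg fun v _ => sq_nonneg _
  have hrt : ∀ R, r R ≤ t ^ ν := by
    intro R
    have h2 := row_le V W A (t ^ ν) hA.2.2.1 R
    rwa [max_eq_left (Real.rpow_nonneg htp.le _)] at h2
  have hend : ∀ R, (4/5 : ℝ) ^ n * r R ≤ s := by
    intro R
    have e1 : (4/5 : ℝ) ^ n = Real.exp (-(n * Real.log (5/4))) := by
      have : (4/5 : ℝ) = Real.exp (-(Real.log (5/4))) := by
        rw [Real.exp_neg, Real.exp_log (by norm_num)]; norm_num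
      rw [this, ← Real.exp_nat_mul]
      congr 1
      ring
    have e2 : (4/5 : ℝ) ^ n ≤ Real.exp (-((ν + σ) * Real.log t)) := by
      rw [e1]
      apply Real.exp_le_exp.mpr
      have : c0 * Real.log t * Real.log (5/4) ≤ n * Real.log (5/4) :=
        mul_le_mul_of_nonneg_right hn1 hl54.le
      have e3 : c0 * Real.log t * Real.log (5/4) = (ν + σ) * Real.log t := by
        rw [hc0]; field_simp
      linarith
    have e4 : Real.exp (-((ν + σ) * Real.log t)) = t ^ (-(ν + σ)) := by
      rw [Real.rpow_def_of_pos htp]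
      congr 1
      ring
    rw [e4] at e2
    calc (4/5 : ℝ) ^ n * r R ≤ t ^ (-(ν + σ)) * t ^ ν :=
          mul_le_mul e2 (hrt R) (hr0 R) (Real.rpow_nonneg htp.le _)
      _ = s := by
          rw [← Real.rpow_add htp, hs]
          congr 1
          ring
  -- the parameters of the rows
  set L : W → ℝ := fun R => 1 + Real.log (1 + r R) with hL
  have hL1 : ∀ R, 1 ≤ L R := fun R => by
    have := Real.log_nonneg (show 1 ≤ 1 + r R by linarith [hr0 R])
    simp only [hL]; linarith
  have hsL1 : ∀ R, 1 ≤ Real.sqrt (L R) := fun R => Real.one_le_sqrt.2 (hL1 R)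
  have hsL2 : ∀ R, Real.sqrt (L R) ^ 2 = L R := fun R => Real.sq_sqrt (by linarith [hL1 R])
  set q : W → ℝ := fun R => 1 / (8 * Real.sqrt (L R)) with hq
  have hq0 : ∀ R, 0 < q R := fun R => by
    have := hsL1 R
    simp only [hq]; positivity
  have hq8 : ∀ R, q R ≤ 1 / 8 := fun R => by
    simp only [hq]
    exact one_div_le_one_div_of_le (by norm_num) (by linarith [hsL1 R])
  have hq2L : ∀ R, q R ^ 2 * L R = 1 / 64 := fun R => by
    have h2 := hsL1 R
    simp only [hq]
    rw [div_pow, mul_pow, hsL2]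
    have := hL1 R
    field_simp
    norm_num
  set ell : W → ℝ := fun R => 32 * Real.sqrt (2 * B0) * Real.sqrt (L R) with hell
  have hsB : 0 < Real.sqrt (2 * B0) := Real.sqrt_pos.2 (by positivity)
  have hell0 : ∀ R, 0 < ell R := fun R => by
    have := hsL1 R
    simp only [hell]; positivity
  have hellq : ∀ R, q R * ell R = 4 * Real.sqrt (2 * B0) := fun R => by
    have := hsL1 R
    simp only [hell, hq]
    field_simp
    norm_num
  -- the number of phases in which a row is long
  have hlong : ∀ R (j : ℕ), 1 < (4/5 : ℝ) ^ j * r R → (j : ℝ) ≤ 5 * L R := by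
    intro R j hj
    have h2 : 0 < r R := by
      by_contra hcon
      push Not at hcon
      have : (4/5 : ℝ) ^ j * r R ≤ 0 := mul_nonpos_of_nonneg_of_nonpos (by positivity) hcon
      linarith
    have h3 := Real.log_pos hj
    rw [Real.log_mul (by positivity) h2.ne', Real.log_pow,
      show (4/5 : ℝ) = (5/4)⁻¹ by norm_num, Real.log_inv] at h3
    have h4 : Real.log (r R) ≤ Real.log (1 + r R) := Real.log_le_log h2 (by linarith)
    have h5 : (j : ℝ) * (1 / 5) ≤ j * Real.log (5/4) :=
      mul_le_mul_of_nonneg_left hl15 (Nat.cast_nonneg _)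
    simp only [hL]
    linarith
  have hgrow : ∀ R (j : ℕ), 1 < (4/5 : ℝ) ^ j * r R → (((1 - q R) ^ j)⁻¹) ^ 2 ≤ t ^ (σ / 8) := by
    intro R j hj
    have h2 := hlong R j hj
    have hq1 : 0 < 1 - q R := by linarith [hq8 R]
    have h3 : (((1 - q R) ^ j)⁻¹) ^ 2 ≤ Real.exp (4 * q R * j) := by
      have e1 : (1 - q R)⁻¹ ≤ Real.exp (2 * q R) := by
        have e2 := Real.add_one_le_exp (2 * q R)
        refine le_trans ?_ e2
        rw [inv_le_iff_one_le_mul₀ hq1]
        nlinarith [hq8 R, hq0 R]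
      calc (((1 - q R) ^ j)⁻¹) ^ 2 = ((1 - q R)⁻¹) ^ (2 * j) := by
            rw [← inv_pow, ← pow_mul, mul_comm]
        _ ≤ (Real.exp (2 * q R)) ^ (2 * j) :=
            pow_le_pow_left₀ (inv_nonneg.2 hq1.le) e1 _
        _ = Real.exp (4 * q R * j) := by
            rw [← Real.exp_nat_mul]
            congr 1
            push_cast
            ring
    have h4 : 4 * q R * j ≤ 2.5 * Real.sqrt (L R) := by
      have e1 : q R * Real.sqrt (L R) = 1 / 8 := by
        have := hsL1 R
        simp only [hq]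
        field_simp
      calc 4 * q R * j ≤ 4 * q R * (5 * L R) :=
            mul_le_mul_of_nonneg_left h2 (by have := hq0 R; positivity)
        _ = 20 * (q R * Real.sqrt (L R)) * Real.sqrt (L R) := by
            rw [← hsL2 R, Real.sqrt_sq (Real.sqrt_nonneg _)]
            ring
        _ = 2.5 * Real.sqrt (L R) := by rw [e1]; norm_num
    have h5 : 2.5 * Real.sqrt (L R) ≤ (σ / 8) * Real.log t := by
      have e1 : L R ≤ 2 + ν * Real.log t := by
        have e2 : Real.log (1 + r R) ≤ Real.log (2 * t ^ ν) := by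
          refine Real.log_le_log (by linarith [hr0 R]) ?_
          have e3 : 1 ≤ t ^ ν := Real.one_le_rpow (by linarith) hν
          linarith [hrt R]
        rw [Real.log_mul (by norm_num) (Real.rpow_pos_of_pos htp _).ne',
          Real.log_rpow htp] at e2
        have e4 : Real.log 2 ≤ 1 := by
          have := Real.log_two_lt_d9
          linarith
        simp only [hL]
        linarith
      have e5 : (2.5 * Real.sqrt (L R)) ^ 2 ≤ ((σ / 8) * Real.log t) ^ 2 := by
        rw [mul_pow, hsL2]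
        have e6 : 1 ≤ Real.log t := by
          have : 0 ≤ (12.5 + 6.25 * ν) / (σ ^ 2 / 64) := by positivity
          linarith
        have e7 : 12.5 + 6.25 * ν ≤ (σ ^ 2 / 64) * Real.log t := by
          have : (12.5 + 6.25 * ν) / (σ ^ 2 / 64) ≤ Real.log t := by linarith
          rwa [div_le_iff₀' (by positivity)] at this
        have e8 : (12.5 + 6.25 * ν) * Real.log t ≤ (σ ^ 2 / 64) * Real.log t * Real.log t :=
          mul_le_mul_of_nonneg_right e7 hlog0.le
        have e9 : (σ / 8 * Real.log t) ^ 2 = (σ ^ 2 / 64) * Real.log t * Real.log t := by ring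
        rw [e9]
        nlinarith
      exact (abs_le_of_sq_le_sq' e5 (by positivity)).2
    calc (((1 - q R) ^ j)⁻¹) ^ 2 ≤ Real.exp (4 * q R * j) := h3
      _ ≤ Real.exp ((σ / 8) * Real.log t) := Real.exp_le_exp.mpr (h4.trans h5)
      _ = t ^ (σ / 8) := by rw [Real.rpow_def_of_pos htp, mul_comm]
  set om : W → ℝ := fun R => (1 + 4 * q R ^ 2)⁻¹ with hom
  have hom1 : ∀ R, 0 < 1 + 4 * q R ^ 2 := fun R => by positivity
  have hom0 : ∀ R, 0 < om R := fun R => inv_pos.2 (hom1 R)
  have homle : ∀ R, om R ≤ 1 := fun R => by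
    simp only [hom]
    exact inv_le_one_of_one_le₀ (by nlinarith [sq_nonneg (q R)])
  have homj : ∀ R (j : ℕ), 1 < (4/5 : ℝ) ^ j * r R → 1 ≤ 3 / 2 * om R ^ j := by
    intro R j hj
    have h2 := hlong R j hj
    have h3 : (1 + 4 * q R ^ 2) ^ j ≤ 3 / 2 := by
      calc (1 + 4 * q R ^ 2) ^ j ≤ (Real.exp (4 * q R ^ 2)) ^ j := by
            refine pow_le_pow_left₀ (hom1 R).le ?_ j
            have := Real.add_one_le_exp (4 * q R ^ 2)
            linarith
        _ = Real.exp (j * (4 * q R ^ 2)) := by rw [← Real.exp_nat_mul]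
        _ ≤ Real.exp (5 / 16) := by
            apply Real.exp_le_exp.mpr
            have e1 : (j : ℝ) * (4 * q R ^ 2) ≤ 5 * L R * (4 * q R ^ 2) :=
              mul_le_mul_of_nonneg_right h2 (by positivity)
            have e2 := hq2L R
            nlinarith
        _ ≤ 3 / 2 := by
            have e1 := Real.add_one_le_exp (-(5 / 16) : ℝ)
            rw [Real.exp_neg] at e1
            have e2 : (Real.exp (5 / 16))⁻¹ ≥ 11 / 16 := by norm_num at e1 ⊢; linarith
            have e3 := Real.exp_pos (5 / 16 : ℝ)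
            have e4 : (11 / 16 : ℝ) * Real.exp (5 / 16) ≤ 1 := by
              calc (11 / 16 : ℝ) * Real.exp (5 / 16) ≤
                  (Real.exp (5 / 16))⁻¹ * Real.exp (5 / 16) :=
                    mul_le_mul_of_nonneg_right e2 e3.le
                _ = 1 := inv_mul_cancel₀ e3.ne'
            linarith
    have h4 : om R ^ j * (1 + 4 * q R ^ 2) ^ j = 1 := by
      simp only [hom]
      rw [inv_pow, inv_mul_cancel₀ (pow_pos (hom1 R) j).ne']
    have h5 : 0 < om R ^ j := pow_pos (hom0 R) j
    nlinarith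
  -- long rows
  set Lg : ℕ → Finset W := fun j => Finset.univ.filter (fun R => 1 < (4/5 : ℝ) ^ j * r R) with hLg
  have hLgm : ∀ j R, R ∈ Lg j ↔ 1 < (4/5 : ℝ) ^ j * r R := fun j R => by simp [hLg]
  have hLgs : ∀ j, Lg (j + 1) ⊆ Lg j := by
    intro j R hR
    rw [hLgm] at hR ⊢
    refine lt_of_lt_of_le hR (mul_le_mul_of_nonneg_right ?_ (hr0 R))
    exact pow_le_pow_of_le_one (by norm_num) (by norm_num) (Nat.le_succ j)
  set er : ℕ → W → ℝ := fun j R => ∑ i ∈ Finset.range j,
    (if 1 < (4/5 : ℝ) ^ i * r R then 0 else (max s ((4/5 : ℝ) ^ i * r R)) ^ (1/4 : ℝ)) with her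
  have her0 : ∀ j R, 0 ≤ er j R := by
    intro j R
    refine Finset.sum_nonneg fun i _ => ?_
    split_ifs
    · exact le_rfl
    · exact Real.rpow_nonneg (hs0.le.trans (le_max_left _ _)) _
  have key : ∀ j : ℕ, j ≤ n → ∃ a : V → ℝ, (∀ v, |a v| ≤ 1) ∧
      (∀ R, Phi A a R ≤ max s ((4/5 : ℝ) ^ j * r R)) ∧
      (∀ R, |∑ v, A R v * a v| ≤ ell R + C * er j R) ∧
      (∀ R, 1 < (4/5 : ℝ) ^ j * r R → (1 - q R) ^ j ≤ 1 - |(∑ v, A R v * a v) / ell R|) ∧
      ∀ v, ∑ R ∈ Lg j, A R v ^ 2 * (om R ^ j * psi ((∑ v, A R v * a v) / ell R)) ≤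
        1 + j * δ := by
    intro j
    induction j with
    | zero =>
      intro _
      refine ⟨fun _ => 0, fun v => by simp, fun R => ?_, fun R => ?_, fun R _ => ?_,
        fun v => ?_⟩
      · unfold Phi
        refine le_trans ?_ (le_max_right _ _)
        simp [hr]
      · have := hell0 R
        have h2 := her0 0 R
        simp only [mul_zero, Finset.sum_const_zero, abs_zero]
        positivity
      · simp
      · simp only [mul_zero, Finset.sum_const_zero, zero_div, psi_zero, pow_zero, mul_one,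
          Nat.cast_zero, zero_mul, add_zero]
        exact (Finset.sum_le_sum_of_subset_of_nonneg (Finset.subset_univ _)
          fun R _ _ => sq_nonneg _).trans (hA.2.1 v)
    | succ j ih =>
      intro hj
      obtain ⟨a, ha1, ha2, ha3, ha4, ha5⟩ := ih (by omega)
      set D : W → ℝ := fun R => ∑ v, A R v * a v with hD
      set x : W → ℝ := fun R => D R / ell R with hx
      have hjn : (j : ℝ) * δ ≤ 1 / 4 := by
        have : (j : ℝ) ≤ n := by exact_mod_cast (by omega : j ≤ n)
        exact (mul_le_mul_of_nonneg_right this hδ0.le).trans hnδ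
      have hq1 : ∀ R, 0 < 1 - q R := fun R => by linarith [hq8 R]
      have hgap : ∀ R ∈ Lg j, (1 - q R) ^ j ≤ 1 - |x R| := fun R hR =>
        ha4 R ((hLgm j R).1 hR)
      have hgap0 : ∀ R ∈ Lg j, 0 < 1 - |x R| := fun R hR =>
        lt_of_lt_of_le (pow_pos (hq1 R) j) (hgap R hR)
      have hpsiu : ∀ R ∈ Lg j, psi (x R) ≤ t ^ (σ / 8) := by
        intro R hR
        have h2 := psi_upper (x R) (by linarith [hgap0 R hR])
        refine h2.trans (le_trans ?_ (hgrow R j ((hLgm j R).1 hR)))
        exact pow_le_pow_left₀ (inv_nonneg.2 (hgap0 R hR).le)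
          (inv_anti₀ (pow_pos (hq1 R) j) (hgap R hR)) 2
      have hpsi0 : ∀ R ∈ Lg j, 0 < psi (x R) := by
        intro R hR
        refine lt_of_lt_of_le ?_ (psi_lower (x R))
        have := hgap0 R hR
        positivity
      -- the scales
      set S : W → ℝ := fun R => B0 / psi (x R) with hS
      have hS0 : ∀ R ∈ Lg j, 0 < S R := fun R hR => div_pos hB00 (hpsi0 R hR)
      have hSs : ∀ R ∈ Lg j, s ≤ S R := by
        intro R hR
        simp only [hS]
        rw [le_div_iff₀ (hpsi0 R hR)]
        have h2 := hpsiu R hR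
        calc s * psi (x R) ≤ s * t ^ (σ / 8) := mul_le_mul_of_nonneg_left h2 hs0.le
          _ = δ ^ 7 * (δ * t ^ (σ / 8)) := by rw [hsδ]; ring
          _ = δ ^ 7 := by rw [hδp, mul_one]
          _ ≤ δ ^ 1 := pow_le_pow_of_le_one hδ0.le hδ1 (by norm_num)
          _ ≤ B0 := by
              rw [pow_one]
              have h3 : 1 / B0 ≤ t ^ (σ / 8) := by linarith
              rw [div_le_iff₀ hB00] at h3
              calc δ = δ * 1 := (mul_one _).symm
                _ ≤ δ * (t ^ (σ / 8) * B0) := mul_le_mul_of_nonneg_left h3 hδ0.le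
                _ = (δ * t ^ (σ / 8)) * B0 := by ring
                _ = B0 := by rw [hδp, one_mul]
      have hsqS : ∀ R ∈ Lg j, 4 * Real.sqrt (S R) / ell R ≤ q R * (1 - |x R|) := by
        intro R hR
        have h2 : Real.sqrt (S R) ≤ Real.sqrt (2 * B0) * (1 - |x R|) := by
          rw [Real.sqrt_le_left (mul_nonneg hsB.le (hgap0 R hR).le), mul_pow,
            Real.sq_sqrt (by positivity)]
          simp only [hS]
          rw [div_le_iff₀ (hpsi0 R hR)]
          have h3 := psi_lower (x R)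
          have h4 := hgap0 R hR
          have h5 : 2 * B0 * (1 - |x R|) ^ 2 * (((1 - |x R|)⁻¹) ^ 2 / 2) = B0 := by
            field_simp
          calc B0 = 2 * B0 * (1 - |x R|) ^ 2 * (((1 - |x R|)⁻¹) ^ 2 / 2) := h5.symm
            _ ≤ _ := mul_le_mul_of_nonneg_left h3 (by positivity)
        rw [div_le_iff₀ (hell0 R)]
        have h6 := hellq R
        calc 4 * Real.sqrt (S R) ≤ 4 * (Real.sqrt (2 * B0) * (1 - |x R|)) := by linarith
          _ = (q R * ell R) * (1 - |x R|) := by rw [h6]; ring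
          _ = q R * (1 - |x R|) * ell R := by ring
      have hbudget : ∀ v, ∑ R ∈ Lg j, A R v ^ 2 * (1 / S R) ≤ θ := by
        intro v
        have h2 : ∑ R ∈ Lg j, A R v ^ 2 * (1 / S R) ≤
            ∑ R ∈ Lg j, (3 / 2 / B0) * (A R v ^ 2 * (om R ^ j * psi (x R))) := by
          refine Finset.sum_le_sum fun R hR => ?_
          have h3 := homj R j ((hLgm j R).1 hR)
          have h4 : 1 / S R = psi (x R) / B0 := by
            simp only [hS]
            rw [one_div_div]
          rw [h4]
          have h5 : A R v ^ 2 * (psi (x R) / B0) = (A R v ^ 2 * psi (x R) / B0) * 1 := by ring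
          have h6 : 3 / 2 / B0 * (A R v ^ 2 * (om R ^ j * psi (x R))) =
              (A R v ^ 2 * psi (x R) / B0) * (3 / 2 * om R ^ j) := by ring
          rw [h5, h6]
          refine mul_le_mul_of_nonneg_left h3 ?_
          have := psi_nonneg (x R)
          positivity
        refine h2.trans ?_
        rw [← Finset.mul_sum]
        have h7 := ha5 v
        calc 3 / 2 / B0 * ∑ R ∈ Lg j, A R v ^ 2 * (om R ^ j * psi (x R))
            ≤ 3 / 2 / B0 * (1 + j * δ) := mul_le_mul_of_nonneg_left h7 (by positivity)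
          _ ≤ 3 / 2 / B0 * (4 / 3) := by
              refine mul_le_mul_of_nonneg_left ?_ (by positivity)
              linarith
          _ = θ := by rw [hB0]; field_simp; norm_num
      -- the test functions
      set f : W → ℝ → ℝ := fun R y =>
        om R ^ (j + 1) * psi (x R + Real.sqrt (S R) / ell R * clip4 y) with hf
      have hhb : ∀ R ∈ Lg j, ∀ y, |Real.sqrt (S R) / ell R * clip4 y| ≤ q R * (1 - |x R|) := by
        intro R hR y
        have h2 : 0 ≤ Real.sqrt (S R) / ell R := div_nonneg (Real.sqrt_nonneg _) (hell0 R).le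
        rw [abs_mul, abs_of_nonneg h2]
        calc Real.sqrt (S R) / ell R * |clip4 y| ≤ Real.sqrt (S R) / ell R * 4 :=
              mul_le_mul_of_nonneg_left (clip4_abs y) h2
          _ = 4 * Real.sqrt (S R) / ell R := by ring
          _ ≤ _ := hsqS R hR
      have hnext : ∀ R ∈ Lg j, ∀ h : ℝ, |h| ≤ q R * (1 - |x R|) →
          (1 - q R) * (1 - |x R|) ≤ 1 - |x R + h| := by
        intro R hR h hh
        have := abs_add_le (x R) h
        linarith
      have hfl : ∀ R ∈ Lg j, ∀ y y', |f R y - f R y'| ≤ t ^ (σ / 8) * |y - y'| := by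
        intro R hR y y'
        have g0 := hgap0 R hR
        have hm : 0 < (1 - q R) * (1 - |x R|) := mul_pos (hq1 R) g0
        have h2 := psi_diff (x R + Real.sqrt (S R) / ell R * clip4 y)
          (x R + Real.sqrt (S R) / ell R * clip4 y') _ hm (hnext R hR _ (hhb R hR y))
          (hnext R hR _ (hhb R hR y'))
        have h3 : |x R + Real.sqrt (S R) / ell R * clip4 y -
            (x R + Real.sqrt (S R) / ell R * clip4 y')| ≤ (q R * (1 - |x R|) / 4) * |y - y'| := by
          have e1 : x R + Real.sqrt (S R) / ell R * clip4 y -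
            (x R + Real.sqrt (S R) / ell R * clip4 y') =
            Real.sqrt (S R) / ell R * (clip4 y - clip4 y') := by ring
          have e2 : 0 ≤ Real.sqrt (S R) / ell R :=
            div_nonneg (Real.sqrt_nonneg _) (hell0 R).le
          rw [e1, abs_mul, abs_of_nonneg e2]
          have e3 : Real.sqrt (S R) / ell R ≤ q R * (1 - |x R|) / 4 := by
            have := hsqS R hR
            rw [mul_div_assoc] at this
            linarith
          exact mul_le_mul e3 (clip4_lip y y') (abs_nonneg _) (e2.trans e3)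
        have h4 : |f R y - f R y'| ≤ |psi (x R + Real.sqrt (S R) / ell R * clip4 y) -
            psi (x R + Real.sqrt (S R) / ell R * clip4 y')| := by
          simp only [hf]
          rw [← mul_sub, abs_mul, abs_of_pos (pow_pos (hom0 R) _)]
          exact mul_le_of_le_one_left (abs_nonneg _) (pow_le_one₀ (hom0 R).le (homle R))
        have h5 : 2 * ((q R * (1 - |x R|) / 4) * |y - y'|) / ((1 - q R) * (1 - |x R|)) ^ 3 ≤
            psi (x R) * |y - y'| := by
          have e1 : (1/2 : ℝ) ≤ (1 - q R) ^ 3 := by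
            have : (7/8 : ℝ) ≤ 1 - q R := by linarith [hq8 R]
            calc (1/2 : ℝ) ≤ (7/8) ^ 3 := by norm_num
              _ ≤ (1 - q R) ^ 3 := pow_le_pow_left₀ (by norm_num) this 3
          have e2 : 2 * ((q R * (1 - |x R|) / 4) * |y - y'|) / ((1 - q R) * (1 - |x R|)) ^ 3 =
              (q R / 2 / (1 - q R) ^ 3) * ((1 - |x R|)⁻¹) ^ 2 * |y - y'| := by
            have := hq1 R
            field_simp
            ring
          rw [e2]
          refine mul_le_mul_of_nonneg_right ?_ (abs_nonneg _)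
          refine le_trans ?_ (psi_lower (x R))
          have e3 : q R / 2 / (1 - q R) ^ 3 ≤ 1 / 2 := by
            rw [div_le_iff₀ (by have := hq1 R; positivity)]
            linarith [hq8 R]
          have e4 : 0 ≤ ((1 - |x R|)⁻¹) ^ 2 := by positivity
          calc q R / 2 / (1 - q R) ^ 3 * ((1 - |x R|)⁻¹) ^ 2 ≤
              1 / 2 * ((1 - |x R|)⁻¹) ^ 2 := mul_le_mul_of_nonneg_right e3 e4
            _ = ((1 - |x R|)⁻¹) ^ 2 / 2 := by ring
        calc |f R y - f R y'| ≤ _ := h4
          _ ≤ _ := h2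
          _ ≤ 2 * ((q R * (1 - |x R|) / 4) * |y - y'|) / ((1 - q R) * (1 - |x R|)) ^ 3 := by
              gcongr
          _ ≤ psi (x R) * |y - y'| := h5
          _ ≤ t ^ (σ / 8) * |y - y'| :=
              mul_le_mul_of_nonneg_right (hpsiu R hR) (abs_nonneg _)
      have hfF : ∀ R ∈ Lg j, ∀ y, f R y + f R (-y) ≤ 2 * (om R ^ j * psi (x R)) := by
        intro R hR y
        have h2 := psi_pair (x R) (Real.sqrt (S R) / ell R * clip4 y) (q R)
          (by linarith [hgap0 R hR]) (by linarith [hq8 R]) (hq0 R).le (hhb R hR y)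
        simp only [hf]
        rw [clip4_neg]
        have e1 : x R + Real.sqrt (S R) / ell R * -clip4 y =
          x R - Real.sqrt (S R) / ell R * clip4 y := by ring
        rw [e1, ← mul_add]
        calc om R ^ (j + 1) * (psi (x R + Real.sqrt (S R) / ell R * clip4 y) +
              psi (x R - Real.sqrt (S R) / ell R * clip4 y))
            ≤ om R ^ (j + 1) * (2 * ((1 + 4 * q R ^ 2) * psi (x R))) :=
              mul_le_mul_of_nonneg_left h2 (pow_pos (hom0 R) _).le
          _ = 2 * (om R ^ j * psi (x R)) * (om R * (1 + 4 * q R ^ 2)) := by rw [pow_succ]; ring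
          _ = 2 * (om R ^ j * psi (x R)) := by
              simp only [hom]
              rw [inv_mul_cancel₀ (hom1 R).ne', mul_one]
      obtain ⟨a', b1, b2, b3, b4, b5⟩ := hph t htt0 V W A
        (fun R => max s ((4/5 : ℝ) ^ j * r R)) a hA (fun R => le_max_left _ _) ha1 ha2 (Lg j) S
        (by
          intro R hR
          rw [hLgm, not_lt] at hR
          exact max_le hs1 hR) hSs hbudget f (fun R => om R ^ j * psi (x R)) hfl hfF
      have hDsum : ∀ R, ∑ v, A R v * a' v = D R + ∑ v, A R v * (a' v - a v) := by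
        intro R
        simp only [hD]
        rw [← Finset.sum_add_distrib]
        exact Finset.sum_congr rfl fun v _ => by ring
      -- the new normalised discrepancy of a long row
      have hxn : ∀ R ∈ Lg j, (∑ v, A R v * a' v) / ell R =
          x R + Real.sqrt (S R) / ell R *
            clip4 ((∑ v, A R v * (a' v - a v)) / Real.sqrt (S R)) := by
        intro R hR
        have h2 := b4 R hR
        have h3 : 0 < Real.sqrt (S R) := Real.sqrt_pos.2 (hS0 R hR)
        rw [clip4_id, hDsum R]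
        · simp only [hx]
          have := hell0 R
          field_simp
        · rw [abs_div, abs_of_pos h3, div_le_iff₀ h3]
          exact h2
      have hgap' : ∀ R ∈ Lg j, (1 - q R) ^ (j + 1) ≤ 1 - |(∑ v, A R v * a' v) / ell R| := by
        intro R hR
        rw [hxn R hR]
        refine le_trans ?_ (hnext R hR _ (hhb R hR _))
        rw [pow_succ, mul_comm]
        exact mul_le_mul_of_nonneg_left (hgap R hR) (hq1 R).le
      refine ⟨a', b1, fun R => ?_, fun R => ?_, fun R hR => ?_, fun v => ?_⟩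
      · refine (b2 R).trans ?_
        rw [pow_succ]
        rcases le_total s ((4/5 : ℝ) ^ j * r R) with h | h
        · rw [max_eq_right h]
          refine le_trans (le_of_eq ?_) (le_max_right _ _)
          ring
        · rw [max_eq_left h]
          refine le_trans ?_ (le_max_left _ _)
          linarith
      · by_cases hR : R ∈ Lg j
        · have h2 := hgap' R hR
          have h3 : |(∑ v, A R v * a' v) / ell R| ≤ 1 := by
            have := pow_pos (hq1 R) (j + 1)
            linarith
          rw [abs_div, abs_of_pos (hell0 R), div_le_one (hell0 R)] at h3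
          have h4 := mul_nonneg hC.le (her0 (j + 1) R)
          linarith
        · have h2 := b3 R hR
          have h3 := ha3 R
          have h4 : er (j + 1) R = er j R + (max s ((4/5 : ℝ) ^ j * r R)) ^ (1/4 : ℝ) := by
            simp only [her]
            rw [Finset.sum_range_succ, if_neg (by rwa [hLgm] at hR)]
          rw [hDsum R, h4, mul_add]
          refine (abs_add_le _ _).trans ?_
          linarith
      · exact hgap' R (hLgs j ((hLgm (j + 1) R).2 hR))
      · have h2 := b5 v
        have h3 : ∑ R ∈ Lg (j + 1), A R v ^ 2 *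
            (om R ^ (j + 1) * psi ((∑ v, A R v * a' v) / ell R)) ≤
            ∑ R ∈ Lg j, A R v ^ 2 * f R ((∑ v, A R v * (a' v - a v)) / Real.sqrt (S R)) := by
          refine le_trans (Finset.sum_le_sum_of_subset_of_nonneg (hLgs j) fun R _ _ => ?_)
            (le_of_eq (Finset.sum_congr rfl fun R hR => ?_))
          · have e1 := psi_nonneg ((∑ v, A R v * a' v) / ell R)
            have e2 := pow_pos (hom0 R) (j + 1)
            positivity
          · rw [hxn R hR]
        have h4 := ha5 v
        push_cast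
        linarith
  obtain ⟨a, ha1, ha2, ha3, -, -⟩ := key n le_rfl
  refine ⟨a, ha1, fun R => (ha2 R).trans (max_le le_rfl (hend R)), fun R => (ha3 R).trans ?_⟩
  -- the sum of the errors
  set y : ℝ := (r R) ^ (1/4 : ℝ) with hy
  have hy0 : 0 ≤ y := Real.rpow_nonneg (hr0 R) _
  have herb : er n R ≤ 1 + 1 / (1 - ρ) := by
    have hterm : ∀ i : ℕ, (if 1 < (4/5 : ℝ) ^ i * r R then 0
        else (max s ((4/5 : ℝ) ^ i * r R)) ^ (1/4 : ℝ)) ≤
        s ^ (1/4 : ℝ) + (if 1 < ρ ^ i * y then 0 else ρ ^ i * y) := by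
      intro i
      have e1 : ((4/5 : ℝ) ^ i * r R) ^ (1/4 : ℝ) = ρ ^ i * y := by
        rw [Real.mul_rpow (by positivity) (hr0 R), hρ, hy]
        congr 1
        rw [← Real.rpow_natCast, ← Real.rpow_natCast, ← Real.rpow_mul (by norm_num),
          ← Real.rpow_mul (by norm_num), mul_comm]
      have hz0 : 0 ≤ (4/5 : ℝ) ^ i * r R := mul_nonneg (by positivity) (hr0 R)
      split_ifs with h h' h'
      · linarith
      · exact add_nonneg hs40.le (by positivity)
      · exfalso
        push Not at h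
        have : ρ ^ i * y ≤ 1 := by
          rw [← e1]
          exact Real.rpow_le_one hz0 h (by norm_num)
        linarith
      · rcases le_total s ((4/5 : ℝ) ^ i * r R) with h2 | h2
        · rw [max_eq_right h2, e1]
          linarith
        · rw [max_eq_left h2]
          have : 0 ≤ ρ ^ i * y := by positivity
          linarith
    simp only [her]
    refine (Finset.sum_le_sum fun i _ => hterm i).trans ?_
    rw [Finset.sum_add_distrib, Finset.sum_const, Finset.card_range, nsmul_eq_mul, hs4]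
    have e1 := tele2 ρ y hρ0 hρ1 hy0 n
    have e2 : 0 ≤ min 1 (ρ ^ n * y) / (1 - ρ) :=
      div_nonneg (le_min zero_le_one (by positivity)) h1r.le
    have e3 : (n : ℝ) * δ ^ 2 ≤ 1 := by
      calc (n : ℝ) * δ ^ 2 = (n * δ) * δ := by ring
        _ ≤ (1/4) * 1 := mul_le_mul hnδ hδ1 hδ0.le (by norm_num)
        _ ≤ 1 := by norm_num
    linarith
  have h6 := hsL1 R
  have h7 : 0 ≤ 1 + 1 / (1 - ρ) := by positivity
  show ell R + C * er n R ≤ (32 * Real.sqrt (2 * B0) + C * (1 + 1 / (1 - ρ))) * Real.sqrt (L R)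
  have h8 : C * er n R ≤ C * (1 + 1 / (1 - ρ)) := mul_le_mul_of_nonneg_left herb hC.le
  have h9 : C * (1 + 1 / (1 - ρ)) ≤ C * (1 + 1 / (1 - ρ)) * Real.sqrt (L R) :=
    le_mul_of_one_le_right (by positivity) h6
  simp only [hell]
  linarith

end Pool.Agent.J4.H8.BF
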