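import Pool.Agent.J4.H8.BF.SOL

set_option autoImplicit false

/-! # Joint Lipschitz bound for the row sums with the barrier one -/

open MeasureTheory ProbabilityTheory

namespace Pool.Agent.J4.H8.BF

open Pool.Agent.H320R2.LD Pool.Agent.R959.LD2

/-- SOLJ: the row sums with `K R = 1` are jointly Lipschitz. -/
def Sr_SOLJ : Prop := ∀ (V W : Type) [Fintype V] [Fintype W] (b : W → V → ℝ) (K : W → ℝ)
  (w0 : ℝ) (z : (V → ℝ) → (V → ℝ)), (∀ R, 1 ≤ K R) → 0 < w0 → w0 ≤ 1 →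
  (∀ y, VIr b (pK K w0) y (z y)) → ∀ (N : Finset W), (∀ R ∈ N, K R ≤ 1) → ∀ y y',
    ∑ R ∈ N, (eta b (z y') R - eta b (z y) R) ^ 2 ≤ 4 * nsq (y' - y)

open SOL in
theorem prove_SOLJ (hP : St_POT1) (hT : Sr_TWO) : Sr_SOLJ := by
  intro V W _ _ b K w0 z hK hw0 hw1 hz N hN y y'
  have hpm : ∀ R, Monotone (pK K w0 R) := fun R => (hP (K R) w0 (hK R) hw0 hw1).2.2.1
  have hfour : ∑ R, (pf (K R) w0 (eta b (z y') R) - pf (K R) w0 (eta b (z y) R)) *
      (eta b (z y') R - eta b (z y) R) ≤ nsq (y' - y) / 4 :=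
    (hT V W b (pK K w0) hpm y y' (z y) (z y') (hz y) (hz y')).2.2.2
  have hterm : ∀ R, ∀ a c : ℝ, 0 ≤ (pf (K R) w0 c - pf (K R) w0 a) * (c - a) := by
    intro R a c
    rcases le_total a c with hac | hac
    · exact mul_nonneg (sub_nonneg.mpr (hpm R hac)) (sub_nonneg.mpr hac)
    · exact mul_nonneg_of_nonpos_of_nonpos (sub_nonpos.mpr (hpm R hac)) (sub_nonpos.mpr hac)
  have h1 : ∑ R ∈ N, (eta b (z y') R - eta b (z y) R) ^ 2 / 16 ≤ nsq (y' - y) / 4 := by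
    refine le_trans ?_ hfour
    refine le_trans (Finset.sum_le_sum (g := fun R => (pf (K R) w0 (eta b (z y') R) -
      pf (K R) w0 (eta b (z y) R)) * (eta b (z y') R - eta b (z y) R)) ?_)
      (Finset.sum_le_sum_of_subset_of_nonneg (Finset.subset_univ N) fun R _ _ => hterm R _ _)
    intro R hR
    exact pf_strong (K R) w0 hw0 hw1 (hK R) (hN R hR) _ _
  rw [← Finset.sum_div] at h1
  linarith

end Pool.Agent.J4.H8.BF
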