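import Pool.Agent.J4.H8.BF.Chain
import Pool.Agent.J4.H8.BF.SOLJ
import Pool.Agent.J4.H8.BF.ITER2
import Pool.Agent.J4.H8.BF.Cor

set_option autoImplicit false

namespace Pool.Agent.J4.H8.BF

open Pool.Agent.H320R2.LD Pool.Agent.R959.LD2

theorem prove_MAIN2 (ν κ σ : ℝ) (hκ : 0 < κ) (h1 : Sr_ITER2 ν κ σ) (h2 : Sr_ROUND ν κ σ) :
    Sr_MAINg ν κ (1/2) := by
  obtain ⟨C, t0, hC, ht0, hI⟩ := h1
  obtain ⟨t1, ht1, hR⟩ := h2
  have hmax : 0 ≤ max t0 t1 := le_trans (by linarith) (le_max_left t0 t1)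
  refine ⟨C + 10 + Real.exp ((max t0 t1) ^ κ), by positivity, ?_⟩
  intro t ht V W _ _ A hA
  classical
  have hexp := Real.exp_pos ((max t0 t1) ^ κ)
  have hlr : ∀ R, 1 ≤ Real.sqrt (1 + Real.log (1 + ∑ v, A R v ^ 2)) := fun R =>
    Real.one_le_sqrt.2 (by
      have := Real.log_nonneg (show 1 ≤ 1 + ∑ v, A R v ^ 2 by
        have : 0 ≤ ∑ v, A R v ^ 2 := Finset.sum_nonneg fun v _ => sq_nonneg _
        linarith)
      linarith)
  by_cases hbig : max t0 t1 ≤ t
  · obtain ⟨a, ha1, ha2, ha3⟩ := hI t ((le_max_left _ _).trans hbig) V W A hA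
    have hsq : ∀ R, ∑ v, A R v ^ 2 * (1 - |a v|) ≤ t ^ (-σ) := by
      intro R
      refine le_trans (Finset.sum_le_sum fun v _ => ?_) (ha2 R)
      apply mul_le_mul_of_nonneg_left _ (sq_nonneg _)
      have h0 : 0 ≤ 1 - |a v| := by linarith [ha1 v]
      have h1 : 1 - |a v| ≤ 1 := by linarith [abs_nonneg (a v)]
      calc 1 - |a v| = Real.sqrt ((1 - |a v|) ^ 2) := (Real.sqrt_sq h0).symm
        _ ≤ Real.sqrt (1 - |a v|) := Real.sqrt_le_sqrt (by nlinarith)
    obtain ⟨x, hx1, hx2⟩ := hR t ((le_max_right _ _).trans hbig) V W A a hA ha1 hsq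
    refine ⟨x, hx1, fun R => ?_⟩
    rw [← Real.sqrt_eq_rpow]
    have h3 : ∑ v, A R v * x v = ∑ v, A R v * (x v - a v) + ∑ v, A R v * a v := by
      rw [← Finset.sum_add_distrib]
      exact Finset.sum_congr rfl fun v _ => by ring
    rw [h3]
    refine (abs_add_le _ _).trans ?_
    have h4 := hlr R
    have h5 := hx2 R
    have h6 := ha3 R
    nlinarith
  · push Not at hbig
    refine ⟨fun _ => 1, fun _ => Or.inl rfl, fun R => ?_⟩
    rw [← Real.sqrt_eq_rpow]
    obtain ⟨hA1, _, _, hA4, _⟩ := hA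
    have h1 : ∀ v, |A R v| ≤ 1 := by
      intro v
      have h2 := hA1 R v
      have h3 : A R v ^ 2 ≤ 1 := by nlinarith [sq_nonneg (A R v)]
      exact abs_le_one_iff_mul_self_le_one.2 (by nlinarith)
    have h2 : |∑ v, A R v * 1| ≤ ∑ v ∈ supp (A R), (1 : ℝ) := by
      calc |∑ v, A R v * 1| ≤ ∑ v, |A R v * 1| := Finset.abs_sum_le_sum_abs _ _
        _ = ∑ v ∈ supp (A R), |A R v * 1| := by
            symm
            refine Finset.sum_subset (Finset.subset_univ _) fun v _ hv => ?_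
            have : A R v = 0 := by
              by_contra h0
              exact hv ((mem_supp _ _).mpr h0)
            rw [this]; simp
        _ ≤ _ := Finset.sum_le_sum fun v _ => by rw [mul_one]; exact h1 v
    rw [Finset.sum_const, nsmul_eq_mul, mul_one] at h2
    have h4 : Real.exp (t ^ κ) ≤ Real.exp ((max t0 t1) ^ κ) :=
      Real.exp_le_exp.mpr (Real.rpow_le_rpow (by linarith) hbig.le hκ.le)
    have h5 := hlr R
    have h6 := hA4 R
    have h7 : |∑ v, A R v * 1| ≤ C + 10 + Real.exp ((max t0 t1) ^ κ) := by linarith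
    refine h7.trans ?_
    exact le_mul_of_one_le_right (by positivity) (by linarith)

/-- The discrepancy of admissible matrices is at most `C √(1 + log (1 + row mass))`, for
`9 κ + ν < 2`. -/
theorem main2 (ν κ : ℝ) (hν : 0 ≤ ν) (hκ : 0 < κ) (h : 9 * κ + ν < 2) :
    Sr_MAINg ν κ (1/2) := by
  have mgf := prove_MGF
  have conc := prove_CONC mgf
  have mom := prove_MOM mgf
  have pot1 := prove_POT1
  have pot2 := prove_POT2
  have two := prove_TWO
  have sol := prove_SOL pot1 two
  have solj := prove_SOLJ pot1 two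
  have mix := prove_MIX
  have lll := prove_LLL mix
  have cond := prove_COND conc mix
  have shift := prove_SHIFT two pot1 pot2
  have sh := prove_SH mix
  have mean := prove_MEAN shift sh two sol
  have far := prove_FAR sol conc mom pot2
  have eh := prove_EH sol mom pot2
  have hotp := prove_HOTP sol conc mgf mom pot2
  have ct := prove_CT two pot1
  have loc := prove_LOC hotp prove_PATH prove_CH ct sol cond
  -- a slightly larger exponent for the degrees
  set κ' : ℝ := (κ + (2 - ν) / 9) / 2 with hκ'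
  have k1 : κ < κ' := by rw [hκ']; linarith
  have k2 : 9 * κ' + ν < 2 := by rw [hκ']; linarith
  have k0 : 0 < κ' := by linarith
  set σ : ℝ := (κ' + (2 - 6 * κ' - ν) / 3) / 2 with hσ
  have h1 : κ' < σ := by rw [hσ]; linarith
  have h2 : σ < (2 - 6 * κ' - ν) / 3 := by rw [hσ]; linarith
  have par := Pool.Agent.R959.LD3.prove_PARAM3 ν κ' σ hν k0 h1 (by linarith)
  have phase := prove_PHASE2 ν κ κ' σ prove_EX sol solj loc prove_DEP lll
    far eh mean prove_GEX conc mom pot1 (by linarith) hκ k1 par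
  exact prove_MAIN2 ν κ σ hκ (prove_ITER2 ν κ σ hν (by linarith) phase)
    (prove_ROUND lll ν κ σ hκ (by linarith) (by linarith))

end Pool.Agent.J4.H8.BF
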