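import Pool.Agent.R959.LD3.Defs

set_option autoImplicit false

/-!
# Discrepancy of matrices with long rows: row-dependent barriers

Variant of `Pool.Agent.R959.LD3` without the hypothesis on the Euclidean norms of the rows. Every
row has its own barrier `K R`; rows of large mass use the barrier `K R = 1` and the strong
convexity of the potential. Every task is a proposition `Sr_X`.
-/

open MeasureTheory ProbabilityTheory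

namespace Pool.Agent.J4.H8.BF

open Pool.Agent.H320R2.LD Pool.Agent.R959.LD2

noncomputable section

section
variable {V W : Type} [Fintype V] [Fintype W]

/-- `z` solves the variational inequality with input `y`, row-dependent forces -/
def VIr (b : W → V → ℝ) (p : W → ℝ → ℝ) (y z : V → ℝ) : Prop :=
  (∀ v, |z v| ≤ 1) ∧
    ∀ v, ∀ c : ℝ, |c| ≤ 1 → 0 ≤ (z v - y v + ∑ R, b R v * p R (eta b z R)) * (c - z v)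

/-- admissible matrices: small entries, columns of norm at most one, bounded operator norm of the
matrix of absolute values, supports of bounded size; no bound for the norms of the rows -/
def Admr (ν κ t : ℝ) (A : W → V → ℝ) : Prop :=
  (∀ R v, A R v ^ 2 * t ≤ 1) ∧ (∀ v, ∑ R, A R v ^ 2 ≤ 1) ∧
    (∀ x : V → ℝ, ∑ R, (∑ v, |A R v| * |x v|) ^ 2 ≤ t ^ ν * nsq x) ∧
    (∀ R, ((supp (A R)).card : ℝ) ≤ Real.exp (t ^ κ)) ∧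
    (∀ v, ((supp (fun R => A R v)).card : ℝ) ≤ Real.exp (t ^ κ))

end

/-- forces -/
abbrev pK {W : Type} (K : W → ℝ) (w0 : ℝ) : W → ℝ → ℝ := fun R => pf (K R) w0

/-- EX: existence for the variational inequality. -/
def Sr_EX : Prop := ∀ (V W : Type) [Fintype V] [Fintype W] (b : W → V → ℝ) (p : W → ℝ → ℝ),
  (∀ R, Continuous (p R)) → ∀ y : V → ℝ, ∃ z, VIr b p y z

/-- TWO: two inputs. -/
def Sr_TWO : Prop := ∀ (V W : Type) [Fintype V] [Fintype W] (b : W → V → ℝ) (p : W → ℝ → ℝ),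
  (∀ R, Monotone (p R)) → ∀ y y' z z' : V → ℝ, VIr b p y z → VIr b p y' z' →
    (∀ v, (z' v - z v) * ((z' v - z v) - (y' v - y v)
      + ∑ R, b R v * (p R (eta b z' R) - p R (eta b z R))) ≤ 0) ∧
    (nsq (z' - z) + ∑ R, (p R (eta b z' R) - p R (eta b z R)) * (eta b z' R - eta b z R)
      ≤ ∑ v, (y' v - y v) * (z' v - z v)) ∧
    (nrm (z' - z) ≤ nrm (y' - y)) ∧
    (∑ R, (p R (eta b z' R) - p R (eta b z R)) * (eta b z' R - eta b z R) ≤ nsq (y' - y) / 4)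

/-- SOL: consequences for the solution map: it is odd, Lipschitz, and so are the row sums. -/
def Sr_SOL : Prop := ∀ (V W : Type) [Fintype V] [Fintype W] (b : W → V → ℝ) (K : W → ℝ) (w0 : ℝ)
  (z : (V → ℝ) → (V → ℝ)), (∀ R, 1 ≤ K R) → 0 < w0 → w0 ≤ 1 → (∀ y, VIr b (pK K w0) y (z y)) →
    (∀ y, z (-y) = - z y) ∧
    (∀ y y', nrm (z y' - z y) ≤ nrm (y' - y)) ∧
    (∀ v y y', |z y' v - z y v| ≤ nrm (y' - y)) ∧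
    (∀ R, (∑ v, b R v ^ 2 ≤ 1 ∨ K R ≤ 1) → ∀ y y',
      |eta b (z y') R - eta b (z y) R| ≤ 2 * nrm (y' - y)) ∧
    (∀ N : Finset W, ∀ y y',
      |Real.sqrt (∑ R ∈ N, th (K R) w0 (eta b (z y') R) ^ 2)
        - Real.sqrt (∑ R ∈ N, th (K R) w0 (eta b (z y) R) ^ 2)| ≤ nrm (y' - y) / 2) ∧
    (∀ R y y', |th (K R) w0 (eta b (z y') R) - th (K R) w0 (eta b (z y) R)| ≤ nrm (y' - y) / 2)

open Classical in
/-- SHIFT: response to a shift of one coordinate. -/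
def Sr_SHIFT : Prop := ∀ (V W : Type) [Fintype V] [Fintype W] (b : W → V → ℝ) (K : W → ℝ)
  (w0 : ℝ), (∀ R, 1 ≤ K R) → 0 < w0 → w0 ≤ 1 → (∀ R, ∑ v, b R v ^ 2 ≤ 1 ∨ K R ≤ 1) →
  ∀ (δ : ℝ), 0 < δ → δ ≤ w0 / 4 → ∀ (v : V) (y z z' : V → ℝ), VIr b (pK K w0) y z →
    VIr b (pK K w0) (fun u => y u + if u = v then δ else 0) z' →
    δ * (1 - |z v| - 16 * (∑ R, b R v ^ 2 * hf (K R) w0 (eta b z R)) - δ) ≤ z' v - z v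

/-- CT: weighted (Combes–Thomas) estimate. -/
def Sr_CT : Prop := ∀ (V W : Type) [Fintype V] [Fintype W] (b : W → V → ℝ) (K : W → ℝ) (w0 : ℝ),
  (∀ R, 1 ≤ K R) → 0 < w0 → w0 ≤ 1 → ∀ (y y' z z' : V → ℝ), VIr b (pK K w0) y z →
  VIr b (pK K w0) y' z' →
  ∀ (I : W → V → Prop), (∀ R v, b R v ≠ 0 → I R v) →
  ∀ (hot : W → Prop) (d : V → ℕ) (α Q N1 : ℝ), 0 < α → α ≤ 1 → 0 ≤ Q → 0 ≤ N1 →
    (∀ x : V → ℝ, ∑ R, (∑ v, |b R v| * |x v|) ^ 2 ≤ N1 * nsq x) →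
    8 * α ^ 2 * Q * N1 ≤ 1 →
    (∀ R, ¬ hot R → hf (K R) w0 (eta b z R) ≤ Q ∧ hf (K R) w0 (eta b z' R) ≤ Q) →
    (∀ R u w, I R u → I R w → d u ≤ d w + 1) →
    (∀ R u w, hot R → I R u → I R w → d u = d w) →
    ∀ (v0 : V) (k : ℕ), d v0 = 0 → (∀ u, d u < k → y' u = y u) →
      |z' v0 - z v0| ≤ 2 * Real.exp (-(α * k)) * nrm (y' - y)

/-- HOTP: many given rows are rarely hot together. -/
def Sr_HOTP : Prop := ∀ (V W : Type) [Fintype V] [Fintype W] (b : W → V → ℝ) (K : W → ℝ)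
  (w0 M q : ℝ) (z : (V → ℝ) → (V → ℝ)), (∀ R, 1 ≤ K R) → 0 < w0 → w0 ≤ 1 →
  (∀ y, VIr b (pK K w0) y (z y)) →
  0 < M → 2 * (1 + 2 * M) ≤ q → w0 ≤ q⁻¹ → ∀ N : Finset W,
    (gam V).real {g | ∀ R ∈ N, wf (K R) w0 (eta b (z (M • g)) R) ≤ q⁻¹}
      ≤ Real.exp (-(N.card : ℝ) * q ^ 2 / (4 * M ^ 2))

/-- FAR: a row is very rarely beyond the barrier. -/
def Sr_FAR : Prop := ∀ (V W : Type) [Fintype V] [Fintype W] (b : W → V → ℝ) (K : W → ℝ)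
  (w0 M : ℝ) (z : (V → ℝ) → (V → ℝ)), (∀ R, 1 ≤ K R) → 0 < w0 → w0 ≤ 1 →
  (∀ y, VIr b (pK K w0) y (z y)) →
  0 < M → ∀ R, (gam V).real {g | K R + 2 ≤ |eta b (z (M • g)) R|}
      ≤ 2 * Real.exp (-((w0⁻¹) ^ 4 / M ^ 2))

/-- EH: the mean stiffness is small. -/
def Sr_EH : Prop := ∀ M : ℝ, 0 < M → ∃ C : ℝ, 0 < C ∧
  ∀ (V W : Type) [Fintype V] [Fintype W] (b : W → V → ℝ) (K : W → ℝ) (w0 : ℝ)
  (z : (V → ℝ) → (V → ℝ)), (∀ R, 1 ≤ K R) → 0 < w0 → w0 ≤ 1 → (∀ y, VIr b (pK K w0) y (z y)) →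
  ∀ R, (∑ v, b R v ^ 2 ≤ 1 ∨ K R ≤ 1) →
    Integrable (fun g => hf (K R) w0 (eta b (z (M • g)) R)) (gam V) ∧
    ∫ g, hf (K R) w0 (eta b (z (M • g)) R) ∂(gam V) ≤ C * ((K R)⁻¹) ^ 4

/-- MEAN: the expected free mass. -/
def Sr_MEAN : Prop := ∀ (V W : Type) [Fintype V] [Fintype W] (b : W → V → ℝ) (K : W → ℝ)
  (w0 M δ : ℝ) (z : (V → ℝ) → (V → ℝ)), (∀ R, 1 ≤ K R) → 0 < w0 → w0 ≤ 1 →
  (∀ R, ∑ v, b R v ^ 2 ≤ 1 ∨ K R ≤ 1) →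
  (∀ y, VIr b (pK K w0) y (z y)) → 0 < M → 0 < δ → δ ≤ w0 / 4 →
  (∀ R, Integrable (fun g => hf (K R) w0 (eta b (z (M • g)) R)) (gam V)) →
  ∀ v, ∫ g, (1 - |z (M • g) v|) ∂(gam V)
    ≤ 1 / M + 16 * (∑ R, b R v ^ 2 * ∫ g, hf (K R) w0 (eta b (z (M • g)) R) ∂(gam V)) + δ

/-- LOC: the solution is well approximated by local functions. -/
def Sr_LOC : Prop := ∀ (V W : Type) [Fintype V] [Fintype W] [DecidableEq V]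
  (b : W → V → ℝ) (K : W → ℝ) (w0 M α q qb ε N1 : ℝ) (D m : ℕ)
  (z : (V → ℝ) → (V → ℝ)) (I : W → V → Prop), (∀ R, 1 ≤ K R) → 0 < w0 → w0 ≤ 1 →
  (∀ y, VIr b (pK K w0) y (z y)) → (∀ R v, b R v ≠ 0 → I R v) →
  (∀ R, {v | I R v}.ncard ≤ D) → (∀ v, {R | I R v}.ncard ≤ D) →
  0 < M → 0 < α → α ≤ 1 → 2 * (1 + 2 * M) ≤ q → w0 ≤ q⁻¹ → 0 ≤ N1 →
  (∀ x : V → ℝ, ∑ R, (∑ v, |b R v| * |x v|) ^ 2 ≤ N1 * nsq x) →
  8 * α ^ 2 * q ^ 4 * N1 ≤ 1 → 0 < qb → qb ≤ 1 → 0 < ε → 1 ≤ m →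
  (2 * (D : ℝ) ^ 2) ^ (4 * m) * Real.exp (-(m : ℝ) * q ^ 2 / (4 * M ^ 2)) ≤ qb ^ 2 →
  ∀ v0, (gam V).real {g | ε + 2 * qb <
      |(∫ g', z (M • mix (ball I (4 * m) v0) g g') v0 ∂(gam V)) - z (M • g) v0|}
    ≤ 2 * qb + 2 * Real.exp (-(ε ^ 2 * Real.exp (4 * α * m) / (16 * M ^ 2)))

/-- PHASE: one phase; the mass of the row `R` is at most `μ R`. -/
def Sr_PHASE (ν κ σ : ℝ) : Prop := ∃ C t0 : ℝ, 0 < C ∧ 2 ≤ t0 ∧ ∀ (t : ℝ), t0 ≤ t →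
  ∀ (V W : Type) [Fintype V] [Fintype W]
  (A : W → V → ℝ) (μ : W → ℝ) (a : V → ℝ), Admr ν κ t A → (∀ R, t ^ (-σ) ≤ μ R) →
  (∀ v, |a v| ≤ 1) → (∀ R, Phi A a R ≤ μ R) →
  ∃ a' : V → ℝ, (∀ v, |a' v| ≤ 1) ∧ (∀ R, Phi A a' R ≤ 4/5 * μ R) ∧
    ∀ R, |∑ v, A R v * (a' v - a v)| ≤ C * (min 1 (μ R)) ^ (1/4 : ℝ)

/-- ITER: iteration of the phases. -/
def Sr_ITER (ν κ σ : ℝ) : Prop := ∃ C t0 : ℝ, 0 < C ∧ 2 ≤ t0 ∧ ∀ (t : ℝ), t0 ≤ t →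
  ∀ (V W : Type) [Fintype V] [Fintype W] (A : W → V → ℝ), Admr ν κ t A →
  ∃ a : V → ℝ, (∀ v, |a v| ≤ 1) ∧ (∀ R, Phi A a R ≤ t ^ (-σ)) ∧
    ∀ R, |∑ v, A R v * a v| ≤ C * (1 + Real.log (1 + ∑ v, A R v ^ 2))

/-- ROUND: the final rounding. -/
def Sr_ROUND (ν κ σ : ℝ) : Prop := ∃ t0 : ℝ, 2 ≤ t0 ∧ ∀ (t : ℝ), t0 ≤ t →
  ∀ (V W : Type) [Fintype V] [Fintype W] (A : W → V → ℝ) (a : V → ℝ), Admr ν κ t A →
  (∀ v, |a v| ≤ 1) → (∀ R, ∑ v, A R v ^ 2 * (1 - |a v|) ≤ t ^ (-σ)) →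
  ∃ x : V → ℝ, (∀ v, x v = 1 ∨ x v = -1) ∧ ∀ R, |∑ v, A R v * (x v - a v)| ≤ 10

/-- MAIN: discrepancy of admissible matrices. -/
def Sr_MAIN (ν κ : ℝ) : Prop := ∃ C : ℝ, 0 < C ∧ ∀ (t : ℝ), 1 ≤ t →
  ∀ (V W : Type) [Fintype V] [Fintype W] (A : W → V → ℝ), Admr ν κ t A →
  ∃ x : V → ℝ, (∀ v, x v = 1 ∨ x v = -1) ∧
    ∀ R, |∑ v, A R v * x v| ≤ C * (1 + Real.log (1 + ∑ v, A R v ^ 2))

end

end Pool.Agent.J4.H8.BF
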