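import Pool.Agent.J4.H8.BF.PHASE2

set_option autoImplicit false
set_option linter.unusedVariables false

/-!
# The phase lemma with control at the vertices
-/

open MeasureTheory ProbabilityTheory Filter

namespace Pool.Agent.J4.H8.BF

open Pool.Agent.H320R2.LD Pool.Agent.H320R2.LD.PHASE Pool.Agent.R959.LD2

/-- PHASE2: one phase; the rows in `Lg` are those of mass above one, they have their own scales
`S R` and test functions `f R`. -/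
def Sr_PHASE2 (ν κ σ : ℝ) : Prop := ∃ C θ t0 : ℝ, 0 < C ∧ 0 < θ ∧ 2 ≤ t0 ∧ ∀ (t : ℝ), t0 ≤ t →
  ∀ (V W : Type) [Fintype V] [Fintype W]
  (A : W → V → ℝ) (μ : W → ℝ) (a : V → ℝ), Admr ν κ t A → (∀ R, t ^ (-σ) ≤ μ R) →
  (∀ v, |a v| ≤ 1) → (∀ R, Phi A a R ≤ μ R) →
  ∀ (Lg : Finset W) (S : W → ℝ), (∀ R, R ∉ Lg → μ R ≤ 1) → (∀ R ∈ Lg, t ^ (-σ) ≤ S R) →
  (∀ v, ∑ R ∈ Lg, A R v ^ 2 * (1 / S R) ≤ θ) →
  ∀ (f : W → ℝ → ℝ) (F : W → ℝ), (∀ R ∈ Lg, ∀ x y, |f R x - f R y| ≤ t ^ (σ / 8) * |x - y|) →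
  (∀ R ∈ Lg, ∀ x, f R x + f R (-x) ≤ 2 * F R) →
  ∃ a' : V → ℝ, (∀ v, |a' v| ≤ 1) ∧ (∀ R, Phi A a' R ≤ 4/5 * μ R) ∧
    (∀ R, R ∉ Lg → |∑ v, A R v * (a' v - a v)| ≤ C * (μ R) ^ (1/4 : ℝ)) ∧
    (∀ R ∈ Lg, |∑ v, A R v * (a' v - a v)| ≤ 4 * Real.sqrt (S R)) ∧
    ∀ v, ∑ R ∈ Lg, A R v ^ 2 * f R ((∑ v, A R v * (a' v - a v)) / Real.sqrt (S R)) ≤
      (∑ R ∈ Lg, A R v ^ 2 * F R) + t ^ (-(σ / 8))

theorem prove_PHASE2 (ν κ κ' σ : ℝ) (hEX : Sr_EX) (hSOL : Sr_SOL) (hSOLJ : Sr_SOLJ)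
    (hLOC : Sr_LOC)
    (hDEP : St_DEP) (hLLL : St_LLL) (hFAR : Sr_FAR) (hEH : Sr_EH) (hMEAN : Sr_MEAN)
    (hGEX : St_GEX) (hCONC : St_CONC) (hMOM : St_MOM) (hPOT1 : St_POT1) (hσ : 0 < σ)
    (hκ : 0 < κ) (hκκ : κ < κ')
    (hPARAM : Pool.Agent.R959.LD3.St_PARAM3 ν κ' σ) :
    Sr_PHASE2 ν κ σ := by
  classical
  obtain ⟨Ch, hCh, hEH'⟩ := hEH 400 (by norm_num)
  obtain ⟨t0, ht02, hpar⟩ := hPARAM 400 (1 / 10 ^ 12) (by norm_num) (by norm_num)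
  set CK : ℝ := 1 + 16000 * Ch with hCK
  have hCK1 : 1 ≤ CK := by linarith
  -- large t
  have hev1 : ∀ᶠ t : ℝ in atTop, 6 ≤ t ^ (κ' - κ) :=
    (tendsto_rpow_atTop (by linarith)).eventually_ge_atTop 6
  have hev2 : ∀ᶠ t : ℝ in atTop, 6 ≤ t ^ κ' :=
    (tendsto_rpow_atTop (by linarith)).eventually_ge_atTop 6
  have hev3 : ∀ᶠ t : ℝ in atTop, ‖Real.log t‖ ≤ (1 / (6 * σ)) * ‖t ^ κ'‖ :=
    (isLittleO_log_rpow_atTop (by linarith : 0 < κ')).def (by positivity)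
  obtain ⟨t1, ht1⟩ := Filter.eventually_atTop.mp ((hev1.and hev2).and hev3)
  refine ⟨4 * CK, 1 / (16000 * Ch), max t0 t1, by positivity, by positivity,
    ht02.trans (le_max_left _ _), ?_⟩
  intro t ht V W _ _ A μ a hA hμ ha hPhi Lg S0 hLg hS0 hθ f Ff hfl hfF
  have htt0 : t0 ≤ t := (le_max_left _ _).trans ht
  have htt1 : t1 ≤ t := (le_max_right _ _).trans ht
  have ht2 : 1 ≤ t := by linarith
  have ht0 : 0 < t := by linarith
  obtain ⟨⟨hb1, hb2⟩, hb3⟩ := ht1 t htt1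
  have hlog0 : 0 ≤ Real.log t := Real.log_nonneg ht2
  rw [Real.norm_of_nonneg hlog0, Real.norm_of_nonneg (Real.rpow_nonneg ht0.le _)] at hb3
  have htκ : 6 * t ^ κ ≤ t ^ κ' := by
    calc 6 * t ^ κ ≤ t ^ (κ' - κ) * t ^ κ :=
          mul_le_mul_of_nonneg_right hb1 (Real.rpow_nonneg ht0.le _)
      _ = t ^ κ' := by rw [← Real.rpow_add ht0]; congr 1; ring
  have hlogσ : σ * Real.log t ≤ t ^ κ' / 6 := by
    calc σ * Real.log t ≤ σ * ((1 / (6 * σ)) * t ^ κ') :=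
          mul_le_mul_of_nonneg_left hb3 hσ.le
      _ = t ^ κ' / 6 := by field_simp
  have htκ0 : 0 ≤ t ^ κ := Real.rpow_nonneg ht0.le _
  set s : ℝ := t ^ (-σ) with hsdef
  have hs1 : s ≤ 1 := Real.rpow_le_one_of_one_le_of_nonpos ht2 (by linarith)
  obtain ⟨w0, α, q, qb, ε, m, p1, p2, p3, p4, p5, p6, p7, p8, p9, p10, p11, p12, p13, p14, p15⟩ :=
    hpar t htt0 s le_rfl hs1 ⌊Real.exp (t ^ κ')⌋₊ rfl
  have hs : 0 < s := Real.rpow_pos_of_pos ht0 _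
  have hμ0 : ∀ R, 0 < μ R := fun R => lt_of_lt_of_le hs (hμ R)
  -- degrees
  have hDD : ⌊Real.exp (t ^ κ)⌋₊ ^ 2 + ⌊Real.exp (t ^ κ)⌋₊ + 1 ≤ ⌊Real.exp (t ^ κ')⌋₊ := by
    refine Nat.le_floor ?_
    push_cast
    have h1 : ((⌊Real.exp (t ^ κ)⌋₊ : ℕ) : ℝ) ≤ Real.exp (t ^ κ) :=
      Nat.floor_le (Real.exp_pos _).le
    have h2 : (0 : ℝ) ≤ ((⌊Real.exp (t ^ κ)⌋₊ : ℕ) : ℝ) := Nat.cast_nonneg _
    have h3 : 1 ≤ Real.exp (t ^ κ) := Real.one_le_exp htκ0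
    have h4 : ((⌊Real.exp (t ^ κ)⌋₊ : ℕ) : ℝ) ^ 2 ≤ Real.exp (t ^ κ) ^ 2 :=
      pow_le_pow_left₀ h2 h1 2
    have h5 : Real.exp (t ^ κ) ^ 2 * 3 ≤ Real.exp (t ^ κ') := by
      have e1 : (3 : ℝ) ≤ Real.exp 2 := by
        have := Real.add_one_le_exp (2 : ℝ)
        linarith
      calc Real.exp (t ^ κ) ^ 2 * 3 ≤ Real.exp (t ^ κ) ^ 2 * Real.exp 2 :=
            mul_le_mul_of_nonneg_left e1 (by positivity)
        _ = Real.exp (2 * t ^ κ + 2) := by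
            rw [← Real.exp_nat_mul, ← Real.exp_add]
            norm_num
        _ ≤ Real.exp (t ^ κ') := Real.exp_le_exp.mpr (by linarith)
    nlinarith
  -- scales and barriers
  set S : W → ℝ := fun R => if R ∈ Lg then S0 R else μ R with hS
  set K : W → ℝ := fun R => if R ∈ Lg then 1 else CK * (μ R) ^ (-(1/4) : ℝ) with hK
  have hK1 : ∀ R, 1 ≤ K R := by
    intro R
    simp only [hK]
    split_ifs with h
    · exact le_rfl
    · have hsK : 1 ≤ (μ R) ^ (-(1/4) : ℝ) :=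
        Real.one_le_rpow_of_pos_of_le_one_of_nonpos (hμ0 R) (hLg R h) (by norm_num)
      nlinarith
  have hKL : ∀ R ∈ Lg, K R ≤ 1 := by
    intro R hR
    simp only [hK, if_pos hR]
    exact le_rfl
  have hSs : ∀ R, s ≤ S R := by
    intro R
    simp only [hS]
    split_ifs with h
    · exact hS0 R h
    · exact hμ R
  have hrow : ∀ R, Phi A a R ≤ S R ∨ K R ≤ 1 := by
    intro R
    simp only [hS, hK]
    split_ifs with h
    · exact Or.inr le_rfl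
    · exact Or.inl (hPhi R)
  have hKs : ∀ v, 16 * ∑ R, A R v ^ 2 * ((1 / S R) * (Ch * ((K R)⁻¹) ^ 4)) ≤ 2 / 1000 := by
    intro v
    have hterm : ∀ R, A R v ^ 2 * ((1 / S R) * (Ch * ((K R)⁻¹) ^ 4)) ≤
        A R v ^ 2 * (1 / 16000) + if R ∈ Lg then Ch * (A R v ^ 2 * (1 / S0 R)) else 0 := by
      intro R
      have hr := hμ0 R
      simp only [hS, hK]
      split_ifs with h
      · have : 0 ≤ A R v ^ 2 * (1 / 16000) := by positivity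
        rw [inv_one, one_pow, mul_one]
        nlinarith
      · rw [add_zero]
        refine mul_le_mul_of_nonneg_left ?_ (sq_nonneg _)
        have hs4 : ((μ R) ^ (-(1/4) : ℝ)) ^ 4 = 1 / μ R := by
          rw [← Real.rpow_natCast, ← Real.rpow_mul hr.le]
          norm_num
          rw [Real.rpow_neg_one]
        rw [inv_pow, mul_pow, hs4]
        have h1 : (1 / μ R) * (Ch * (CK ^ 4 * (1 / μ R))⁻¹) = Ch / CK ^ 4 := by
          field_simp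
        rw [h1, div_le_div_iff₀ (by positivity) (by norm_num)]
        have h2 : CK ≤ CK ^ 4 := by
          calc CK = CK ^ 1 := (pow_one _).symm
            _ ≤ CK ^ 4 := pow_le_pow_right₀ hCK1 (by norm_num)
        linarith
    have h1 := Finset.sum_le_sum (s := Finset.univ) fun R _ => hterm R
    rw [Finset.sum_add_distrib, ← Finset.sum_mul, Finset.sum_ite_mem, Finset.univ_inter,
      ← Finset.mul_sum] at h1
    have h2 : (∑ R, A R v ^ 2) * (1 / 16000) ≤ 1 / 16000 :=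
      mul_le_of_le_one_left (by norm_num) (hA.2.1 v)
    have h3 : Ch * ∑ R ∈ Lg, A R v ^ 2 * (1 / S0 R) ≤ Ch * (1 / (16000 * Ch)) :=
      mul_le_mul_of_nonneg_left (hθ v) hCh.le
    have h4 : Ch * (1 / (16000 * Ch)) = 1 / 16000 := by field_simp
    rw [h4] at h3
    linarith
  have hcont : ∀ R, Continuous (pK K w0 R) := fun R =>
    (hPOT1 (K R) w0 (hK1 R) p3 (by linarith)).1
  choose z hz using fun y => hEX V W (fun R => bb A a (S R) R) (pK K w0) hcont y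
  have hbrow : ∀ R, ∑ v, bb A a (S R) R v ^ 2 ≤ 1 ∨ K R ≤ 1 := by
    intro R
    rcases hrow R with h | h
    · exact Or.inl (bb_row ha (lt_of_lt_of_le hs (hSs R)) R h)
    · exact Or.inr h
  -- the approximation error
  set e0 : ℝ := 1 / (1000 * Real.exp (t ^ κ')) with he0
  have he0p : 0 < e0 := by positivity
  have he : ε + 2 * qb ≤ e0 := by
    rw [he0, le_div_iff₀ (by positivity)]
    exact p14
  have he01 : Real.exp (t ^ κ) * e0 ≤ 1 / 1000 := by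
    rw [he0, mul_one_div, div_le_div_iff₀ (by positivity) (by norm_num)]
    have := Real.exp_le_exp.mpr (show t ^ κ ≤ t ^ κ' by linarith)
    linarith
  have hp8 : 0 < t ^ (σ / 8) := Real.rpow_pos_of_pos ht0 _
  have hΛe : t ^ (σ / 8) * (Real.exp (t ^ κ) * e0) ≤ t ^ (-(σ / 8)) / 2 := by
    have h1 : t ^ (σ / 8) ≤ Real.exp (t ^ κ' / 6) := by
      rw [Real.rpow_def_of_pos ht0]
      refine Real.exp_le_exp.mpr ?_
      have : 0 ≤ σ * Real.log t := by positivity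
      linarith
    have h2 : t ^ (-(σ / 8)) * t ^ (σ / 8) = 1 := by
      rw [← Real.rpow_add ht0, neg_add_cancel, Real.rpow_zero]
    have h3 : t ^ (σ / 8) * (Real.exp (t ^ κ) * e0) ≤ t ^ (-(σ / 8)) * (1 / 1000) := by
      have h4 : t ^ (σ / 8) * (t ^ (σ / 8) * (Real.exp (t ^ κ) * e0)) ≤ 1 / 1000 := by
        have h5 : Real.exp (t ^ κ) ≤ Real.exp (t ^ κ' / 6) :=
          Real.exp_le_exp.mpr (by linarith)
        calc t ^ (σ / 8) * (t ^ (σ / 8) * (Real.exp (t ^ κ) * e0))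
            ≤ Real.exp (t ^ κ' / 6) * (Real.exp (t ^ κ' / 6) * (Real.exp (t ^ κ' / 6) * e0)) := by
              gcongr
          _ = Real.exp (t ^ κ' / 2) * e0 := by
              rw [← mul_assoc, ← mul_assoc, ← Real.exp_add, ← Real.exp_add]
              congr 2
              ring
          _ ≤ Real.exp (t ^ κ') * e0 := by
              refine mul_le_mul_of_nonneg_right (Real.exp_le_exp.mpr ?_) he0p.le
              linarith
          _ = 1 / 1000 := by rw [he0]; field_simp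
      calc t ^ (σ / 8) * (Real.exp (t ^ κ) * e0)
          = t ^ (-(σ / 8)) * (t ^ (σ / 8) * (t ^ (σ / 8) * (Real.exp (t ^ κ) * e0))) := by
            rw [← mul_assoc (t ^ (-(σ / 8))), h2, one_mul]
        _ ≤ t ^ (-(σ / 8)) * (1 / 1000) :=
            mul_le_mul_of_nonneg_left h4 (Real.rpow_nonneg ht0.le _)
    have h6 : 0 ≤ t ^ (-(σ / 8)) := Real.rpow_nonneg ht0.le _
    linarith
  have hΛδ : 1 / 10 ^ 12 * (s * t) ≤
      (t ^ (-(σ / 8))) ^ 2 * t / (64 * 400 ^ 2 * (t ^ (σ / 8)) ^ 2) := by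
    have h1 : t ^ (-(σ / 8)) = (t ^ (σ / 8))⁻¹ := Real.rpow_neg ht0.le _
    have h2 : s = ((t ^ (σ / 8)) ^ 8)⁻¹ := by
      rw [hsdef, Real.rpow_neg ht0.le, ← Real.rpow_natCast, ← Real.rpow_mul ht0.le]
      congr 2
      norm_num
    have h3 : 1 ≤ t ^ (σ / 8) := Real.one_le_rpow ht2 (by positivity)
    rw [h1, h2]
    set X := t ^ (σ / 8) with hX
    have h4 : (X ^ 8)⁻¹ ≤ (X ^ 4)⁻¹ :=
      inv_anti₀ (by positivity) (pow_le_pow_right₀ h3 (by norm_num))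
    have h5 : (X⁻¹) ^ 2 * t / (64 * 400 ^ 2 * X ^ 2) = (X ^ 4)⁻¹ * t / (64 * 400 ^ 2) := by
      field_simp
    rw [h5]
    have h6 : (X ^ 8)⁻¹ * t ≤ (X ^ 4)⁻¹ * t := mul_le_mul_of_nonneg_right h4 ht0.le
    have h7 : 0 ≤ (X ^ 4)⁻¹ * t := by positivity
    rw [le_div_iff₀ (by norm_num)]
    nlinarith
  obtain ⟨a', h1, h2, h3, h4⟩ := core_phase2 hSOL hSOLJ hLOC hDEP hLLL hFAR hMEAN hGEX hCONC
    hMOM A a ν κ t s
    μ S K hA ha hPhi hμ hSs hrow p1 hs 400 w0 α q qb ε (1 / 10 ^ 12) Ch ⌊Real.exp (t ^ κ)⌋₊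
    ⌊Real.exp (t ^ κ')⌋₊ m
    rfl hK1 p3 (by linarith) p4 rfl p5 p6 p7 p8 p2 rfl hDD p9 p10 p11 p12 p13
    e0 he0p he01 he hCh
    (fun z hz R => hEH' V W (fun R => bb A a (S R) R) K w0 z hK1 p3 (by linarith) hz R
      (hbrow R)) hKs p15 f Ff Lg hKL (t ^ (σ / 8)) (t ^ (-(σ / 8))) hp8
      (Real.rpow_pos_of_pos ht0 _) hfl hfF hΛe hΛδ z hz
  refine ⟨a', h1, fun R => (h2 R).trans ?_, fun R hR => (h3 R).trans ?_,
    fun R hR => (h3 R).trans ?_, fun v => ?_⟩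
  · have := hμ0 R
    nlinarith
  · have hr := hμ0 R
    have hle := hLg R hR
    simp only [hS, hK, if_neg hR]
    have hs14 : 0 < (μ R) ^ (1/4 : ℝ) := Real.rpow_pos_of_pos hr _
    have e1 : Real.sqrt (μ R) = (μ R) ^ (1/4 : ℝ) * (μ R) ^ (1/4 : ℝ) := by
      rw [← Real.rpow_add hr, Real.sqrt_eq_rpow]; norm_num
    have e2 : (μ R) ^ (-(1/4) : ℝ) * (μ R) ^ (1/4 : ℝ) = 1 := by
      rw [← Real.rpow_add hr]; norm_num
    have e3 : (μ R) ^ (1/4 : ℝ) ≤ 1 := Real.rpow_le_one hr.le hle (by norm_num)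
    rw [e1]
    calc (CK * (μ R) ^ (-(1/4) : ℝ) + 3) * ((μ R) ^ (1/4 : ℝ) * (μ R) ^ (1/4 : ℝ))
        = CK * ((μ R) ^ (-(1/4) : ℝ) * (μ R) ^ (1/4 : ℝ)) * (μ R) ^ (1/4 : ℝ)
          + 3 * ((μ R) ^ (1/4 : ℝ)) * (μ R) ^ (1/4 : ℝ) := by ring
      _ = CK * (μ R) ^ (1/4 : ℝ) + 3 * ((μ R) ^ (1/4 : ℝ)) * (μ R) ^ (1/4 : ℝ) := by
          rw [e2]; ring
      _ ≤ 4 * CK * (μ R) ^ (1/4 : ℝ) := by nlinarith
  · simp only [hS, hK, if_pos hR]
    norm_num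
  · refine le_trans (le_of_eq ?_) (h4 v)
    refine Finset.sum_congr rfl fun R hR => ?_
    simp only [hS, if_pos hR]

end Pool.Agent.J4.H8.BF
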