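import Pool.Agent.J4.H8.BF.SOLJ
import Pool.Agent.R959.LD2.CORE

set_option autoImplicit false
set_option linter.unusedSectionVars false
set_option linter.unusedVariables false
set_option maxHeartbeats 4000000

/-!
# One phase, with explicit parameters and control at the vertices
-/

open MeasureTheory ProbabilityTheory

namespace Pool.Agent.J4.H8.BF

open Pool.Agent.H320R2.LD Pool.Agent.H320R2.LD.PHASE Pool.Agent.R959.LD2

noncomputable section

/-- the incidence relation with one further row for every vertex: the rows meeting it -/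
def I2 {V W : Type} (I : W → V → Prop) : W ⊕ V → V → Prop
  | Sum.inl R, u => I R u
  | Sum.inr v, u => u = v ∨ ∃ R, I R v ∧ I R u

theorem chain_I2 {V W : Type} (I : W → V → Prop) : ∀ (l : List W) (v u : V),
    chainTo I v l u → chainTo (I2 I) v (l.map Sum.inl) u
  | [], _, _, h => h
  | _ :: l, _, u, ⟨h1, w, h2, h3⟩ => ⟨h1, w, h2, chain_I2 I l w u h3⟩

open Classical in
theorem ball_I2 {V W : Type} [Fintype V] (I : W → V → Prop) (n : ℕ) (v : V) :
    ball I n v ⊆ ball (I2 I) n v := by
  intro u hu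
  unfold ball at hu ⊢
  rw [Finset.mem_filter] at hu ⊢
  obtain ⟨-, l, h1, h2⟩ := hu
  exact ⟨Finset.mem_univ _, l.map Sum.inl, by simpa using h1, chain_I2 I l v u h2⟩

open Classical in
theorem card_I2_row {V W : Type} [Fintype V] [Fintype W] (I : W → V → Prop) (D : ℕ)
    (h1 : ∀ R, (Finset.univ.filter (fun v => I R v)).card ≤ D)
    (h2 : ∀ v, (Finset.univ.filter (fun R => I R v)).card ≤ D) (v : V) :
    (Finset.univ.filter (fun u => u = v ∨ ∃ R, I R v ∧ I R u)).card ≤ D ^ 2 + 1 := by
  have hsub : Finset.univ.filter (fun u => u = v ∨ ∃ R, I R v ∧ I R u) ⊆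
      {v} ∪ (Finset.univ.filter (fun R => I R v)).biUnion
        fun R => Finset.univ.filter (fun u => I R u) := by
    intro u hu
    rw [Finset.mem_filter] at hu
    rw [Finset.mem_union]
    rcases hu.2 with h | ⟨R, h3, h4⟩
    · exact Or.inl (Finset.mem_singleton.2 h)
    · refine Or.inr (Finset.mem_biUnion.2 ⟨R, ?_, ?_⟩)
      · exact Finset.mem_filter.2 ⟨Finset.mem_univ _, h3⟩
      · exact Finset.mem_filter.2 ⟨Finset.mem_univ _, h4⟩
  refine (Finset.card_le_card hsub).trans ((Finset.card_union_le _ _).trans ?_)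
  rw [Finset.card_singleton]
  have h3 : ((Finset.univ.filter (fun R => I R v)).biUnion
      fun R => Finset.univ.filter (fun u => I R u)).card ≤ D * D := by
    refine (Finset.card_biUnion_le_card_mul _ _ D fun R _ => h1 R).trans ?_
    exact Nat.mul_le_mul_right _ (h2 v)
  nlinarith

open Classical in
theorem card_I2 {V W : Type} [Fintype V] [Fintype W] (I : W → V → Prop) (D D' : ℕ)
    (hD : D ^ 2 + D + 1 ≤ D')
    (h1 : ∀ R, (Finset.univ.filter (fun v => I R v)).card ≤ D)
    (h2 : ∀ v, (Finset.univ.filter (fun R => I R v)).card ≤ D) :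
    (∀ j, (Finset.univ.filter (fun v => I2 I j v)).card ≤ D') ∧
    (∀ v, (Finset.univ.filter (fun j => I2 I j v)).card ≤ D') := by
  refine ⟨fun j => ?_, fun v => ?_⟩
  · cases j with
    | inl R => exact (h1 R).trans (by nlinarith)
    | inr v =>
      have e := card_I2_row I D h1 h2 v
      have e2 : D ^ 2 + 1 ≤ D' := by omega
      refine le_trans (Finset.card_le_card ?_) (e.trans e2)
      intro u hu
      exact Finset.mem_filter.2 ⟨Finset.mem_univ _, (Finset.mem_filter.1 hu).2⟩
  · have hsub : Finset.univ.filter (fun j => I2 I j v) ⊆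
        (Finset.univ.filter (fun R => I R v)).image Sum.inl ∪
        (Finset.univ.filter (fun u => u = v ∨ ∃ R, I R v ∧ I R u)).image Sum.inr := by
      intro j hj
      rw [Finset.mem_filter] at hj
      rw [Finset.mem_union]
      cases j with
      | inl R =>
        refine Or.inl (Finset.mem_image.2 ⟨R, ?_, rfl⟩)
        exact Finset.mem_filter.2 ⟨Finset.mem_univ _, hj.2⟩
      | inr u =>
        refine Or.inr (Finset.mem_image.2 ⟨u, ?_, rfl⟩)
        refine Finset.mem_filter.2 ⟨Finset.mem_univ _, ?_⟩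
        rcases hj.2 with h | ⟨R, h3, h4⟩
        · exact Or.inl h.symm
        · exact Or.inr ⟨R, h4, h3⟩
    refine (Finset.card_le_card hsub).trans ((Finset.card_union_le _ _).trans ?_)
    have e1 := (Finset.card_image_le (s := Finset.univ.filter (fun R => I R v))
      (f := (Sum.inl : W → W ⊕ V))).trans (h2 v)
    have e2 := (Finset.card_image_le (s := Finset.univ.filter
      (fun u => u = v ∨ ∃ R, I R v ∧ I R u)) (f := (Sum.inr : V → W ⊕ V))).trans
      (card_I2_row I D h1 h2 v)
    omega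

open Classical in
/-- The assembly with explicit parameters and control at the vertices. -/
theorem core_phase2 (hSOL : Sr_SOL) (hSOLJ : Sr_SOLJ) (hLOC : Sr_LOC)
    (hDEP : St_DEP) (hLLL : St_LLL) (hFAR : Sr_FAR) (hMEAN : Sr_MEAN) (hGEX : St_GEX)
    (hCONC : St_CONC) (hMOM : St_MOM)
    {V W : Type} [Fintype V] [Fintype W] (A : W → V → ℝ) (a : V → ℝ) (ν κ t s : ℝ)
    (μ S K : W → ℝ)
    (hA : Admr ν κ t A) (ha : ∀ v, |a v| ≤ 1) (hPhi : ∀ R, Phi A a R ≤ μ R)
    (hμ : ∀ R, s ≤ μ R) (hS : ∀ R, s ≤ S R) (hrow : ∀ R, Phi A a R ≤ S R ∨ K R ≤ 1)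
    (ht : 1000 ≤ t) (hs : 0 < s) (M w0 α q qb ε c Ch : ℝ) (Dt D m : ℕ)
    (hM : M = 400) (hK : ∀ R, 1 ≤ K R) (hw0 : 0 < w0) (hw1 : w0 ≤ 1) (hw2 : w0 ≤ 1/1000)
    (hc : c = 1 / 10 ^ 12)
    (hq : 2 * (1 + 2 * M) ≤ q) (hqw : w0 ≤ q⁻¹) (hα : 0 < α) (hα1 : α ≤ 1) (hm : 1 ≤ m)
    (hD : (Dt : ℕ) = ⌊Real.exp (t ^ κ)⌋₊) (hDD : Dt ^ 2 + Dt + 1 ≤ D)
    (hCT : 8 * α ^ 2 * q ^ 4 * (t ^ ν / s) ≤ 1)
    (hqb : 0 < qb) (hqb1 : qb ≤ 1) (hε : 0 < ε)
    (hpath : (2 * (D : ℝ) ^ 2) ^ (4 * m) * Real.exp (-(m : ℝ) * q ^ 2 / (4 * M ^ 2)) ≤ qb ^ 2)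
    (e0 : ℝ) (he0p : 0 < e0) (he0 : Real.exp (t ^ κ) * e0 ≤ 1 / 1000) (hεq : ε + 2 * qb ≤ e0)
    (hCh : 0 < Ch) (hEH : ∀ (z : (V → ℝ) → (V → ℝ)),
      (∀ y, VIr (fun R => bb A a (S R) R) (pK K w0) y (z y)) → ∀ R,
      Integrable (fun g => hf (K R) w0 (eta (fun R => bb A a (S R) R) (z (M • g)) R)) (gam V) ∧
      ∫ g, hf (K R) w0 (eta (fun R => bb A a (S R) R) (z (M • g)) R) ∂(gam V)
        ≤ Ch * ((K R)⁻¹) ^ 4)
    (hKs : ∀ v, 16 * ∑ R, A R v ^ 2 * ((1 / S R) * (Ch * ((K R)⁻¹) ^ 4)) ≤ 2 / 1000)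
    (hfin : 4 * (Real.exp (-(c * (s * t))) + 2 * Real.exp (-((w0⁻¹) ^ 4 / M ^ 2))
      + D * (2 * qb + 2 * Real.exp (-(ε ^ 2 * Real.exp (4 * α * m) / (16 * M ^ 2)))))
      * (((D ^ 2 + 1) ^ (2 * (4 * m) + 1) : ℕ) : ℝ) ≤ 1)
    (f : W → ℝ → ℝ) (Ff : W → ℝ) (Lg : Finset W) (hLg : ∀ R ∈ Lg, K R ≤ 1) (Λ δ : ℝ)
    (hΛ : 0 < Λ) (hδ : 0 < δ) (hfl : ∀ R ∈ Lg, ∀ x y, |f R x - f R y| ≤ Λ * |x - y|)
    (hfF : ∀ R ∈ Lg, ∀ x, f R x + f R (-x) ≤ 2 * Ff R)
    (hΛe : Λ * (Real.exp (t ^ κ) * e0) ≤ δ / 2)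
    (hΛδ : c * (s * t) ≤ δ ^ 2 * t / (64 * M ^ 2 * Λ ^ 2))
    (z : (V → ℝ) → (V → ℝ)) (hz : ∀ y, VIr (fun R => bb A a (S R) R) (pK K w0) y (z y)) :
    ∃ a' : V → ℝ, (∀ v, |a' v| ≤ 1) ∧ (∀ R, Phi A a' R ≤ 77/100 * μ R) ∧
      (∀ R, |∑ v, A R v * (a' v - a v)| ≤ (K R + 3) * Real.sqrt (S R)) ∧
      ∀ v, ∑ R ∈ Lg, A R v ^ 2 * f R ((∑ v, A R v * (a' v - a v)) / Real.sqrt (S R)) ≤
        (∑ R ∈ Lg, A R v ^ 2 * Ff R) + δ := by
  have hM0 : 0 < M := by rw [hM]; norm_num
  have ht0 : 0 < t := by linarith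
  obtain ⟨hA1, hA3, hAop, hA4, hA5⟩ := hA
  have hS0 : ∀ R, 0 < S R := fun R => lt_of_lt_of_le hs (hS R)
  have hμ0 : ∀ R, 0 < μ R := fun R => lt_of_lt_of_le hs (hμ R)
  set b : W → V → ℝ := fun R => bb A a (S R) R with hb
  have hbrow : ∀ R, ∑ v, b R v ^ 2 ≤ 1 ∨ K R ≤ 1 := by
    intro R
    rcases hrow R with h | h
    · exact Or.inl (bb_row ha (hS0 R) R h)
    · exact Or.inr h
  have hbA : ∀ R v, b R v ^ 2 ≤ A R v ^ 2 * (1 / S R) := by
    intro R v
    have h1 := rho_nonneg ha v
    have h2 := rho_le_one (a := a) v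
    have h3 : b R v ^ 2 = (A R v ^ 2 * (1 / S R)) * rho a v ^ 2 := by
      simp only [hb]
      unfold bb
      rw [div_pow, Real.sq_sqrt (hS0 R).le, mul_pow]
      ring
    rw [h3]
    have h4 : 0 ≤ A R v ^ 2 * (1 / S R) :=
      mul_nonneg (sq_nonneg _) (one_div_nonneg.2 (hS0 R).le)
    exact mul_le_of_le_one_right h4 (by nlinarith)
  obtain ⟨hodd, hlip, hlipv, hlipR, -, -⟩ := hSOL V W b K w0 z hK hw0 hw1 hz
  have hzb : ∀ y v, |z y v| ≤ 1 := fun y v => (hz y).1 v
  -- supports
  obtain ⟨I, hI⟩ : ∃ I : W → V → Prop, ∀ R v, I R v ↔ A R v ≠ 0 := ⟨_, fun _ _ => Iff.rfl⟩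
  have hbI : ∀ R v, b R v ≠ 0 → I R v := fun R v h => (hI R v).2 (bb_supp (s := S R) R v h)
  have hAI : ∀ R v, ¬ I R v → A R v = 0 := fun R v h => by
    by_contra h0
    exact h ((hI R v).2 h0)
  have hcardRt : ∀ R, (Finset.univ.filter (fun v => I R v)).card ≤ Dt := by
    intro R
    rw [hD]
    refine Nat.le_floor ?_
    have : (Finset.univ.filter (fun v => I R v)) = supp (A R) := by
      ext v
      rw [Finset.mem_filter, mem_supp, hI]
      simp
    rw [this]
    exact hA4 R
  have hcardVt : ∀ v, (Finset.univ.filter (fun R => I R v)).card ≤ Dt := by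
    intro v
    rw [hD]
    refine Nat.le_floor ?_
    have : (Finset.univ.filter (fun R => I R v)) = supp (fun R => A R v) := by
      ext R
      rw [Finset.mem_filter, mem_supp, hI]
      simp
    rw [this]
    exact hA5 v
  have hDtD : Dt ≤ D := by nlinarith
  have hcardR : ∀ R, (Finset.univ.filter (fun v => I R v)).card ≤ D := fun R =>
    (hcardRt R).trans hDtD
  have hcardV : ∀ v, (Finset.univ.filter (fun R => I R v)).card ≤ D := fun v =>
    (hcardVt v).trans hDtD
  obtain ⟨hc2R, hc2V⟩ := card_I2 I Dt D hDD hcardRt hcardVt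
  have hncR : ∀ R, {v | I R v}.ncard ≤ D := by
    intro R
    rw [Set.ncard_eq_toFinset_card']
    convert hcardR R using 2
    ext v; simp
  have hncV : ∀ v, {R | I R v}.ncard ≤ D := by
    intro v
    rw [Set.ncard_eq_toFinset_card']
    convert hcardV v using 2
    ext R; simp
  have hexp1 : 1 ≤ Real.exp (t ^ κ) := Real.one_le_exp (Real.rpow_nonneg ht0.le _)
  have hDe : (Dt : ℝ) ≤ Real.exp (t ^ κ) := by
    rw [hD]; exact Nat.floor_le (Real.exp_pos _).le
  have he01 : e0 ≤ 1 / 1000 := by nlinarith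
  have hss : 0 < Real.sqrt s := Real.sqrt_pos.2 hs
  have hOPb : ∀ x : V → ℝ, ∑ R, (∑ v, |b R v| * |x v|) ^ 2 ≤ (t ^ ν / s) * nsq x := by
    intro x
    have h1 : ∀ R, (∑ v, |b R v| * |x v|) ^ 2 ≤ (∑ v, |A R v| * |x v|) ^ 2 / s := by
      intro R
      have h2 : ∑ v, |b R v| * |x v| ≤ (∑ v, |A R v| * |x v|) / Real.sqrt (S R) := by
        rw [Finset.sum_div]
        refine Finset.sum_le_sum fun v _ => ?_
        have h3 := bb_l1 A a (S R) (hS0 R) ha R v
        calc |b R v| * |x v| ≤ (|A R v| / Real.sqrt (S R)) * |x v| :=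
              mul_le_mul_of_nonneg_right h3 (abs_nonneg _)
          _ = |A R v| * |x v| / Real.sqrt (S R) := by ring
      have h4 : 0 ≤ ∑ v, |b R v| * |x v| :=
        Finset.sum_nonneg fun v _ => mul_nonneg (abs_nonneg _) (abs_nonneg _)
      calc (∑ v, |b R v| * |x v|) ^ 2 ≤ ((∑ v, |A R v| * |x v|) / Real.sqrt (S R)) ^ 2 :=
            pow_le_pow_left₀ h4 h2 2
        _ = (∑ v, |A R v| * |x v|) ^ 2 / S R := by rw [div_pow, Real.sq_sqrt (hS0 R).le]
        _ ≤ (∑ v, |A R v| * |x v|) ^ 2 / s :=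
            div_le_div_of_nonneg_left (sq_nonneg _) hs (hS R)
    calc ∑ R, (∑ v, |b R v| * |x v|) ^ 2 ≤ ∑ R, (∑ v, |A R v| * |x v|) ^ 2 / s :=
          Finset.sum_le_sum fun R _ => h1 R
      _ = (∑ R, (∑ v, |A R v| * |x v|) ^ 2) / s := by rw [Finset.sum_div]
      _ ≤ (t ^ ν * nsq x) / s := div_le_div_of_nonneg_right (hAop x) hs.le
      _ = (t ^ ν / s) * nsq x := by ring
  -- locality
  set X : V → (V → ℝ) → ℝ := fun v => XX z M (ball I (4 * m) v) v with hX
  set δ1 : ℝ := 2 * qb + 2 * Real.exp (-(ε ^ 2 * Real.exp (4 * α * m) / (16 * M ^ 2))) with hδ1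
  have hloc : ∀ v, (gam V).real {g | ε + 2 * qb < |X v g - z (M • g) v|} ≤ δ1 := by
    intro v
    exact hLOC V W b K w0 M α q qb ε (t ^ ν / s) D m z I hK hw0 hw1 hz hbI
      hncR hncV hM0 hα hα1 hq hqw (by positivity) hOPb hCT hqb hqb1 hε hm hpath v
  -- expected free mass
  have hfree : ∀ v, ∫ g, (1 - |z (M • g) v|) ∂(gam V) ≤ 6 / 1000 := by
    intro v
    have h1 := hMEAN V W b K w0 M (w0 / 4) z hK hw0 hw1 hbrow hz hM0 (by positivity) le_rfl
      (fun R => (hEH z hz R).1) v
    have h2 : 16 * ∑ R, b R v ^ 2 * ∫ g, hf (K R) w0 (eta b (z (M • g)) R) ∂(gam V) ≤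
        2 / 1000 := by
      calc 16 * ∑ R, b R v ^ 2 * ∫ g, hf (K R) w0 (eta b (z (M • g)) R) ∂(gam V)
          ≤ 16 * ∑ R, (A R v ^ 2 * (1 / S R)) * (Ch * ((K R)⁻¹) ^ 4) := by
            refine mul_le_mul_of_nonneg_left (Finset.sum_le_sum fun R _ => ?_) (by norm_num)
            refine (mul_le_mul_of_nonneg_left (hEH z hz R).2 (sq_nonneg _)).trans ?_
            exact mul_le_mul_of_nonneg_right (hbA R v) (by positivity)
        _ = 16 * ∑ R, A R v ^ 2 * ((1 / S R) * (Ch * ((K R)⁻¹) ^ 4)) := by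
            congr 1
            exact Finset.sum_congr rfl fun R _ => by ring
        _ ≤ 2 / 1000 := hKs v
    have h3 : (1 : ℝ) / M = 1 / 400 := by rw [hM]
    rw [h3] at h1
    linarith
  have hzc : ∀ v, Continuous (fun g => z (M • g) v) := fun v =>
    lip_continuous (zM_lip hM0 hlipv v)
  have hG : ∀ v, ∫ g, Gp (sg a v * z (M • g) v) ∂(gam V) ≤ 3 / 4 := by
    intro v
    refine hGEX V (fun g => z (M • g) v) (hzc v) (fun g => hzb _ _) ?_ (hfree v) (sg a v)
      (sg_cases a v)
    intro g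
    have h1 : M • (-g) = -(M • g) := smul_neg _ _
    show z (M • (-g)) v = - z (M • g) v
    rw [h1, hodd]; rfl
  -- progress
  set F : W → (V → ℝ) → ℝ := fun R g => FF A a R (z (M • g)) with hF
  have hEF : ∀ R, ∫ g, F R g ∂(gam V) ≤ 3 / 4 * μ R := by
    intro R
    have h1 : ∫ g, F R g ∂(gam V) = ∑ v, A R v ^ 2 * Real.sqrt (rho a v) *
        ∫ g, Gp (sg a v * z (M • g) v) ∂(gam V) := by
      rw [hF]
      unfold FF
      rw [integral_finsetSum]
      · refine Finset.sum_congr rfl fun v _ => ?_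
        rw [integral_const_mul]
      · intro v _
        refine Integrable.const_mul ?_ _
        refine Integrable.of_bound (C := 2) ?_ ?_
        · exact (Gp_continuous.comp (continuous_const.mul (hzc v))).aestronglyMeasurable
        · refine Filter.Eventually.of_forall fun g => ?_
          rw [Real.norm_eq_abs]
          refine Gp_bdd _ ?_
          rw [abs_mul, sg_abs, one_mul]; exact hzb _ _
    rw [h1]
    have h2 : ∑ v, A R v ^ 2 * Real.sqrt (rho a v) *
        ∫ g, Gp (sg a v * z (M • g) v) ∂(gam V) ≤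
        ∑ v, A R v ^ 2 * Real.sqrt (rho a v) * (3 / 4) :=
      Finset.sum_le_sum fun v _ => mul_le_mul_of_nonneg_left (hG v) (by positivity)
    refine h2.trans ?_
    rw [← Finset.sum_mul]
    have h3 : ∑ v, A R v ^ 2 * Real.sqrt (rho a v) ≤ μ R := hPhi R
    linarith
  have hFlip : ∀ R, Lip (10 * Real.sqrt (μ R / t) * M) (F R) := by
    intro R x y
    refine (FF_lip t ht0 ha (hμ0 R) hA1 R (hPhi R) (z (M • x)) (z (M • y))).trans ?_
    rw [mul_assoc (10 * Real.sqrt (μ R / t))]
    refine mul_le_mul_of_nonneg_left ?_ (by positivity)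
    refine (hlip (M • y) (M • x)).trans ?_
    rw [← smul_sub, nrm_smul, abs_of_pos hM0]
  have hFP : ∀ R, (gam V).real {g | (∫ y, F R y ∂(gam V)) + μ R / 100 ≤ F R g}
      ≤ Real.exp (-(c * (s * t))) := by
    intro R
    have hr := hμ0 R
    have hL : 0 < 10 * Real.sqrt (μ R / t) * M := by positivity
    refine (hCONC V (F R) _ hL (hFlip R) (μ R / 100) (by positivity)).trans ?_
    rw [Real.exp_le_exp]
    have h1 : (10 * Real.sqrt (μ R / t) * M) ^ 2 = 100 * (μ R / t) * 160000 := by
      rw [mul_pow, mul_pow, Real.sq_sqrt (by positivity), hM]; norm_num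
    rw [h1, hc, neg_div, neg_le_neg_iff, le_div_iff₀ (by positivity)]
    have h2 : (1 / 10 ^ 12 * (s * t)) * (4 * (100 * (μ R / t) * 160000)) =
        64 / 10 ^ 6 * (s * μ R) := by
      field_simp
      ring
    rw [h2]
    nlinarith [hμ R, mul_le_mul_of_nonneg_right (hμ R) hr.le]
  -- the events
  have hfar := fun R => hFAR V W b K w0 M z hK hw0 hw1 hz hM0 R
  set E : W → Set (V → ℝ) := fun R => {g | 77/100 * μ R < FF A a R (fun v => X v g) ∨
    K R + 3 < |eta b (fun v => X v g) R|} with hE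
  have hXc : ∀ v, Continuous (X v) := fun v => lip_continuous (XX_lip hM0 hlipv hzb _ v)
  have hXb : ∀ v g, |X v g| ≤ 1 := fun v g => XX_abs hzb _ v g
  have hEm : ∀ R, MeasurableSet (E R) := by
    intro R
    have hER : E R = {g | 77/100 * μ R < FF A a R (fun v => X v g)} ∪
      {g | K R + 3 < |eta b (fun v => X v g) R|} := rfl
    rw [hER]
    refine MeasurableSet.union ?_ ?_
    · refine measurableSet_lt measurable_const (Continuous.measurable ?_)
      unfold FF
      refine continuous_finsetSum _ fun v _ => ?_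
      exact continuous_const.mul (Gp_continuous.comp (continuous_const.mul (hXc v)))
    · refine measurableSet_lt measurable_const (Continuous.measurable ?_)
      refine Continuous.abs ?_
      unfold eta
      exact continuous_finsetSum _ fun v _ => continuous_const.mul (hXc v)
  have hball : ∀ j v, I2 I j v → ball I (4 * m) v ⊆ rball (I2 I) (4 * m) j := by
    intro j v hv u hu
    unfold rball
    rw [Finset.mem_filter]
    exact ⟨Finset.mem_univ _, v, hv, ball_I2 I _ v hu⟩
  have hXdep : ∀ j v, I2 I j v → ∀ x y : V → ℝ,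
      (∀ u ∈ rball (I2 I) (4 * m) j, x u = y u) → X v x = X v y := by
    intro j v hv x y hxy
    exact XX_dep _ v x y fun u hu => hxy u (hball j v hv hu)
  have hEdep : ∀ R, ∀ x y : V → ℝ, (∀ u ∈ rball (I2 I) (4 * m) (Sum.inl R), x u = y u) →
      (x ∈ E R → y ∈ E R) := by
    intro R x y hxy hx
    have h1 : FF A a R (fun v => X v x) = FF A a R (fun v => X v y) := by
      unfold FF
      refine Finset.sum_congr rfl fun v _ => ?_
      by_cases hv : I R v
      · show A R v ^ 2 * Real.sqrt (rho a v) * Gp (sg a v * X v x)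
          = A R v ^ 2 * Real.sqrt (rho a v) * Gp (sg a v * X v y)
        rw [hXdep (Sum.inl R) v hv x y hxy]
      · have : A R v = 0 := hAI R v hv
        rw [this]; simp
    have h2 : eta b (fun v => X v x) R = eta b (fun v => X v y) R := by
      unfold eta
      refine Finset.sum_congr rfl fun v _ => ?_
      by_cases hv : I R v
      · show b R v * X v x = b R v * X v y
        rw [hXdep (Sum.inl R) v hv x y hxy]
      · have : b R v = 0 := by
          by_contra h0
          exact hv (hbI R v h0)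
        rw [this]; simp
    show 77/100 * μ R < FF A a R (fun v => X v y) ∨ K R + 3 < |eta b (fun v => X v y) R|
    rw [← h1, ← h2]
    exact hx
  have hst : 1 ≤ s * t := by
    by_contra hcon
    push Not at hcon
    have h1 : 4 * Real.exp (-(c * (s * t))) ≤ 1 := by
      refine le_trans ?_ hfin
      have h2 : (1 : ℝ) ≤ (((D ^ 2 + 1) ^ (2 * (4 * m) + 1) : ℕ) : ℝ) := by
        exact_mod_cast Nat.one_le_pow _ _ (by positivity)
      have h3 : Real.exp (-(c * (s * t))) ≤ Real.exp (-(c * (s * t)))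
          + 2 * Real.exp (-((w0⁻¹) ^ 4 / M ^ 2))
          + D * (2 * qb + 2 * Real.exp (-(ε ^ 2 * Real.exp (4 * α * m) / (16 * M ^ 2)))) := by
        have : 0 ≤ 2 * Real.exp (-((w0⁻¹) ^ 4 / M ^ 2)) := by positivity
        have : 0 ≤ D * (2 * qb + 2 * Real.exp (-(ε ^ 2 * Real.exp (4 * α * m) / (16 * M ^ 2)))) := by
          positivity
        linarith
      have h4 : 0 ≤ Real.exp (-(c * (s * t))) := (Real.exp_pos _).le
      have h5 := h4.trans h3
      calc 4 * Real.exp (-(c * (s * t))) ≤ 4 * (Real.exp (-(c * (s * t)))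
          + 2 * Real.exp (-((w0⁻¹) ^ 4 / M ^ 2))
          + D * (2 * qb + 2 * Real.exp (-(ε ^ 2 * Real.exp (4 * α * m) / (16 * M ^ 2))))) * 1 := by
            linarith
        _ ≤ _ := mul_le_mul_of_nonneg_left h2 (by linarith)
    have h6 := Real.add_one_le_exp (-(c * (s * t)))
    have h7 : c * (s * t) ≤ 1 / 10 ^ 12 := by
      rw [hc]
      nlinarith
    norm_num at h7
    linarith
  have hb1 : ∀ R v, |b R v| ≤ 1 := by
    intro R v
    have h20 : b R v ^ 2 ≤ 1 := by
      refine (hbA R v).trans ?_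
      rw [mul_one_div, div_le_one (hS0 R)]
      refine le_trans ?_ (hS R)
      have h21 := hA1 R v
      have h23 : A R v ^ 2 * t ≤ s * t := h21.trans hst
      exact le_of_mul_le_mul_right h23 ht0
    exact (sq_le_one_iff_abs_le_one _).1 h20
  have hηX : ∀ R g, (∀ v, I R v → |X v g - z (M • g) v| ≤ e0) →
      |eta b (fun v => X v g) R - eta b (z (M • g)) R| ≤ Real.exp (t ^ κ) * e0 := by
    intro R g h3'
    unfold eta
    rw [← Finset.sum_sub_distrib]
    have h13 : |∑ v, (b R v * X v g - b R v * z (M • g) v)| ≤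
        ∑ v, (if I R v then e0 else 0) := by
      refine (Finset.abs_sum_le_sum_abs _ _).trans (Finset.sum_le_sum fun v _ => ?_)
      split_ifs with hv
      · rw [← mul_sub, abs_mul]
        calc |b R v| * |X v g - z (M • g) v| ≤ 1 * e0 :=
              mul_le_mul (hb1 R v) (h3' v hv) (abs_nonneg _) (by norm_num)
          _ = e0 := one_mul _
      · have : b R v = 0 := by
          by_contra h0
          exact hv (hbI R v h0)
        rw [this]; simp
    refine h13.trans ?_
    have h14 : ∑ v, (if I R v then e0 else 0) =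
        ((Finset.univ.filter (fun v => I R v)).card : ℝ) * e0 := by
      rw [Finset.sum_ite, Finset.sum_const_zero, add_zero, Finset.sum_const,
        nsmul_eq_mul]
    rw [h14]
    have h15 : ((Finset.univ.filter (fun v => I R v)).card : ℝ) ≤ Real.exp (t ^ κ) := by
      refine le_trans ?_ hDe
      exact_mod_cast hcardRt R
    exact mul_le_mul_of_nonneg_right h15 he0p.le
  have hEp : ∀ R, (gam V).real (E R) ≤ Real.exp (-(c * (s * t)))
      + 2 * Real.exp (-((w0⁻¹) ^ 4 / M ^ 2)) + D * δ1 := by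
    intro R
    set Sv := Finset.univ.filter (fun v => I R v) with hSv
    have hsub : E R ⊆ ({g | (∫ y, F R y ∂(gam V)) + μ R / 100 ≤ F R g} ∪
        {g | K R + 2 ≤ |eta b (z (M • g)) R|}) ∪
        ⋃ v ∈ Sv, {g | ε + 2 * qb < |X v g - z (M • g) v|} := by
      intro g hg
      by_contra hng
      rw [Set.mem_union, Set.mem_union, not_or, not_or] at hng
      obtain ⟨⟨h1, h2⟩, h3⟩ := hng
      have h1' : F R g < (∫ y, F R y ∂(gam V)) + μ R / 100 := not_le.1 h1
      have h2' : |eta b (z (M • g)) R| < K R + 2 := not_le.1 h2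
      have h3' : ∀ v, I R v → |X v g - z (M • g) v| ≤ e0 := by
        intro v hv
        by_contra h4
        apply h3
        rw [Set.mem_iUnion₂]
        refine ⟨v, by rw [hSv, Finset.mem_filter]; exact ⟨Finset.mem_univ _, hv⟩, ?_⟩
        show ε + 2 * qb < |X v g - z (M • g) v|
        exact lt_of_le_of_lt hεq (not_le.1 h4)
      -- first alternative
      have h5 : FF A a R (fun v => X v g) ≤ F R g + μ R / 100 := by
        have h6 : FF A a R (fun v => X v g) - F R g ≤
            ∑ v, A R v ^ 2 * Real.sqrt (rho a v) * (1 / 100) := by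
          rw [hF]
          unfold FF
          rw [← Finset.sum_sub_distrib]
          refine Finset.sum_le_sum fun v _ => ?_
          rw [← mul_sub]
          by_cases hv : I R v
          · refine mul_le_mul_of_nonneg_left ?_ (by positivity)
            have h7 := (le_abs_self _).trans
              (Gp_lip (sg a v * X v g) (sg a v * z (M • g) v))
            rw [← mul_sub, abs_mul, sg_abs, one_mul] at h7
            refine h7.trans ?_
            have h8 := h3' v hv
            have h9 : e0 ≤ 1 / 1000 := he01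
            linarith
          · have : A R v = 0 := hAI R v hv
            rw [this]; simp
        rw [← Finset.sum_mul] at h6
        have h10 : ∑ v, A R v ^ 2 * Real.sqrt (rho a v) ≤ μ R := hPhi R
        linarith
      have h11 : |eta b (fun v => X v g) R| ≤ |eta b (z (M • g)) R| + 1 := by
        have h12 : |eta b (fun v => X v g) R - eta b (z (M • g)) R| ≤ 1 :=
          (hηX R g h3').trans (he0.trans (by norm_num))
        have h18 := abs_sub_abs_le_abs_sub (eta b (fun v => X v g) R) (eta b (z (M • g)) R)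
        linarith
      rcases hg with hg | hg
      · have := hEF R
        have hg' : 77/100 * μ R < FF A a R (fun v => X v g) := hg
        linarith
      · have hg' : K R + 3 < |eta b (fun v => X v g) R| := hg
        linarith
    calc (gam V).real (E R) ≤ (gam V).real (({g | (∫ y, F R y ∂(gam V)) + μ R / 100 ≤ F R g} ∪
        {g | K R + 2 ≤ |eta b (z (M • g)) R|}) ∪
        ⋃ v ∈ Sv, {g | ε + 2 * qb < |X v g - z (M • g) v|}) := measureReal_mono hsub
      _ ≤ (gam V).real ({g | (∫ y, F R y ∂(gam V)) + μ R / 100 ≤ F R g} ∪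
        {g | K R + 2 ≤ |eta b (z (M • g)) R|}) +
        (gam V).real (⋃ v ∈ Sv, {g | ε + 2 * qb < |X v g - z (M • g) v|}) :=
          measureReal_union_le _ _
      _ ≤ (Real.exp (-(c * (s * t))) + 2 * Real.exp (-((w0⁻¹) ^ 4 / M ^ 2))) + D * δ1 := by
          refine add_le_add ?_ ?_
          · refine (measureReal_union_le _ _).trans ?_
            exact add_le_add (hFP R) (hfar R)
          · refine (measureReal_biUnion_finset_le _ _).trans ?_
            calc ∑ v ∈ Sv, (gam V).real {g | ε + 2 * qb < |X v g - z (M • g) v|}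
                ≤ ∑ v ∈ Sv, δ1 := Finset.sum_le_sum fun v _ => hloc v
              _ = Sv.card * δ1 := by rw [Finset.sum_const, nsmul_eq_mul]
              _ ≤ D * δ1 := by
                  refine mul_le_mul_of_nonneg_right ?_ (by positivity)
                  exact_mod_cast hcardR R
  -- the vertex functionals
  set G : V → (V → ℝ) → ℝ := fun v g =>
    ∑ R ∈ Lg, A R v ^ 2 * f R (eta b (z (M • g)) R) with hGdef
  have hηL : ∀ R ∈ Lg, Lip (2 * M) (fun g => eta b (z (M • g)) R) := by
    intro R hR x y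
    have h1 := hlipR R (Or.inr (hLg R hR)) (M • y) (M • x)
    rw [← smul_sub, nrm_smul, abs_of_pos hM0] at h1
    linarith
  have hfc : ∀ R ∈ Lg, Continuous (f R) := by
    intro R hR
    rw [Metric.continuous_iff]
    intro y ε hε
    refine ⟨ε / Λ, by positivity, fun x hx => ?_⟩
    rw [Real.dist_eq] at hx ⊢
    refine (hfl R hR x y).trans_lt ?_
    rwa [lt_div_iff₀' hΛ] at hx
  have hGlip : ∀ v, Lip (2 * M * Λ / Real.sqrt t) (G v) := by
    intro v x y
    have h1 : |G v x - G v y| ≤ ∑ R ∈ Lg, A R v ^ 2 *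
        (Λ * |eta b (z (M • x)) R - eta b (z (M • y)) R|) := by
      simp only [hGdef]
      rw [← Finset.sum_sub_distrib]
      refine (Finset.abs_sum_le_sum_abs _ _).trans (Finset.sum_le_sum fun R hR => ?_)
      rw [← mul_sub, abs_mul, abs_of_nonneg (sq_nonneg _)]
      exact mul_le_mul_of_nonneg_left (hfl R hR _ _) (sq_nonneg _)
    have h2 : ∑ R ∈ Lg, A R v ^ 2 * (Λ * |eta b (z (M • x)) R - eta b (z (M • y)) R|) =
        Λ * ∑ R ∈ Lg, A R v ^ 2 * |eta b (z (M • x)) R - eta b (z (M • y)) R| := by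
      rw [Finset.mul_sum]
      exact Finset.sum_congr rfl fun R _ => by ring
    have h3 := Real.sum_mul_le_sqrt_mul_sqrt Lg (fun R => A R v ^ 2)
      (fun R => |eta b (z (M • x)) R - eta b (z (M • y)) R|)
    have h4 : Real.sqrt (∑ R ∈ Lg, (A R v ^ 2) ^ 2) ≤ 1 / Real.sqrt t := by
      rw [show 1 / Real.sqrt t = Real.sqrt (1 / t) by
        rw [Real.sqrt_div zero_le_one, Real.sqrt_one]]
      refine Real.sqrt_le_sqrt ?_
      calc ∑ R ∈ Lg, (A R v ^ 2) ^ 2 ≤ ∑ R, (A R v ^ 2) ^ 2 :=
            Finset.sum_le_sum_of_subset_of_nonneg (Finset.subset_univ _)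
              fun R _ _ => sq_nonneg _
        _ ≤ ∑ R, A R v ^ 2 * (1 / t) := by
            refine Finset.sum_le_sum fun R _ => ?_
            rw [sq]
            refine mul_le_mul_of_nonneg_left ?_ (sq_nonneg _)
            rw [le_div_iff₀ ht0]
            exact hA1 R v
        _ = (∑ R, A R v ^ 2) * (1 / t) := by rw [Finset.sum_mul]
        _ ≤ 1 / t := mul_le_of_le_one_left (by positivity) (hA3 v)
    have h5 : Real.sqrt (∑ R ∈ Lg, |eta b (z (M • x)) R - eta b (z (M • y)) R| ^ 2) ≤
        2 * (M * nrm (x - y)) := by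
      have h6 := hSOLJ V W b K w0 z hK hw0 hw1 hz Lg hLg (M • y) (M • x)
      have h7 : M * nrm (x - y) = nrm (M • x - M • y) := by
        rw [← smul_sub, nrm_smul, abs_of_pos hM0]
      rw [h7]
      rw [Real.sqrt_le_left (mul_nonneg (by norm_num) (nrm_nonneg _))]
      simp only [sq_abs]
      refine h6.trans (le_of_eq ?_)
      rw [mul_pow]
      unfold nrm
      rw [Real.sq_sqrt (nsq_nonneg _)]
      norm_num
    calc |G v x - G v y| ≤ Λ * ∑ R ∈ Lg, A R v ^ 2 *
          |eta b (z (M • x)) R - eta b (z (M • y)) R| := h1.trans (le_of_eq h2)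
      _ ≤ Λ * ((1 / Real.sqrt t) * (2 * (M * nrm (x - y)))) := by
          refine mul_le_mul_of_nonneg_left (h3.trans ?_) hΛ.le
          exact mul_le_mul h4 h5 (Real.sqrt_nonneg _) (by positivity)
      _ = 2 * M * Λ / Real.sqrt t * nrm (x - y) := by ring
  obtain ⟨C8, -, hmom⟩ := hMOM
  have hGmean1 : ∀ R ∈ Lg, Integrable (fun g => f R (eta b (z (M • g)) R)) (gam V) ∧
      ∫ g, f R (eta b (z (M • g)) R) ∂(gam V) ≤ Ff R := by
    intro R hR
    set φ : (V → ℝ) → ℝ := fun g => eta b (z (M • g)) R with hφ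
    have hφc : Continuous φ := lip_continuous (hηL R hR)
    have hφb : ∀ g, |φ g| ≤ ∑ v, |b R v| := by
      intro g
      simp only [hφ]
      unfold eta
      refine (Finset.abs_sum_le_sum_abs _ _).trans (Finset.sum_le_sum fun v _ => ?_)
      rw [abs_mul]
      exact mul_le_of_le_one_right (abs_nonneg _) (hzb _ _)
    have hφodd : ∀ g, φ (-g) = - φ g := by
      intro g
      simp only [hφ]
      rw [smul_neg, hodd]
      unfold eta
      rw [← Finset.sum_neg_distrib]
      exact Finset.sum_congr rfl fun v _ => by simp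
    have hi1 : Integrable (fun g => f R (φ g)) (gam V) := by
      refine Integrable.of_bound (C := |f R 0| + Λ * ∑ v, |b R v|)
        ((hfc R hR).comp hφc).aestronglyMeasurable (Filter.Eventually.of_forall fun g => ?_)
      rw [Real.norm_eq_abs]
      have h1 := hfl R hR (φ g) 0
      rw [sub_zero] at h1
      have h2 := abs_sub_abs_le_abs_sub (f R (φ g)) (f R 0)
      have h3 := mul_le_mul_of_nonneg_left (hφb g) hΛ.le
      linarith
    refine ⟨hi1, ?_⟩
    -- the odd part
    set o : (V → ℝ) → ℝ := fun g => (f R (φ g) - f R (-(φ g))) / 2 with ho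
    have hoL : Lip (Λ * (2 * M)) o := by
      intro x y
      have h1 := hfl R hR (φ x) (φ y)
      have h2 := hfl R hR (-(φ x)) (-(φ y))
      have h3 : |-(φ x) - -(φ y)| = |φ x - φ y| := by
        rw [← abs_neg]; congr 1; ring
      rw [h3] at h2
      have h4 := hηL R hR x y
      have h5 : |o x - o y| ≤ Λ * |φ x - φ y| := by
        simp only [ho]
        have e1 : (f R (φ x) - f R (-(φ x))) / 2 - (f R (φ y) - f R (-(φ y))) / 2 =
            (f R (φ x) - f R (φ y)) / 2 - (f R (-(φ x)) - f R (-(φ y))) / 2 := by ring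
        rw [e1]
        refine (abs_sub _ _).trans ?_
        rw [abs_div, abs_div, abs_of_pos (by norm_num : (0:ℝ) < 2)]
        linarith
      calc |o x - o y| ≤ Λ * |φ x - φ y| := h5
        _ ≤ Λ * (2 * M * nrm (x - y)) := mul_le_mul_of_nonneg_left h4 hΛ.le
        _ = Λ * (2 * M) * nrm (x - y) := by ring
    have hoodd : ∀ x, o (-x) = - o x := by
      intro x
      simp only [ho]
      rw [hφodd, neg_neg]
      ring
    have ho0 : ∫ g, o g ∂(gam V) = 0 := (hmom V o (Λ * (2 * M)) (by positivity) hoL hoodd).1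
    have hoc : Continuous o := lip_continuous hoL
    have hoi : Integrable o (gam V) := by
      have hi2 : Integrable (fun g => f R (-(φ g))) (gam V) := by
        refine Integrable.of_bound (C := |f R 0| + Λ * ∑ v, |b R v|)
          ((hfc R hR).comp hφc.neg).aestronglyMeasurable
          (Filter.Eventually.of_forall fun g => ?_)
        rw [Real.norm_eq_abs]
        have h1 := hfl R hR (-(φ g)) 0
        rw [sub_zero, abs_neg] at h1
        have h2 := abs_sub_abs_le_abs_sub (f R (-(φ g))) (f R 0)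
        have h3 := mul_le_mul_of_nonneg_left (hφb g) hΛ.le
        linarith
      exact (hi1.sub hi2).div_const 2
    have hle : ∀ g, f R (φ g) ≤ o g + Ff R := by
      intro g
      simp only [ho]
      have := hfF R hR (φ g)
      linarith
    have hI : Integrable (fun g => o g + Ff R) (gam V) := hoi.add (integrable_const (Ff R))
    have h1 := integral_mono hi1 hI hle
    have h2 : ∫ g, (o g + Ff R) ∂(gam V) = Ff R := by
      rw [integral_add hoi (integrable_const _), ho0, zero_add, integral_const]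
      simp
    rw [h2] at h1
    exact h1
  have hGmean : ∀ v, ∫ g, G v g ∂(gam V) ≤ ∑ R ∈ Lg, A R v ^ 2 * Ff R := by
    intro v
    simp only [hGdef]
    rw [integral_finsetSum _ fun R hR => ((hGmean1 R hR).1).const_mul _]
    refine Finset.sum_le_sum fun R hR => ?_
    rw [integral_const_mul]
    exact mul_le_mul_of_nonneg_left (hGmean1 R hR).2 (sq_nonneg _)
  have hGP : ∀ v, (gam V).real {g | (∫ y, G v y ∂(gam V)) + δ / 2 ≤ G v g}
      ≤ Real.exp (-(c * (s * t))) := by
    intro v
    have hL : 0 < 2 * M * Λ / Real.sqrt t := by positivity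
    refine (hCONC V (G v) _ hL (hGlip v) (δ / 2) (by positivity)).trans ?_
    rw [Real.exp_le_exp, neg_div, neg_le_neg_iff]
    refine hΛδ.trans (le_of_eq ?_)
    have e1 : (2 * M * Λ / Real.sqrt t) ^ 2 = 4 * M ^ 2 * Λ ^ 2 / t := by
      rw [div_pow, Real.sq_sqrt ht0.le]; ring
    rw [e1]
    field_simp
    ring
  set EV : V → Set (V → ℝ) := fun v => {g | (∑ R ∈ Lg, A R v ^ 2 * Ff R) + δ <
    ∑ R ∈ Lg, A R v ^ 2 * f R (eta b (fun v => X v g) R)} with hEV
  have hEVm : ∀ v, MeasurableSet (EV v) := by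
    intro v
    refine measurableSet_lt measurable_const (Continuous.measurable ?_)
    refine continuous_finsetSum _ fun R hR => continuous_const.mul ((hfc R hR).comp ?_)
    unfold eta
    exact continuous_finsetSum _ fun v _ => continuous_const.mul (hXc v)
  have hEVdep : ∀ v, ∀ x y : V → ℝ, (∀ u ∈ rball (I2 I) (4 * m) (Sum.inr v), x u = y u) →
      (x ∈ EV v → y ∈ EV v) := by
    intro v x y hxy hx
    have h1 : ∑ R ∈ Lg, A R v ^ 2 * f R (eta b (fun v => X v x) R) =
        ∑ R ∈ Lg, A R v ^ 2 * f R (eta b (fun v => X v y) R) := by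
      refine Finset.sum_congr rfl fun R _ => ?_
      by_cases hv : I R v
      · have h2 : eta b (fun v => X v x) R = eta b (fun v => X v y) R := by
          unfold eta
          refine Finset.sum_congr rfl fun u _ => ?_
          by_cases hu : I R u
          · show b R u * X u x = b R u * X u y
            rw [hXdep (Sum.inr v) u (Or.inr ⟨R, hv, hu⟩) x y hxy]
          · have : b R u = 0 := by
              by_contra h0
              exact hu (hbI R u h0)
            rw [this]; simp
        rw [h2]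
      · have : A R v = 0 := hAI R v hv
        rw [this]; simp
    show (∑ R ∈ Lg, A R v ^ 2 * Ff R) + δ < _
    rw [← h1]
    exact hx
  have hEVp : ∀ v, (gam V).real (EV v) ≤ Real.exp (-(c * (s * t)))
      + 2 * Real.exp (-((w0⁻¹) ^ 4 / M ^ 2)) + D * δ1 := by
    intro v
    set Sv := Finset.univ.filter (fun u => I2 I (Sum.inr v) u) with hSv
    have hsub : EV v ⊆ {g | (∫ y, G v y ∂(gam V)) + δ / 2 ≤ G v g} ∪
        ⋃ u ∈ Sv, {g | ε + 2 * qb < |X u g - z (M • g) u|} := by
      intro g hg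
      by_contra hng
      rw [Set.mem_union, not_or] at hng
      obtain ⟨h1, h3⟩ := hng
      have h1' : G v g < (∫ y, G v y ∂(gam V)) + δ / 2 := not_le.1 h1
      have h3' : ∀ u, I2 I (Sum.inr v) u → |X u g - z (M • g) u| ≤ e0 := by
        intro u hu
        by_contra h4
        apply h3
        rw [Set.mem_iUnion₂]
        refine ⟨u, by rw [hSv, Finset.mem_filter]; exact ⟨Finset.mem_univ _, hu⟩, ?_⟩
        show ε + 2 * qb < |X u g - z (M • g) u|
        exact lt_of_le_of_lt hεq (not_le.1 h4)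
      have h5 : ∑ R ∈ Lg, A R v ^ 2 * f R (eta b (fun v => X v g) R) ≤ G v g + δ / 2 := by
        have h6 : ∀ R ∈ Lg, A R v ^ 2 * f R (eta b (fun v => X v g) R) ≤
            A R v ^ 2 * f R (eta b (z (M • g)) R) + A R v ^ 2 * (δ / 2) := by
          intro R hR
          rw [← mul_add]
          by_cases hv : I R v
          · refine mul_le_mul_of_nonneg_left ?_ (sq_nonneg _)
            have h7 := hηX R g (fun u hu => h3' u (Or.inr ⟨R, hv, hu⟩))
            have h8 := (le_abs_self _).trans (hfl R hR (eta b (fun v => X v g) R)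
              (eta b (z (M • g)) R))
            have h9 := mul_le_mul_of_nonneg_left h7 hΛ.le
            linarith
          · have : A R v = 0 := hAI R v hv
            rw [this]; simp
        refine (Finset.sum_le_sum h6).trans ?_
        rw [Finset.sum_add_distrib, ← Finset.sum_mul]
        have h7 : ∑ R ∈ Lg, A R v ^ 2 ≤ 1 :=
          (Finset.sum_le_sum_of_subset_of_nonneg (Finset.subset_univ _)
            fun R _ _ => sq_nonneg _).trans (hA3 v)
        have h8 : (∑ R ∈ Lg, A R v ^ 2) * (δ / 2) ≤ δ / 2 :=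
          mul_le_of_le_one_left (by positivity) h7
        simp only [hGdef]
        linarith
      have hg' : (∑ R ∈ Lg, A R v ^ 2 * Ff R) + δ <
        ∑ R ∈ Lg, A R v ^ 2 * f R (eta b (fun v => X v g) R) := hg
      have h10 := hGmean v
      linarith
    have hcardSv : Sv.card ≤ D := hc2R (Sum.inr v)
    calc (gam V).real (EV v) ≤ (gam V).real ({g | (∫ y, G v y ∂(gam V)) + δ / 2 ≤ G v g} ∪
        ⋃ u ∈ Sv, {g | ε + 2 * qb < |X u g - z (M • g) u|}) := measureReal_mono hsub
      _ ≤ (gam V).real {g | (∫ y, G v y ∂(gam V)) + δ / 2 ≤ G v g} +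
        (gam V).real (⋃ u ∈ Sv, {g | ε + 2 * qb < |X u g - z (M • g) u|}) :=
          measureReal_union_le _ _
      _ ≤ (Real.exp (-(c * (s * t))) + 2 * Real.exp (-((w0⁻¹) ^ 4 / M ^ 2))) + D * δ1 := by
          refine add_le_add ?_ ?_
          · refine (hGP v).trans ?_
            have : 0 ≤ 2 * Real.exp (-((w0⁻¹) ^ 4 / M ^ 2)) := by positivity
            linarith
          · refine (measureReal_biUnion_finset_le _ _).trans ?_
            calc ∑ u ∈ Sv, (gam V).real {g | ε + 2 * qb < |X u g - z (M • g) u|}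
                ≤ ∑ u ∈ Sv, δ1 := Finset.sum_le_sum fun u _ => hloc u
              _ = Sv.card * δ1 := by rw [Finset.sum_const, nsmul_eq_mul]
              _ ≤ D * δ1 := by
                  refine mul_le_mul_of_nonneg_right ?_ (by positivity)
                  exact_mod_cast hcardSv
  -- local lemma
  have hδ0 : 0 ≤ δ1 := by positivity
  obtain ⟨g, hg⟩ := hLLL V (W ⊕ V) (fun _ => gaussianReal 0 1) (Sum.elim E EV)
    (fun j => rball (I2 I) (4 * m) j) (by
      intro j
      cases j with
      | inl R => exact hEm R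
      | inr v => exact hEVm v) (by
      intro j x y hxy
      cases j with
      | inl R => exact hEdep R x y hxy
      | inr v => exact hEVdep v x y hxy)
    (Real.exp (-(c * (s * t))) + 2 * Real.exp (-((w0⁻¹) ^ 4 / M ^ 2)) + D * δ1)
    ((D ^ 2 + 1) ^ (2 * (4 * m) + 1)) (by positivity) (Nat.one_le_pow _ _ (by positivity)) (by
      intro j
      cases j with
      | inl R => exact hEp R
      | inr v => exact hEVp v)
    (fun j => hDEP V (W ⊕ V) (I2 I) D hc2R hc2V (4 * m) j) hfin
  have hgR : ∀ R, g ∉ E R := fun R => hg (Sum.inl R)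
  have hgV : ∀ v, g ∉ EV v := fun v => hg (Sum.inr v)
  have hdisc : ∀ R, ∑ v, A R v * (nw a (fun v => X v g) v - a v) =
      Real.sqrt (S R) * eta b (fun v => X v g) R := fun R =>
    nw_disc (A := A) (a := a) (hS0 R) (fun v => X v g) R
  -- the new state
  refine ⟨nw a (fun v => X v g), nw_abs ha _ (fun v => hXb v g), fun R => ?_, fun R => ?_,
    fun v => ?_⟩
  · refine (nw_Phi ha _ (fun v => hXb v g) R).trans ?_
    by_contra h1
    exact hgR R (Or.inl (not_le.1 h1))
  · rw [hdisc R, abs_mul, abs_of_nonneg (Real.sqrt_nonneg (S R)), mul_comm]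
    refine mul_le_mul_of_nonneg_right ?_ (Real.sqrt_nonneg (S R))
    by_contra h1
    exact hgR R (Or.inr (not_le.1 h1))
  · have h1 : ∑ R ∈ Lg, A R v ^ 2 * f R ((∑ v, A R v *
        (nw a (fun v => X v g) v - a v)) / Real.sqrt (S R)) =
        ∑ R ∈ Lg, A R v ^ 2 * f R (eta b (fun v => X v g) R) := by
      refine Finset.sum_congr rfl fun R _ => ?_
      rw [hdisc R, mul_div_cancel_left₀ _ (Real.sqrt_pos.2 (hS0 R)).ne']
    rw [h1]
    by_contra h2
    exact hgV v (not_le.1 h2)

end

end Pool.Agent.J4.H8.BF
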